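import Mathlib

open Filter Topology Set MeasureTheory

namespace FB

/-- Euclidean 3-space -/
abbrev E := EuclideanSpace ℝ (Fin 3)

/-- the part of `K` below the level `t` in direction `u` -/
def cut (K : Set E) (u : E) (t : ℝ) : Set E := K ∩ {x | inner ℝ x u ≤ t}

/-- the centroid -/
noncomputable def cen (A : Set E) : E := (volume A).toReal⁻¹ • ∫ x in A, x

/-- `K` floats in equilibrium in every orientation at relative density `d` -/
def Floats (K : Set E) (d : ℝ) : Prop := ∀ u : E, ‖u‖ = 1 → ∃ t : ℝ,
  volume (cut K u t) = ENNReal.ofReal d * volume K ∧ ∃ c : ℝ, cen K - cen (cut K u t) = c • u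

end FB
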