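import Pool.Agent.Helper240.FB.Defs

open Filter Topology Set MeasureTheory

namespace FB.J_j1










theorem p_const_step (p : E → ℝ) (hp : ∀ u : E, ‖u‖ = 1 → 0 ≤ p u) (a : ℝ) (ha0 : 0 ≤ a)
    (ha1 : a ≤ 1)
    (h : ∀ u u' : E, ‖u‖ = 1 → ‖u'‖ = 1 → 0 ≤ inner ℝ u u' →
      p u * (1 - a * (1 - inner ℝ u u')) ≤ p u') :
    ∀ u u' : E, ‖u‖ = 1 → ‖u'‖ = 1 → 0 ≤ inner ℝ u u' →
      p u * (1 - (2 / 3 * a) * (1 - inner ℝ u u')) ≤ p u' := by
  intro u u' hu hu' hc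
  obtain ⟨c, hcd⟩ : ∃ c : ℝ, c = inner ℝ u u' := ⟨_, rfl⟩
  rw [← hcd] at hc ⊢
  have hc1 : c ≤ 1 := by
    have := real_inner_le_norm u u'
    rw [hu, hu', mul_one] at this
    rw [hcd]; exact this
  obtain ⟨s, hs⟩ : ∃ s : ℝ, s = ‖u + u'‖ := ⟨_, rfl⟩
  have hs0 : 0 ≤ s := by rw [hs]; exact norm_nonneg _
  have hs2 : s ^ 2 = 2 * (1 + c) := by
    rw [hs, norm_add_sq_real, hu, hu', hcd]; ring
  have hspos : 0 < s := by
    rcases hs0.lt_or_eq with h1 | h1
    · exact h1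
    · rw [← h1] at hs2; nlinarith
  have hin1 : inner ℝ u (s⁻¹ • (u + u')) = s / 2 := by
    rw [inner_smul_right, inner_add_right, real_inner_self_eq_norm_sq, hu, ← hcd]
    field_simp
    rw [hs2]; ring
  have hin2 : inner ℝ (s⁻¹ • (u + u')) u' = s / 2 := by
    rw [real_inner_smul_left, inner_add_left, real_inner_self_eq_norm_sq, hu', ← hcd]
    field_simp
    rw [hs2]; ring
  have hm : ‖s⁻¹ • (u + u')‖ = 1 := by
    rw [norm_smul, ← hs, norm_inv, Real.norm_eq_abs, abs_of_pos hspos, inv_mul_cancel₀ hspos.ne']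
  obtain ⟨r, hr⟩ : ∃ r : ℝ, r = s / 2 := ⟨_, rfl⟩
  have hr0 : 0 < r := by rw [hr]; positivity
  have hr2 : r ^ 2 = (1 + c) / 2 := by rw [hr, div_pow, hs2]; ring
  have hr12 : 1 / 2 ≤ r := by nlinarith
  have hr1 : 1 - r ≤ (1 - c) / 3 := by nlinarith
  have h1 := h u (s⁻¹ • (u + u')) hu hm (by rw [hin1]; positivity)
  have h2 := h (s⁻¹ • (u + u')) u' hm hu' (by rw [hin2]; positivity)
  rw [hin1, ← hr] at h1
  rw [hin2, ← hr] at h2
  obtain ⟨t, ht⟩ : ∃ t : ℝ, t = 1 - a * ((1 - c) / 3) := ⟨_, rfl⟩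
  have ht0 : 0 ≤ t := by rw [ht]; nlinarith
  have htle : t ≤ 1 - a * (1 - r) := by
    rw [ht]; nlinarith
  have hpu := hp u hu
  have hpm := hp _ hm
  have h3 : p u * t ≤ p (s⁻¹ • (u + u')) := (mul_le_mul_of_nonneg_left htle hpu).trans h1
  have h4 : p (s⁻¹ • (u + u')) * t ≤ p u' := (mul_le_mul_of_nonneg_left htle hpm).trans h2
  have h5 : p u * t * t ≤ p u' := (mul_le_mul_of_nonneg_right h3 ht0).trans h4
  have h6 : 1 - 2 / 3 * a * (1 - c) ≤ t * t := by
    rw [ht]; nlinarith [sq_nonneg (a * ((1 - c) / 3))]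
  calc p u * (1 - 2 / 3 * a * (1 - c)) ≤ p u * (t * t) := mul_le_mul_of_nonneg_left h6 hpu
    _ = p u * t * t := by ring
    _ ≤ p u' := h5

theorem p_const_acute (p : E → ℝ) (hp : ∀ u : E, ‖u‖ = 1 → 0 ≤ p u)
    (h : ∀ u u' : E, ‖u‖ = 1 → ‖u'‖ = 1 → p u * inner ℝ u u' ≤ p u')
    (u u' : E) (hu : ‖u‖ = 1) (hu' : ‖u'‖ = 1) (hc : 0 ≤ inner ℝ u u') : p u ≤ p u' := by
  have hn : ∀ n : ℕ, ∀ u u' : E, ‖u‖ = 1 → ‖u'‖ = 1 → 0 ≤ inner ℝ u u' →
      p u * (1 - ((2 / 3 : ℝ) ^ n) * (1 - inner ℝ u u')) ≤ p u' := by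
    intro n
    induction n with
    | zero =>
      intro v v' hv hv' _
      rw [pow_zero, one_mul, sub_sub_cancel]
      exact h v v' hv hv'
    | succ n ih =>
      have := p_const_step p hp ((2 / 3 : ℝ) ^ n) (by positivity)
        (pow_le_one₀ (by norm_num) (by norm_num)) ih
      rw [pow_succ, mul_comm ((2 / 3 : ℝ) ^ n)]
      exact this
  have hlim : Tendsto (fun n : ℕ => p u * (1 - ((2 / 3 : ℝ) ^ n) * (1 - inner ℝ u u'))) atTop
      (𝓝 (p u * (1 - 0 * (1 - inner ℝ u u')))) := by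
    apply Tendsto.const_mul
    apply Tendsto.const_sub
    apply Tendsto.mul_const
    exact tendsto_pow_atTop_nhds_zero_of_lt_one (by norm_num) (by norm_num)
  rw [zero_mul, sub_zero, mul_one] at hlim
  exact le_of_tendsto' hlim (fun n => hn n u u' hu hu' hc)

theorem p_const_perp (u : E) : ∃ w : E, ‖w‖ = 1 ∧ inner ℝ u w = 0 := by
  have hw : ∃ w : E, w ≠ 0 ∧ inner ℝ u w = 0 := by
    by_cases h0 : u 0 = 0
    · refine ⟨EuclideanSpace.single 0 1, ?_, ?_⟩
      · intro h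
        have := congrArg (fun v : E => v 0) h
        simp at this
      · rw [EuclideanSpace.inner_single_right]
        simp [h0]
    · refine ⟨u 1 • EuclideanSpace.single 0 1 - u 0 • EuclideanSpace.single 1 1, ?_, ?_⟩
      · intro h
        have := congrArg (fun v : E => v 1) h
        simp at this
        exact h0 this
      · rw [inner_sub_right, inner_smul_right, inner_smul_right,
          EuclideanSpace.inner_single_right, EuclideanSpace.inner_single_right]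
        simp
        ring
  obtain ⟨w, hw0, hw1⟩ := hw
  refine ⟨‖w‖⁻¹ • w, ?_, ?_⟩
  · rw [norm_smul, norm_inv, norm_norm, inv_mul_cancel₀ (norm_ne_zero_iff.2 hw0)]
  · rw [inner_smul_right, hw1, mul_zero]

theorem p_const_le (p : E → ℝ) (hp : ∀ u : E, ‖u‖ = 1 → 0 ≤ p u)
    (h : ∀ u u' : E, ‖u‖ = 1 → ‖u'‖ = 1 → p u * inner ℝ u u' ≤ p u')
    (u u' : E) (hu : ‖u‖ = 1) (hu' : ‖u'‖ = 1) : p u ≤ p u' := by
  by_cases hne : u + u' = 0
  · obtain ⟨w, hw, huw⟩ := p_const_perp u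
    have h1 : u' = -u := by
      rw [eq_neg_iff_add_eq_zero, add_comm]; exact hne
    have h2 : inner ℝ w u' = 0 := by
      rw [h1, inner_neg_right, real_inner_comm, huw, neg_zero]
    exact (p_const_acute p hp h u w hu hw huw.ge).trans (p_const_acute p hp h w u' hw hu' h2.ge)
  · have hspos : 0 < ‖u + u'‖ := norm_pos_iff.2 hne
    have hm : ‖‖u + u'‖⁻¹ • (u + u')‖ = 1 := by
      rw [norm_smul, norm_inv, norm_norm, inv_mul_cancel₀ hspos.ne']
    have hc1 : -1 ≤ inner ℝ u u' := by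
      have := abs_real_inner_le_norm u u'
      rw [hu, hu', mul_one] at this
      exact (abs_le.1 this).1
    have h1 : 0 ≤ inner ℝ u (‖u + u'‖⁻¹ • (u + u')) := by
      rw [inner_smul_right, inner_add_right, real_inner_self_eq_norm_sq, hu]
      apply mul_nonneg (by positivity)
      linarith
    have h2 : 0 ≤ inner ℝ (‖u + u'‖⁻¹ • (u + u')) u' := by
      rw [real_inner_smul_left, inner_add_left, real_inner_self_eq_norm_sq, hu']
      apply mul_nonneg (by positivity)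
      linarith
    exact (p_const_acute p hp h u _ hu hm h1).trans (p_const_acute p hp h _ u' hm hu' h2)

/-- TARGET -/
theorem p_const (p : E → ℝ) (hp : ∀ u : E, ‖u‖ = 1 → 0 ≤ p u)
    (h : ∀ u u' : E, ‖u‖ = 1 → ‖u'‖ = 1 → p u * inner ℝ u u' ≤ p u')
    (u u' : E) (hu : ‖u‖ = 1) (hu' : ‖u'‖ = 1) : p u = p u' :=
  le_antisymm (p_const_le p hp h u u' hu hu') (p_const_le p hp h u' u hu' hu)


end FB.J_j1

alias FB.p_const := FB.J_j1.p_const
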