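import Pool.Agent.Helper240.FB.Defs

open Filter Topology Set MeasureTheory

namespace FB.J_j10










theorem inball_null (u : E) (hu : ‖u‖ = 1) (c : ℝ) : volume {x : E | inner ℝ x u = c} = 0 := by
  have h1 : {x : E | inner ℝ x u = c}
      = (fun x : E => x + (-c) • u) ⁻¹' ((LinearMap.ker ((innerSL ℝ u : E →L[ℝ] ℝ) : E →ₗ[ℝ] ℝ) :
        Submodule ℝ E) : Set E) := by
    ext x
    simp only [Set.mem_setOf_eq, Set.mem_preimage, SetLike.mem_coe, LinearMap.mem_ker]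
    have h2 : ((innerSL ℝ u : E →L[ℝ] ℝ) : E →ₗ[ℝ] ℝ) (x + (-c) • u) = inner ℝ x u - c := by
      show inner ℝ u (x + (-c) • u) = _
      rw [inner_add_right, inner_smul_right, real_inner_self_eq_norm_sq, hu, real_inner_comm]
      ring
    rw [h2]
    constructor
    · intro h; rw [h]; ring
    · intro h; linarith
  rw [h1, measure_preimage_add_right]
  apply Measure.addHaar_submodule
  intro htop
  have h3 : u ∈ LinearMap.ker ((innerSL ℝ u : E →L[ℝ] ℝ) : E →ₗ[ℝ] ℝ) := by rw [htop]; trivial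
  rw [LinearMap.mem_ker] at h3
  have h4 : inner ℝ u u = (0 : ℝ) := h3
  rw [real_inner_self_eq_norm_sq, hu] at h4
  norm_num at h4

/-- TARGET -/
theorem inball (K : Set E) (hK : IsCompact K) (hc : Convex ℝ K) (hi : (interior K).Nonempty)
    (T : Set ℝ) (hT : T.Nonempty)
    (h : ∀ τ ∈ T, ∀ u : E, ‖u‖ = 1 → 0 < (volume (cut K u τ)).toReal ∧
      (volume (cut K u τ)).toReal < (volume K).toReal) :
    ∃ (R : ℝ) (v : E), 0 < R ∧ ‖v‖ = 1 ∧ Metric.closedBall 0 R ⊆ K ∧
      (∀ x ∈ K, inner ℝ x v ≤ R) ∧ ∀ τ ∈ T, |τ| < R := by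
  have hKne : K.Nonempty := hi.mono interior_subset
  obtain ⟨hh, hhdef⟩ : ∃ hh : E → ℝ, hh = fun u => sSup ((fun x : E => inner ℝ x u) '' K) := ⟨_, rfl⟩
  have hbdd : ∀ u : E, BddAbove ((fun x : E => inner ℝ x u) '' K) := fun u =>
    (hK.image (by fun_prop)).bddAbove
  have hle : ∀ u : E, ∀ x ∈ K, inner ℝ x u ≤ hh u := by
    intro u x hx
    rw [hhdef]
    exact le_csSup (hbdd u) ⟨x, hx, rfl⟩
  have hcont : Continuous hh := by
    rw [hhdef]
    exact hK.continuous_sSup (f := fun (u : E) (x : E) => inner ℝ x u) (by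
      show Continuous (fun p : E × E => inner ℝ p.2 p.1)
      fun_prop)
  have hA : ∀ τ ∈ T, ∀ u : E, ‖u‖ = 1 → τ < hh u := by
    intro τ hτ u hu
    by_contra hcon
    have hcon' : hh u ≤ τ := not_lt.1 hcon
    have h1 : cut K u τ = K := by
      unfold cut
      apply Set.inter_eq_left.2
      intro x hx
      exact (hle u x hx).trans hcon'
    have h2 := (h τ hτ u hu).2
    rw [h1] at h2
    exact lt_irrefl _ h2
  have hB : ∀ τ ∈ T, ∀ u : E, ‖u‖ = 1 → -τ < hh u := by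
    intro τ hτ u hu
    by_contra hcon
    have hcon' : hh u ≤ -τ := not_lt.1 hcon
    have h1 : cut K (-u) τ ⊆ {x : E | inner ℝ x u = -τ} := by
      rintro x ⟨hx, hx2⟩
      have h3 : inner ℝ x (-u) ≤ τ := hx2
      rw [inner_neg_right] at h3
      have h4 := (hle u x hx).trans hcon'
      show inner ℝ x u = -τ
      linarith
    have h2 : volume (cut K (-u) τ) = 0 := measure_mono_null h1 (inball_null u hu _)
    have h3 := (h τ hτ (-u) (by rw [norm_neg]; exact hu)).1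
    rw [h2] at h3
    simp at h3
  obtain ⟨v, hv, hmin⟩ := (isCompact_sphere (0 : E) 1).exists_isMinOn
    (NormedSpace.sphere_nonempty.2 zero_le_one) hcont.continuousOn
  have hv1 : ‖v‖ = 1 := by simpa using hv
  have habs : ∀ τ ∈ T, |τ| < hh v := by
    intro τ hτ
    rw [abs_lt]
    have := hA τ hτ v hv1
    have := hB τ hτ v hv1
    constructor <;> linarith
  have hRpos : 0 < hh v := by
    obtain ⟨τ, hτ⟩ := hT
    exact lt_of_le_of_lt (abs_nonneg τ) (habs τ hτ)
  refine ⟨hh v, v, hRpos, hv1, ?_, fun x hx => hle v x hx, habs⟩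
  intro y hy
  rw [Metric.mem_closedBall, dist_zero_right] at hy
  by_contra hyK
  obtain ⟨f, s, hs1, hs2⟩ := geometric_hahn_banach_closed_point hc hK.isClosed hyK
  obtain ⟨w, hw⟩ : ∃ w : E, ∀ x, f x = inner ℝ w x := by
    refine ⟨(InnerProductSpace.toDual ℝ E).symm f, fun x => ?_⟩
    rw [InnerProductSpace.toDual_symm_apply]
  have hw0 : w ≠ 0 := by
    rintro rfl
    obtain ⟨x, hx⟩ := hKne
    have h1 := hs1 x hx
    rw [hw, inner_zero_left] at h1
    rw [hw, inner_zero_left] at hs2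
    linarith
  have hwn : 0 < ‖w‖ := norm_pos_iff.2 hw0
  have hu1 : ‖(‖w‖⁻¹ • w : E)‖ = 1 := by
    rw [norm_smul, norm_inv, norm_norm]
    field_simp
  have h5 : hh (‖w‖⁻¹ • w) ≤ ‖w‖⁻¹ * s := by
    rw [hhdef]
    apply csSup_le (hKne.image _)
    rintro _ ⟨x, hx, rfl⟩
    simp only
    rw [inner_smul_right, real_inner_comm, ← hw]
    exact mul_le_mul_of_nonneg_left (hs1 x hx).le (by positivity)
  have h6 : ‖w‖⁻¹ * s < ‖w‖⁻¹ * f y := mul_lt_mul_of_pos_left hs2 (by positivity)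
  have h7 : ‖w‖⁻¹ * f y ≤ ‖y‖ := by
    rw [hw]
    have h8 := real_inner_le_norm w y
    calc ‖w‖⁻¹ * inner ℝ w y ≤ ‖w‖⁻¹ * (‖w‖ * ‖y‖) := mul_le_mul_of_nonneg_left h8 (by positivity)
      _ = ‖y‖ := by field_simp
  have h8 : hh v ≤ hh (‖w‖⁻¹ • w) := hmin (by simpa using hu1)
  linarith


end FB.J_j10

alias FB.inball := FB.J_j10.inball
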