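import Pool.Agent.Helper240.FB.Defs

open Filter Topology Set MeasureTheory

namespace FB.J_j7










theorem cut_closed {K : Set E} (hK : IsClosed K) (u : E) (t : ℝ) : IsClosed (cut K u t) := by
  unfold cut
  apply hK.inter
  exact isClosed_le (by fun_prop) continuous_const

/-- TARGET 1 -/
theorem ball_cap (R t : ℝ) (u u' : E) (hu : ‖u‖ = 1) (hu' : ‖u'‖ = 1) :
    volume (cut (Metric.closedBall 0 R) u t) = volume (cut (Metric.closedBall 0 R) u' t) := by
  let L : E ≃ₗᵢ[ℝ] E := (Submodule.span ℝ {u - u'})ᗮ.reflection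
  have hL : L u = u' := Submodule.reflection_sub (hu.trans hu'.symm)
  have hpre : L ⁻¹' (cut (Metric.closedBall 0 R) u' t) = cut (Metric.closedBall 0 R) u t := by
    ext x
    simp only [cut, mem_preimage, mem_inter_iff, mem_setOf_eq, mem_closedBall_zero_iff]
    rw [L.norm_map, ← hL, L.inner_map_map]
  rw [← hpre]
  exact L.measurePreserving.measure_preimage
    (cut_closed Metric.isClosed_closedBall u' t).measurableSet.nullMeasurableSet

/-- TARGET 2 (`level sets` of a compact set and of the difference with a ball) -/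
theorem diff_cap (K : Set E) (hK : IsCompact K) (R τ : ℝ) (hR : Metric.closedBall 0 R ⊆ K)
    (a : ℝ) (ha : ∀ u : E, ‖u‖ = 1 → (volume (cut K u τ)).toReal = a) :
    ∃ a' : ℝ, ∀ u : E, ‖u‖ = 1 →
      (volume (cut (K \ Metric.closedBall 0 R) u τ)).toReal = a' := by
  let u0 : E := EuclideanSpace.single 0 1
  have hu0 : ‖u0‖ = 1 := by simp [u0]
  refine ⟨a - (volume (cut (Metric.closedBall 0 R) u0 τ)).toReal, fun u hu => ?_⟩
  have h1 : cut (K \ Metric.closedBall 0 R) u τ = cut K u τ \ cut (Metric.closedBall 0 R) u τ := by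
    ext x
    simp only [cut, mem_inter_iff, mem_diff, mem_setOf_eq]
    tauto
  have hsub : cut (Metric.closedBall 0 R) u τ ⊆ cut K u τ := inter_subset_inter_left _ hR
  have hfinK : volume (cut K u τ) ≠ ⊤ :=
    ((measure_mono inter_subset_left).trans_lt hK.measure_lt_top).ne
  have hfin : volume (cut (Metric.closedBall 0 R) u τ) ≠ ⊤ :=
    ((measure_mono hsub).trans_lt hfinK.lt_top).ne
  rw [h1, measure_diff hsub (cut_closed Metric.isClosed_closedBall u τ).measurableSet.nullMeasurableSet hfin,
    ENNReal.toReal_sub_of_le (measure_mono hsub) hfinK, ha u hu, ball_cap R τ u u0 hu hu0]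


end FB.J_j7

alias FB.ball_cap := FB.J_j7.ball_cap
alias FB.diff_cap := FB.J_j7.diff_cap
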