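import Pool.Agent.Helper240.FB.Defs

open Filter Topology Set MeasureTheory

namespace FB.J_j5










/-- (helper) half-plane polar map -/
noncomputable def TT (p : ℝ × ℝ) : ℝ × ℝ := (p.1 * p.2, p.1 * √(1 - p.2 ^ 2))

/-- (helper) its derivative -/
noncomputable def TTd (p : ℝ × ℝ) : ℝ × ℝ →L[ℝ] ℝ × ℝ :=
  (Matrix.toLin (.finTwoProd ℝ) (.finTwoProd ℝ)
    !![p.2, p.1; √(1 - p.2 ^ 2), p.1 * (-p.2 / √(1 - p.2 ^ 2))]).toContinuousLinearMap

theorem hasFDerivAt_TT (p : ℝ × ℝ) (hp : p.2 ∈ Ioo (-1 : ℝ) 1) :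
    HasFDerivAt TT (TTd p) p := by
  unfold TTd
  rw [Matrix.toLin_finTwoProd_toContinuousLinearMap]
  have hpos : 0 < 1 - p.2 ^ 2 := by nlinarith [hp.1, hp.2]
  have hs : HasDerivAt (fun c : ℝ => √(1 - c ^ 2)) (-p.2 / √(1 - p.2 ^ 2)) p.2 := by
    have h1 : HasDerivAt (fun c : ℝ => 1 - c ^ 2) (-(2 * p.2)) p.2 := by
      simpa using ((hasDerivAt_pow 2 p.2).const_sub 1)
    have h2 := h1.sqrt hpos.ne'
    have hsne : √(1 - p.2 ^ 2) ≠ 0 := (Real.sqrt_pos.mpr hpos).ne'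
    convert h2 using 1
    field_simp
  convert!
    HasFDerivAt.prodMk (𝕜 := ℝ)
      ((hasFDerivAt_fst (𝕜 := ℝ) (E := ℝ) (F := ℝ) (p := p)).mul (hasFDerivAt_snd (𝕜 := ℝ) (E := ℝ) (F := ℝ) (p := p)))
      (hasFDerivAt_fst.mul (hs.comp_hasFDerivAt p hasFDerivAt_snd)) using
    2 <;>
  simp [smul_smul, add_comm, neg_mul, smul_neg, neg_smul _ (ContinuousLinearMap.snd ℝ ℝ ℝ)]

theorem det_TTd (p : ℝ × ℝ) (hp : p.2 ∈ Ioo (-1 : ℝ) 1) :
    (TTd p).det = -(p.1 / √(1 - p.2 ^ 2)) := by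
  have hpos : 0 < 1 - p.2 ^ 2 := by nlinarith [hp.1, hp.2]
  have hsne : √(1 - p.2 ^ 2) ≠ 0 := (Real.sqrt_pos.mpr hpos).ne'
  have hsq : √(1 - p.2 ^ 2) ^ 2 = 1 - p.2 ^ 2 := Real.sq_sqrt hpos.le
  unfold TTd
  simp only [LinearMap.det_toContinuousLinearMap, LinearMap.det_toLin,
    Matrix.det_fin_two_of]
  field_simp
  rw [hsq]
  ring

theorem TT_inj : InjOn TT (Ioi (0 : ℝ) ×ˢ Ioo (-1 : ℝ) 1) := by
  rintro ⟨r, c⟩ ⟨hr, hc⟩ ⟨r', c'⟩ ⟨hr', hc'⟩ h
  simp only [TT, Prod.mk.injEq] at h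
  simp only [mem_Ioi, mem_Ioo] at hr hc hr' hc'
  obtain ⟨h1, h2⟩ := h
  have hsq : √(1 - c ^ 2) ^ 2 = 1 - c ^ 2 := Real.sq_sqrt (by nlinarith)
  have hsq' : √(1 - c' ^ 2) ^ 2 = 1 - c' ^ 2 := Real.sq_sqrt (by nlinarith)
  have e : r ^ 2 = r' ^ 2 := by
    have e1 : (r * c) ^ 2 + (r * √(1 - c ^ 2)) ^ 2 = r ^ 2 := by
      rw [mul_pow, mul_pow, hsq]; ring
    have e2 : (r' * c') ^ 2 + (r' * √(1 - c' ^ 2)) ^ 2 = r' ^ 2 := by
      rw [mul_pow, mul_pow, hsq']; ring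
    rw [← e1, ← e2, h1, h2]
  have er : r = r' := by
    exact (sq_eq_sq₀ hr.le hr'.le).mp e
  subst er
  have : c = c' := mul_left_cancel₀ hr.ne' h1
  rw [this]

theorem TT_image : TT '' (Ioi (0 : ℝ) ×ˢ Ioo (-1 : ℝ) 1) = univ ×ˢ Ioi (0 : ℝ) := by
  ext ⟨z, ρ⟩
  simp only [mem_image, mem_prod, mem_Ioi, mem_Ioo, mem_univ, true_and, Prod.exists, TT,
    Prod.mk.injEq]
  constructor
  · rintro ⟨r, c, ⟨hr, hc1, hc2⟩, -, h2⟩
    rw [← h2]
    exact mul_pos hr (Real.sqrt_pos.mpr (by nlinarith))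
  · intro hρ
    have hpos : 0 < z ^ 2 + ρ ^ 2 := by positivity
    have hr : 0 < √(z ^ 2 + ρ ^ 2) := Real.sqrt_pos.mpr hpos
    have hsq : √(z ^ 2 + ρ ^ 2) ^ 2 = z ^ 2 + ρ ^ 2 := Real.sq_sqrt hpos.le
    have hlt : |z| < √(z ^ 2 + ρ ^ 2) := by
      apply Real.lt_sqrt_of_sq_lt
      rw [sq_abs]
      nlinarith
    refine ⟨√(z ^ 2 + ρ ^ 2), z / √(z ^ 2 + ρ ^ 2), ⟨hr, ?_, ?_⟩, ?_, ?_⟩
    · rw [lt_div_iff₀ hr]
      linarith [(abs_lt.mp hlt).1]
    · rw [div_lt_one hr]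
      exact (abs_lt.mp hlt).2
    · field_simp
    · have e : 1 - (z / √(z ^ 2 + ρ ^ 2)) ^ 2 = (ρ / √(z ^ 2 + ρ ^ 2)) ^ 2 := by
        rw [div_pow, div_pow, hsq]
        field_simp
        ring
      rw [e, Real.sqrt_sq (by positivity)]
      field_simp

theorem cart (w e1 e2 : E) (hw : ‖w‖ = 1) (h1 : ‖e1‖ = 1) (h2 : ‖e2‖ = 1)
    (hw1 : inner ℝ w e1 = 0) (hw2 : inner ℝ w e2 = 0) (h12 : inner ℝ e1 e2 = 0)
    (F : E → ENNReal) (hF : Measurable F) :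
    ∫⁻ x, F x = ∫⁻ z : ℝ, ∫⁻ q : ℝ × ℝ, F (z • w + (q.1 • e1 + q.2 • e2)) := by
  have hw1' : inner ℝ e1 w = 0 := by rw [real_inner_comm]; exact hw1
  have hw2' : inner ℝ e2 w = 0 := by rw [real_inner_comm]; exact hw2
  have h12' : inner ℝ e2 e1 = 0 := by rw [real_inner_comm]; exact h12
  have hv : Orthonormal ℝ ![w, e1, e2] := by
    rw [orthonormal_iff_ite]
    intro i j
    fin_cases i <;> fin_cases j <;>
      simp [hw, h1, h2, hw1, hw2, h12, hw1', hw2', h12']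
  have hsp : ⊤ ≤ Submodule.span ℝ (Set.range ![w, e1, e2]) :=
    (hv.linearIndependent.span_eq_top_of_card_eq_finrank' (by simp)).ge
  set b : OrthonormalBasis (Fin 3) ℝ E := OrthonormalBasis.mk hv hsp with hb
  have hbc : ∀ i, b i = ![w, e1, e2] i := fun i => by rw [hb, OrthonormalBasis.coe_mk]
  have hmp : MeasurePreserving (fun y : Fin 3 → ℝ => b.repr.symm (WithLp.toLp 2 y)) :=
    b.measurePreserving_repr_symm.comp (PiLp.volume_preserving_toLp (Fin 3))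
  have hval : ∀ y : Fin 3 → ℝ, b.repr.symm (WithLp.toLp 2 y)
      = y 0 • w + (y 1 • e1 + y 2 • e2) := by
    intro y
    rw [← b.sum_repr_symm, Fin.sum_univ_three, hbc, hbc, hbc]
    simp [add_assoc]
  have hG : Measurable (fun y : Fin 3 → ℝ => F (y 0 • w + (y 1 • e1 + y 2 • e2))) := by
    apply hF.comp
    have : Continuous (fun y : Fin 3 → ℝ => (y 0 • w + (y 1 • e1 + y 2 • e2) : E)) := by
      fun_prop
    exact this.measurable
  have s1 : ∫⁻ x, F x = ∫⁻ y : Fin 3 → ℝ, F (y 0 • w + (y 1 • e1 + y 2 • e2)) := by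
    rw [← hmp.lintegral_comp hF]
    exact lintegral_congr fun y => by rw [hval]
  have hmp2 := (volume_preserving_piFinSuccAbove (fun _ : Fin 3 => ℝ) 0).symm
  have hH : Measurable (fun p : ℝ × (Fin 2 → ℝ) => F (p.1 • w + (p.2 0 • e1 + p.2 1 • e2))) := by
    apply hF.comp
    have : Continuous (fun p : ℝ × (Fin 2 → ℝ) =>
        (p.1 • w + (p.2 0 • e1 + p.2 1 • e2) : E)) := by
      fun_prop
    exact this.measurable
  have s2 : ∫⁻ y : Fin 3 → ℝ, F (y 0 • w + (y 1 • e1 + y 2 • e2))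
      = ∫⁻ p : ℝ × (Fin 2 → ℝ), F (p.1 • w + (p.2 0 • e1 + p.2 1 • e2)) := by
    rw [← hmp2.lintegral_comp hG]
    refine lintegral_congr fun p => ?_
    rfl
  have s3 : ∫⁻ p : ℝ × (Fin 2 → ℝ), F (p.1 • w + (p.2 0 • e1 + p.2 1 • e2))
      = ∫⁻ z : ℝ, ∫⁻ q : Fin 2 → ℝ, F (z • w + (q 0 • e1 + q 1 • e2)) := by
    rw [Measure.volume_eq_prod, lintegral_prod _ hH.aemeasurable]
  rw [s1, s2, s3]
  refine lintegral_congr fun z => ?_
  have hmp3 := (volume_preserving_finTwoArrow ℝ).symm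
  have hK : Measurable (fun q : Fin 2 → ℝ => F (z • w + (q 0 • e1 + q 1 • e2))) := by
    apply hF.comp
    have : Continuous (fun q : Fin 2 → ℝ => (z • w + (q 0 • e1 + q 1 • e2) : E)) := by
      fun_prop
    exact this.measurable
  rw [← hmp3.lintegral_comp hK]
  rfl

/-- TARGET: spherical coordinates (lower integral) -/
theorem spherical (w e1 e2 : E) (hw : ‖w‖ = 1) (h1 : ‖e1‖ = 1) (h2 : ‖e2‖ = 1)
    (hw1 : inner ℝ w e1 = 0) (hw2 : inner ℝ w e2 = 0) (h12 : inner ℝ e1 e2 = 0)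
    (F : E → ENNReal) (hF : Measurable F) :
    ∫⁻ x, F x = ∫⁻ r in Ioi (0 : ℝ), ∫⁻ c in Ioo (-1 : ℝ) 1, ∫⁻ φ in Ioo (-Real.pi) Real.pi,
      F (r • (c • w + √(1 - c ^ 2) • (Real.cos φ • e1 + Real.sin φ • e2))) *
        ENNReal.ofReal (r ^ 2) := by
  rw [cart w e1 e2 hw h1 h2 hw1 hw2 h12 F hF]
  set H : ℝ × ℝ → ENNReal := fun q => ∫⁻ φ in Ioo (-Real.pi) Real.pi,
    F (q.1 • w + q.2 • (Real.cos φ • e1 + Real.sin φ • e2)) with hH
  have hHm : Measurable H := by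
    apply Measurable.lintegral_prod_right'
      (f := fun p : (ℝ × ℝ) × ℝ =>
        F (p.1.1 • w + p.1.2 • (Real.cos p.2 • e1 + Real.sin p.2 • e2)))
    apply hF.comp
    have : Continuous (fun p : (ℝ × ℝ) × ℝ =>
        (p.1.1 • w + p.1.2 • (Real.cos p.2 • e1 + Real.sin p.2 • e2) : E)) := by
      fun_prop
    exact this.measurable
  -- step 1
  have s1 : ∀ z : ℝ, ∫⁻ q : ℝ × ℝ, F (z • w + (q.1 • e1 + q.2 • e2))
      = ∫⁻ ρ in Ioi (0 : ℝ), ENNReal.ofReal ρ * H (z, ρ) := by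
    intro z
    rw [← lintegral_comp_polarCoord_symm]
    have ht : polarCoord.target = Ioi (0 : ℝ) ×ˢ Ioo (-Real.pi) Real.pi := rfl
    rw [ht, Measure.volume_eq_prod, ← Measure.prod_restrict, lintegral_prod]
    · refine lintegral_congr fun ρ => ?_
      rw [hH]
      dsimp only
      rw [← lintegral_const_mul]
      · refine lintegral_congr fun φ => ?_
        rw [polarCoord_symm_apply, smul_eq_mul]
        simp only [smul_add, smul_smul]
      · apply hF.comp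
        have : Continuous (fun φ : ℝ =>
            (z • w + ρ • (Real.cos φ • e1 + Real.sin φ • e2) : E)) := by
          fun_prop
        exact this.measurable
    · apply Measurable.aemeasurable
      simp only [smul_eq_mul]
      apply Measurable.mul
      · exact ENNReal.measurable_ofReal.comp measurable_fst
      · apply hF.comp
        have : Continuous (fun p : ℝ × ℝ =>
            (z • w + ((polarCoord.symm p).1 • e1 + (polarCoord.symm p).2 • e2) : E)) := by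
          have hc := continuous_polarCoord_symm
          fun_prop
        exact this.measurable
  have hGm : Measurable (fun q : ℝ × ℝ => ENNReal.ofReal q.2 * H q) :=
    (ENNReal.measurable_ofReal.comp measurable_snd).mul hHm
  have s2 : ∫⁻ z : ℝ, ∫⁻ ρ in Ioi (0 : ℝ), ENNReal.ofReal ρ * H (z, ρ)
      = ∫⁻ q in (univ ×ˢ Ioi (0 : ℝ) : Set (ℝ × ℝ)), ENNReal.ofReal q.2 * H q := by
    rw [Measure.volume_eq_prod, ← Measure.prod_restrict, lintegral_prod _ hGm.aemeasurable,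
      Measure.restrict_univ]
  have hms : MeasurableSet (Ioi (0 : ℝ) ×ˢ Ioo (-1 : ℝ) 1) :=
    measurableSet_Ioi.prod measurableSet_Ioo
  have s3 : ∫⁻ q in (univ ×ˢ Ioi (0 : ℝ) : Set (ℝ × ℝ)), ENNReal.ofReal q.2 * H q
      = ∫⁻ p in Ioi (0 : ℝ) ×ˢ Ioo (-1 : ℝ) 1, ENNReal.ofReal (p.1 ^ 2) * H (TT p) := by
    rw [← TT_image, lintegral_image_eq_lintegral_abs_det_fderiv_mul volume hms
      (fun p hp => (hasFDerivAt_TT p hp.2).hasFDerivWithinAt) TT_inj]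
    refine setLIntegral_congr_fun hms fun p hp => ?_
    have hp1 : 0 < p.1 := hp.1
    have hp2 : p.2 ∈ Ioo (-1 : ℝ) 1 := hp.2
    have hpos : 0 < 1 - p.2 ^ 2 := by nlinarith [hp2.1, hp2.2]
    have hs : 0 < √(1 - p.2 ^ 2) := Real.sqrt_pos.mpr hpos
    rw [det_TTd p hp2, abs_neg, abs_of_pos (by positivity), ← mul_assoc,
      ← ENNReal.ofReal_mul (by positivity)]
    congr 2
    simp only [TT]
    field_simp
  have hKm : Measurable (fun p : ℝ × ℝ => ENNReal.ofReal (p.1 ^ 2) * H (TT p)) := by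
    apply Measurable.mul
    · exact ENNReal.measurable_ofReal.comp (measurable_fst.pow_const 2)
    · apply hHm.comp
      unfold TT
      fun_prop
  have s4 : ∫⁻ p in Ioi (0 : ℝ) ×ˢ Ioo (-1 : ℝ) 1, ENNReal.ofReal (p.1 ^ 2) * H (TT p)
      = ∫⁻ r in Ioi (0 : ℝ), ∫⁻ c in Ioo (-1 : ℝ) 1, ENNReal.ofReal (r ^ 2) * H (TT (r, c)) := by
    rw [Measure.volume_eq_prod, ← Measure.prod_restrict, lintegral_prod _ hKm.aemeasurable]
  rw [lintegral_congr s1, s2, s3, s4]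
  refine lintegral_congr fun r => lintegral_congr fun c => ?_
  rw [mul_comm, hH]
  dsimp only
  rw [← lintegral_mul_const]
  · refine lintegral_congr fun φ => ?_
    simp only [TT, smul_add, smul_smul, mul_assoc]
  · apply hF.comp
    have : Continuous (fun φ : ℝ =>
        ((TT (r, c)).1 • w + (TT (r, c)).2 • (Real.cos φ • e1 + Real.sin φ • e2) : E)) := by
      fun_prop
    exact this.measurable


end FB.J_j5

alias FB.spherical := FB.J_j5.spherical
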