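import Pool.Agent.Helper240.FB.Defs
import Pool.Agent.Helper240.FB.J5

open Filter Topology Set MeasureTheory

namespace FB.J_j6












noncomputable def Phi (w e1 e2 : E) (p : ℝ × ℝ × ℝ) : E :=
  p.1 • (p.2.1 • w + √(1 - p.2.1 ^ 2) • (Real.cos p.2.2 • e1 + Real.sin p.2.2 • e2))

theorem Phi_meas (w e1 e2 : E) : Measurable (Phi w e1 e2) := by
  unfold Phi
  apply Continuous.measurable
  fun_prop

noncomputable abbrev mu1 : Measure ℝ :=
  ((volume : Measure ℝ).restrict (Ioi (0:ℝ))).withDensity (fun r => ENNReal.ofReal (r^2))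

noncomputable abbrev mu2 : Measure (ℝ × ℝ) :=
  ((volume : Measure ℝ).restrict (Ioo (-1:ℝ) 1)).prod
    ((volume : Measure ℝ).restrict (Ioo (-Real.pi) Real.pi))

theorem vol_eq (w e1 e2 : E) (hw : ‖w‖ = 1) (h1 : ‖e1‖ = 1) (h2 : ‖e2‖ = 1)
    (hw1 : inner ℝ w e1 = 0) (hw2 : inner ℝ w e2 = 0) (h12 : inner ℝ e1 e2 = 0) :
    (volume : Measure E) = (mu1.prod mu2).map (Phi w e1 e2) := by
  refine Measure.ext fun A hA => ?_
  have hP := Phi_meas w e1 e2
  rw [Measure.map_apply hP hA]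
  have hF : Measurable (A.indicator (1 : E → ENNReal)) := measurable_one.indicator hA
  have hG : Measurable (((Phi w e1 e2) ⁻¹' A).indicator (1 : ℝ × ℝ × ℝ → ENNReal)) :=
    measurable_one.indicator (hP hA)
  rw [← lintegral_indicator_one hA, ← lintegral_indicator_one (hP hA)]
  rw [spherical w e1 e2 hw h1 h2 hw1 hw2 h12 _ hF]
  rw [lintegral_prod _ hG.aemeasurable]
  rw [lintegral_withDensity_eq_lintegral_mul _ (by fun_prop) (hG.lintegral_prod_right')]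
  apply lintegral_congr
  intro r
  have hGr : Measurable (fun q : ℝ × ℝ => ((Phi w e1 e2) ⁻¹' A).indicator (1 : ℝ × ℝ × ℝ → ENNReal) (r, q)) :=
    hG.comp measurable_prodMk_left
  simp only [Pi.mul_apply]
  rw [lintegral_prod _ hGr.aemeasurable, ← lintegral_const_mul _ (hGr.lintegral_prod_right')]
  apply lintegral_congr
  intro c
  have hGc : Measurable (fun φ : ℝ => ((Phi w e1 e2) ⁻¹' A).indicator (1 : ℝ × ℝ × ℝ → ENNReal) (r, c, φ)) :=
    hGr.comp measurable_prodMk_left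
  rw [← lintegral_const_mul _ hGc]
  apply lintegral_congr
  intro φ
  rw [mul_comm]
  rfl

theorem int_eq (w e1 e2 : E) (hw : ‖w‖ = 1) (h1 : ‖e1‖ = 1) (h2 : ‖e2‖ = 1)
    (hw1 : inner ℝ w e1 = 0) (hw2 : inner ℝ w e2 = 0) (h12 : inner ℝ e1 e2 = 0)
    (f : E → ℝ) (hf : Measurable f) :
    ∫ y, f y = ∫ p, f (Phi w e1 e2 p) ∂(mu1.prod mu2) := by
  have h := vol_eq w e1 e2 hw h1 h2 hw1 hw2 h12
  calc ∫ y, f y = ∫ y, f y ∂((mu1.prod mu2).map (Phi w e1 e2)) := by rw [← h]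
    _ = _ := integral_map (Phi_meas w e1 e2).aemeasurable hf.aestronglyMeasurable

theorem int_r (m : ℕ) : ∫ r, (Iic (1:ℝ)).indicator (fun r => r ^ m) r ∂mu1 = 1 / ((m:ℝ) + 3) := by
  have h0 : mu1 = ((volume : Measure ℝ).restrict (Ioi (0:ℝ))).withDensity
      (fun r => ((Real.toNNReal (r^2) : NNReal) : ENNReal)) := rfl
  rw [h0, integral_withDensity_eq_integral_smul (by fun_prop)]
  have h1 : ∫ (a : ℝ) in Ioi 0, (a ^ 2).toNNReal • (Iic (1:ℝ)).indicator (fun r => r ^ m) a =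
      ∫ a in Ioi (0:ℝ), (Iic (1:ℝ)).indicator (fun r => r ^ (m+2)) a := by
    apply integral_congr_ae
    refine Filter.Eventually.of_forall fun r => ?_
    simp only [NNReal.smul_def, Real.coe_toNNReal _ (sq_nonneg r), smul_eq_mul]
    by_cases hr : r ∈ Iic (1:ℝ)
    · rw [Set.indicator_of_mem hr, Set.indicator_of_mem hr]; ring
    · rw [Set.indicator_of_notMem hr, Set.indicator_of_notMem hr]; ring
  rw [h1, setIntegral_indicator measurableSet_Iic]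
  have h2 : Ioi (0:ℝ) ∩ Iic 1 = Ioc 0 1 := rfl
  rw [h2, ← intervalIntegral.integral_of_le zero_le_one, integral_pow]
  push_cast
  simp
  norm_num [add_assoc]

theorem ex_orth (a b : E) : ∃ e : E, ‖e‖ = 1 ∧ inner ℝ a e = 0 ∧ inner ℝ b e = 0 := by
  let f : E →ₗ[ℝ] ℝ × ℝ := (innerSL ℝ a : E →L[ℝ] ℝ).toLinearMap.prod (innerSL ℝ b : E →L[ℝ] ℝ).toLinearMap
  have hk : LinearMap.ker f ≠ ⊥ := by
    apply LinearMap.ker_ne_bot_of_finrank_lt
    simp
  obtain ⟨x, hx, hx0⟩ := Submodule.exists_mem_ne_zero_of_ne_bot hk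
  have hx' : inner ℝ a x = 0 ∧ inner ℝ b x = 0 := by
    rw [LinearMap.mem_ker] at hx
    have := Prod.ext_iff.1 hx
    simpa [f] using this
  refine ⟨‖x‖⁻¹ • x, ?_, ?_, ?_⟩
  · rw [norm_smul, norm_inv, norm_norm, inv_mul_cancel₀ (norm_ne_zero_iff.2 hx0)]
  · rw [inner_smul_right, hx'.1, mul_zero]
  · rw [inner_smul_right, hx'.2, mul_zero]

theorem ex_frame (w v : E) (hw : ‖w‖ = 1) (hv : ‖v‖ = 1) : ∃ e1 e2 : E, ‖e1‖ = 1 ∧ ‖e2‖ = 1 ∧
    inner ℝ w e1 = 0 ∧ inner ℝ w e2 = 0 ∧ inner ℝ e1 e2 = 0 ∧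
    v = (inner ℝ w v) • w + √(1 - (inner ℝ w v)^2) • e1 := by
  set c0 : ℝ := inner ℝ w v with hc0
  have hww : inner ℝ w w = (1:ℝ) := by rw [real_inner_self_eq_norm_sq, hw]; norm_num
  have hvv : inner ℝ v v = (1:ℝ) := by rw [real_inner_self_eq_norm_sq, hv]; norm_num
  have hvw : inner ℝ v w = c0 := by rw [real_inner_comm]
  have hn : ‖v - c0 • w‖ ^ 2 = 1 - c0 ^ 2 := by
    rw [← real_inner_self_eq_norm_sq, inner_sub_left, inner_sub_right, inner_sub_right,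
      inner_smul_left, inner_smul_right, inner_smul_left, inner_smul_right, hww, hvv, hvw, ← hc0]
    simp; ring
  have hn' : √(1 - c0^2) = ‖v - c0 • w‖ := by
    rw [← hn]; exact Real.sqrt_sq (norm_nonneg _)
  by_cases hz : v - c0 • w = 0
  · obtain ⟨e1, h1, hw1, -⟩ := ex_orth w w
    obtain ⟨e2, h2, hw2, h12⟩ := ex_orth w e1
    refine ⟨e1, e2, h1, h2, hw1, hw2, h12, ?_⟩
    rw [hn', hz]
    simp only [norm_zero, zero_smul, add_zero]
    exact sub_eq_zero.1 hz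
  · have hnz : ‖v - c0 • w‖ ≠ 0 := norm_ne_zero_iff.2 hz
    obtain ⟨e2, h2, hw2, h12⟩ := ex_orth w (‖v - c0 • w‖⁻¹ • (v - c0 • w))
    refine ⟨‖v - c0 • w‖⁻¹ • (v - c0 • w), e2, ?_, h2, ?_, hw2, h12, ?_⟩
    · rw [norm_smul, norm_inv, norm_norm, inv_mul_cancel₀ hnz]
    · rw [inner_smul_right, inner_sub_right, inner_smul_right, hww, ← hc0]; ring
    · rw [hn', smul_smul, mul_inv_cancel₀ hnz, one_smul]; abel

theorem unit_q (w e1 e2 : E) (hw : ‖w‖ = 1) (h1 : ‖e1‖ = 1) (h2 : ‖e2‖ = 1)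
    (hw1 : inner ℝ w e1 = 0) (hw2 : inner ℝ w e2 = 0) (h12 : inner ℝ e1 e2 = 0)
    (c φ : ℝ) (hc : c ^ 2 ≤ 1) :
    ‖c • w + √(1 - c ^ 2) • (Real.cos φ • e1 + Real.sin φ • e2)‖ = 1 ∧
    inner ℝ (c • w + √(1 - c ^ 2) • (Real.cos φ • e1 + Real.sin φ • e2)) w = c ∧
    inner ℝ (c • w + √(1 - c ^ 2) • (Real.cos φ • e1 + Real.sin φ • e2)) e1 =
      √(1 - c ^ 2) * Real.cos φ := by
  have hww : inner ℝ w w = (1:ℝ) := by rw [real_inner_self_eq_norm_sq, hw]; norm_num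
  have h11 : inner ℝ e1 e1 = (1:ℝ) := by rw [real_inner_self_eq_norm_sq, h1]; norm_num
  have h22 : inner ℝ e2 e2 = (1:ℝ) := by rw [real_inner_self_eq_norm_sq, h2]; norm_num
  have hw1' : inner ℝ e1 w = (0:ℝ) := by rw [real_inner_comm]; exact hw1
  have hw2' : inner ℝ e2 w = (0:ℝ) := by rw [real_inner_comm]; exact hw2
  have h12' : inner ℝ e2 e1 = (0:ℝ) := by rw [real_inner_comm]; exact h12
  have hS : √(1 - c^2) ^ 2 = 1 - c ^ 2 := Real.sq_sqrt (by linarith)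
  have hcs := Real.sin_sq_add_cos_sq φ
  refine ⟨?_, ?_, ?_⟩
  · have : ‖c • w + √(1 - c ^ 2) • (Real.cos φ • e1 + Real.sin φ • e2)‖ ^ 2 = 1 := by
      rw [← real_inner_self_eq_norm_sq]
      simp only [inner_add_left, inner_add_right, real_inner_smul_left, real_inner_smul_right, hww, h11,
        h22, hw1, hw2, h12, hw1', hw2', h12']
      linear_combination hS + √(1 - c^2) ^ 2 * hcs
    nlinarith [norm_nonneg (c • w + √(1 - c ^ 2) • (Real.cos φ • e1 + Real.sin φ • e2))]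
  · simp only [inner_add_left, real_inner_smul_left, hww, hw1', hw2']
    ring
  · simp only [inner_add_left, real_inner_smul_left, hw1, h11, h12']
    ring

theorem core (w v : E) (hw : ‖w‖ = 1) (hv : ‖v‖ = 1) (m : ℕ) (s : ℝ) (hs : s ∈ Icc (-1 : ℝ) 1) :
    ∫ y in Metric.closedBall (0 : E) 1 ∩ {y | inner ℝ y w ≤ s * ‖y‖}, (inner ℝ y v) ^ m =
      1 / ((m:ℝ) + 3) * ∫ c in (-1:ℝ)..s, ∫ φ in (-Real.pi)..Real.pi,
        (c * inner ℝ w v + √(1 - c ^ 2) * √(1 - (inner ℝ w v) ^ 2) * Real.cos φ) ^ m := by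
  obtain ⟨e1, e2, h1, h2, hw1, hw2, h12, hve⟩ := ex_frame w v hw hv
  have hc01 : |(inner ℝ w v : ℝ)| ≤ 1 := by
    have := abs_real_inner_le_norm w v
    rw [hw, hv] at this; simpa using this
  set c0 : ℝ := inner ℝ w v with hc0
  set G : ℝ → ℝ → ℝ := fun c φ => (c * c0 + √(1 - c ^ 2) * √(1 - c0 ^ 2) * Real.cos φ) ^ m with hG
  have hGcont : Continuous (fun q : ℝ × ℝ => G q.1 q.2) := by
    simp only [hG]; fun_prop
  have hR : MeasurableSet (Metric.closedBall (0 : E) 1 ∩ {y | inner ℝ y w ≤ s * ‖y‖}) := by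
    refine Metric.isClosed_closedBall.measurableSet.inter ?_
    exact (isClosed_le (by fun_prop) (by fun_prop)).measurableSet
  have hfm : Measurable ((Metric.closedBall (0 : E) 1 ∩ {y | inner ℝ y w ≤ s * ‖y‖}).indicator
      (fun y : E => (inner ℝ y v) ^ m)) := by
    refine Measurable.indicator ?_ hR
    exact (by fun_prop : Continuous (fun y : E => (inner ℝ y v : ℝ) ^ m)).measurable
  rw [← integral_indicator hR, int_eq w e1 e2 hw h1 h2 hw1 hw2 h12 _ hfm]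
  have haer : ∀ᵐ r ∂mu1, r ∈ Ioi (0:ℝ) :=
    (withDensity_absolutelyContinuous _ _).ae_le (ae_restrict_mem measurableSet_Ioi)
  have haec : ∀ᵐ c ∂((volume : Measure ℝ).restrict (Ioo (-1:ℝ) 1)), c ∈ Ioo (-1:ℝ) 1 :=
    ae_restrict_mem measurableSet_Ioo
  have haeq : ∀ᵐ q ∂mu2, q.1 ∈ Ioo (-1:ℝ) 1 :=
    Measure.quasiMeasurePreserving_fst.ae haec
  have hae : (fun p => (Metric.closedBall (0 : E) 1 ∩ {y | inner ℝ y w ≤ s * ‖y‖}).indicator
      (fun y : E => (inner ℝ y v) ^ m) (Phi w e1 e2 p)) =ᵐ[mu1.prod mu2]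
      fun p => (Iic (1:ℝ)).indicator (fun r => r ^ m) p.1 *
        (if p.2.1 ≤ s then G p.2.1 p.2.2 else 0) := by
    have hA1 : ∀ᵐ p ∂(mu1.prod mu2), p.1 ∈ Ioi (0:ℝ) :=
      Measure.quasiMeasurePreserving_fst.ae haer
    have hA2 : ∀ᵐ p ∂(mu1.prod mu2), p.2.1 ∈ Ioo (-1:ℝ) 1 :=
      Measure.quasiMeasurePreserving_snd.ae haeq
    filter_upwards [hA1, hA2] with p hp1 hp2
    obtain ⟨r, c, φ⟩ := p
    simp only [Set.mem_Ioi, Set.mem_Ioo] at hp1 hp2
    have hc : c ^ 2 ≤ 1 := by nlinarith [hp2.1, hp2.2]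
    obtain ⟨hq1, hq2, hq3⟩ := unit_q w e1 e2 hw h1 h2 hw1 hw2 h12 c φ hc
    have hPn : ‖Phi w e1 e2 (r, c, φ)‖ = r := by
      show ‖r • (c • w + √(1 - c ^ 2) • (Real.cos φ • e1 + Real.sin φ • e2))‖ = r
      rw [norm_smul, hq1, mul_one, Real.norm_of_nonneg hp1.le]
    have hPw : inner ℝ (Phi w e1 e2 (r, c, φ)) w = r * c := by
      show inner ℝ (r • (c • w + √(1 - c ^ 2) • (Real.cos φ • e1 + Real.sin φ • e2))) w = r * c
      rw [real_inner_smul_left, hq2]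
    have hPv : inner ℝ (Phi w e1 e2 (r, c, φ)) v =
        r * (c * c0 + √(1 - c ^ 2) * √(1 - c0 ^ 2) * Real.cos φ) := by
      show inner ℝ (r • (c • w + √(1 - c ^ 2) • (Real.cos φ • e1 + Real.sin φ • e2))) v = _
      rw [real_inner_smul_left, hve, inner_add_right, real_inner_smul_right, real_inner_smul_right,
        hq2, hq3]
      ring
    have hmem : Phi w e1 e2 (r, c, φ) ∈ (Metric.closedBall (0 : E) 1 ∩ {y | inner ℝ y w ≤ s * ‖y‖}) ↔
        (r ≤ 1 ∧ c ≤ s) := by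
      rw [Set.mem_inter_iff, Metric.mem_closedBall, dist_zero_right, hPn]
      show (r ≤ 1 ∧ inner ℝ (Phi w e1 e2 (r, c, φ)) w ≤ s * ‖Phi w e1 e2 (r, c, φ)‖) ↔ _
      rw [hPn, hPw]
      constructor
      · rintro ⟨a1, a2⟩
        exact ⟨a1, by nlinarith⟩
      · rintro ⟨a1, a2⟩
        exact ⟨a1, by nlinarith⟩
    by_cases hr : r ≤ 1
    · by_cases hcs : c ≤ s
      · rw [Set.indicator_of_mem (hmem.2 ⟨hr, hcs⟩), Set.indicator_of_mem (show r ∈ Iic (1:ℝ) from hr),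
          if_pos hcs, hPv, mul_pow]
      · rw [Set.indicator_of_notMem (fun h => hcs (hmem.1 h).2), if_neg hcs, mul_zero]
    · rw [Set.indicator_of_notMem (fun h => hr (hmem.1 h).1),
        Set.indicator_of_notMem (show r ∉ Iic (1:ℝ) from hr), zero_mul]
  rw [integral_congr_ae hae,
    integral_prod_mul (fun r => (Iic (1:ℝ)).indicator (fun r => r ^ m) r)
      (fun q : ℝ × ℝ => if q.1 ≤ s then G q.1 q.2 else 0), int_r]
  congr 1
  have hint : Integrable (fun q : ℝ × ℝ => if q.1 ≤ s then G q.1 q.2 else 0) mu2 := by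
    refine Integrable.of_bound (C := 2 ^ m) ?_ ?_
    · apply Measurable.aestronglyMeasurable
      exact Measurable.ite (measurableSet_le measurable_fst measurable_const) hGcont.measurable
        measurable_const
    · filter_upwards [haeq] with q hq
      by_cases hqs : q.1 ≤ s
      · rw [if_pos hqs]
        simp only [hG, norm_pow, Real.norm_eq_abs]
        apply pow_le_pow_left₀ (abs_nonneg _)
        have b1 : |q.1| ≤ 1 := abs_le.2 ⟨hq.1.le, hq.2.le⟩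
        have b2 : √(1 - q.1 ^ 2) ≤ 1 := Real.sqrt_le_one.2 (by nlinarith [sq_nonneg q.1])
        have b3 : √(1 - c0 ^ 2) ≤ 1 := Real.sqrt_le_one.2 (by nlinarith [sq_nonneg c0])
        have b4 : |Real.cos q.2| ≤ 1 := Real.abs_cos_le_one _
        calc |q.1 * c0 + √(1 - q.1 ^ 2) * √(1 - c0 ^ 2) * Real.cos q.2|
            ≤ |q.1 * c0| + |√(1 - q.1 ^ 2) * √(1 - c0 ^ 2) * Real.cos q.2| := abs_add_le _ _
          _ = |q.1| * |c0| + √(1 - q.1 ^ 2) * √(1 - c0 ^ 2) * |Real.cos q.2| := by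
              rw [abs_mul, abs_mul, abs_mul, abs_of_nonneg (Real.sqrt_nonneg _),
                abs_of_nonneg (Real.sqrt_nonneg _)]
          _ ≤ 1 * 1 + 1 * 1 * 1 := by gcongr
          _ = 2 := by norm_num
      · rw [if_neg hqs]; simp
  rw [integral_prod _ hint]
  have hpi : -Real.pi ≤ Real.pi := by linarith [Real.pi_pos]
  have hin : ∀ c : ℝ, ∫ φ in Ioo (-Real.pi) Real.pi, (if c ≤ s then G c φ else 0) =
      (Iic s).indicator (fun c => ∫ φ in (-Real.pi)..Real.pi, G c φ) c := by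
    intro c
    by_cases hcs : c ≤ s
    · rw [Set.indicator_of_mem (show c ∈ Iic s from hcs)]
      simp only [if_pos hcs]
      rw [intervalIntegral.integral_of_le hpi, integral_Ioc_eq_integral_Ioo]
    · rw [Set.indicator_of_notMem (show c ∉ Iic s from hcs)]
      simp only [if_neg hcs]
      simp
  simp only [hin]
  rw [← integral_Ioc_eq_integral_Ioo, setIntegral_indicator measurableSet_Iic]
  have hset : Ioc (-1:ℝ) 1 ∩ Iic s = Ioc (-1) s := by
    ext x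
    simp only [Set.mem_inter_iff, Set.mem_Ioc, Set.mem_Iic]
    constructor
    · rintro ⟨⟨a1, a2⟩, a3⟩; exact ⟨a1, a3⟩
    · rintro ⟨a1, a3⟩; exact ⟨⟨a1, a3.trans hs.2⟩, a3⟩
  rw [hset, ← intervalIntegral.integral_of_le hs.1]

theorem J_even (l : ℕ) : ∫ φ in (-Real.pi)..Real.pi, Real.cos φ ^ (2*l) =
    2 * Real.pi * ((Nat.centralBinom l : ℝ) / 4 ^ l) := by
  induction l with
  | zero => simp; ring
  | succ l ih =>
    rw [show 2*(l+1) = 2*l+2 by ring, integral_cos_pow, ih]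
    have hcb := Nat.succ_mul_centralBinom_succ l
    have h2 : ((l:ℝ)+1) * (Nat.centralBinom (l+1) : ℝ) = 2*(2*l+1)*(Nat.centralBinom l : ℝ) := by
      exact_mod_cast hcb
    have h3 : (Nat.centralBinom (l+1) : ℝ) = 2*(2*l+1)*(Nat.centralBinom l : ℝ) / (l+1) := by
      field_simp; linarith
    rw [h3]
    simp only [Real.sin_pi, Real.sin_neg, neg_zero, mul_zero, sub_zero, zero_div, zero_add]
    push_cast
    have h4 : (2:ℝ) * l + 2 ≠ 0 := by positivity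
    rw [pow_succ]
    field_simp
    ring

theorem J_odd (l : ℕ) : ∫ φ in (-Real.pi)..Real.pi, Real.cos φ ^ (2*l+1) = 0 := by
  induction l with
  | zero => simp
  | succ l ih =>
    rw [show 2*(l+1)+1 = (2*l+1)+2 by ring, integral_cos_pow, ih]
    simp only [Real.sin_pi, Real.sin_neg, neg_zero, mul_zero, sub_zero, zero_div, zero_add]

theorem sum_even (f : ℕ → ℝ) (hf : ∀ l, f (2*l+1) = 0) (j : ℕ) :
    ∑ i ∈ Finset.range (2*j+1), f i = ∑ l ∈ Finset.range (j+1), f (2*l) := by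
  induction j with
  | zero => simp
  | succ j ih =>
    rw [show 2*(j+1)+1 = (2*j+1)+1+1 by ring, Finset.sum_range_succ, Finset.sum_range_succ, ih, hf,
      Finset.sum_range_succ _ (j+1)]
    rw [show 2*j+1+1 = 2*(j+1) by ring]
    ring

theorem inner_int (A B : ℝ) (j ε : ℕ) (hε : ε = 0 ∨ ε = 1) :
    ∫ φ in (-Real.pi)..Real.pi, (B + A * Real.cos φ) ^ (2*j+ε) =
      ∑ l ∈ Finset.range (j+1), A ^ (2*l) * B ^ (2*j+ε-2*l) * ((2*j+ε).choose (2*l) : ℝ) *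
        (2 * Real.pi * ((Nat.centralBinom l : ℝ) / 4 ^ l)) := by
  have h1 : ∀ φ : ℝ, (B + A * Real.cos φ) ^ (2*j+ε) =
      ∑ i ∈ Finset.range (2*j+ε+1), A ^ i * B ^ (2*j+ε-i) * ((2*j+ε).choose i : ℝ) * Real.cos φ ^ i := by
    intro φ
    rw [add_comm B, add_pow]
    apply Finset.sum_congr rfl
    intro i _
    rw [mul_pow]; ring
  simp_rw [h1]
  rw [intervalIntegral.integral_finset_sum (fun i _ => (by fun_prop : Continuous (fun φ : ℝ => A ^ i * B ^ (2*j+ε-i) * ((2*j+ε).choose i : ℝ) * Real.cos φ ^ i)).intervalIntegrable _ _)]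
  simp_rw [intervalIntegral.integral_const_mul]
  have hodd : ∀ l, A ^ (2*l+1) * B ^ (2*j+ε-(2*l+1)) * ((2*j+ε).choose (2*l+1) : ℝ) *
      ∫ φ in (-Real.pi)..Real.pi, Real.cos φ ^ (2*l+1) = 0 := by
    intro l; rw [J_odd, mul_zero]
  have h2 := sum_even (fun i => A ^ i * B ^ (2*j+ε-i) * ((2*j+ε).choose i : ℝ) *
      ∫ φ in (-Real.pi)..Real.pi, Real.cos φ ^ i) hodd j
  simp only [J_even] at h2
  rcases hε with rfl | rfl
  · exact h2
  · rw [Finset.sum_range_succ, hodd, add_zero]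
    exact h2

open Polynomial in
noncomputable def al (j ε l : ℕ) : Polynomial ℝ :=
  C (((2*j+ε).choose (2*l) : ℝ) * (2 * Real.pi * ((Nat.centralBinom l : ℝ) / 4 ^ l)) /
    (((2*j+ε : ℕ) : ℝ) + 3)) * (X ^ (2*j+ε-2*l) * (1 - X ^ 2) ^ l)

open Polynomial in
noncomputable def QQ (j ε : ℕ) : Polynomial (Polynomial ℝ) :=
  X ^ ε * ∑ l ∈ Finset.range (j+1), C (al j ε l) * (X ^ (2*j-2*l) * (1 - X ^ 2) ^ l)

open Polynomial in
theorem QQ_eval (j ε : ℕ) (c0 c : ℝ) (hc : c ^ 2 ≤ 1) (hc0 : c0 ^ 2 ≤ 1) (hε : ε = 0 ∨ ε = 1) :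
    ((QQ j ε).map (evalRingHom c0)).eval c = 1 / (((2*j+ε : ℕ) : ℝ) + 3) *
      ∫ φ in (-Real.pi)..Real.pi, (c * c0 + √(1 - c ^ 2) * √(1 - c0 ^ 2) * Real.cos φ) ^ (2*j+ε) := by
  rw [inner_int _ _ _ _ hε]
  unfold QQ
  rw [Polynomial.map_mul, Polynomial.map_sum, eval_mul, eval_finset_sum, Finset.mul_sum, Finset.mul_sum]
  apply Finset.sum_congr rfl
  intro l hl
  have hl' : l ≤ j := Nat.lt_succ_iff.1 (Finset.mem_range.1 hl)
  have hA : (√(1 - c ^ 2) * √(1 - c0 ^ 2)) ^ (2*l) = (1 - c^2) ^ l * (1 - c0^2) ^ l := by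
    rw [pow_mul, mul_pow, Real.sq_sqrt (by linarith), Real.sq_sqrt (by linarith), mul_pow]
  have hB : (c * c0) ^ (2*j+ε-2*l) = c ^ ε * c ^ (2*j-2*l) * c0 ^ (2*j+ε-2*l) := by
    rw [mul_pow, ← pow_add]
    congr 2
    omega
  rw [hA, hB]
  unfold al
  simp only [Polynomial.map_mul, Polynomial.map_pow, map_X, map_C, Polynomial.map_sub,
    Polynomial.map_one, eval_mul, eval_pow, eval_X, eval_C, eval_sub, eval_one, coe_evalRingHom]
  ring

open Polynomial in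
theorem int_poly (Q : Polynomial (Polynomial ℝ)) : ∃ (n : ℕ) (α : ℕ → Polynomial ℝ),
    (∀ k, α (k+1) = C (1 / ((k:ℝ)+1)) * Q.coeff k) ∧
    ∀ c0 s : ℝ, ∫ c in (-1:ℝ)..s, (Q.map (evalRingHom c0)).eval c =
      ∑ i ∈ Finset.range n, (α i).eval c0 * s ^ i := by
  refine ⟨Q.natDegree + 1 + 1, fun i => Nat.casesOn i
    (∑ k ∈ Finset.range (Q.natDegree+1), C (-(-1)^(k+1) / ((k:ℝ)+1)) * Q.coeff k)
    (fun k => C (1 / ((k:ℝ)+1)) * Q.coeff k), fun k => rfl, ?_⟩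
  intro c0 s
  have h1 : ∀ c : ℝ, (Q.map (evalRingHom c0)).eval c =
      ∑ k ∈ Finset.range (Q.natDegree+1), (Q.coeff k).eval c0 * c ^ k := by
    intro c
    rw [eval_eq_sum_range' (n := Q.natDegree + 1)]
    · simp only [coeff_map, coe_evalRingHom]
    · exact Nat.lt_succ_of_le natDegree_map_le
  simp_rw [h1]
  rw [intervalIntegral.integral_finset_sum (fun i _ => (by fun_prop : Continuous (fun c : ℝ => (Q.coeff i).eval c0 * c ^ i)).intervalIntegrable _ _)]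
  simp_rw [intervalIntegral.integral_const_mul, integral_pow]
  rw [Finset.sum_range_succ' _ (Q.natDegree + 1)]
  simp only [pow_zero, mul_one]
  change ∑ x ∈ Finset.range (Q.natDegree + 1), eval c0 (Q.coeff x) * ((s ^ (x + 1) - (-1) ^ (x + 1)) / ((x:ℝ) + 1)) =
    ∑ x ∈ Finset.range (Q.natDegree + 1), eval c0 (C (1 / ((x:ℝ) + 1)) * Q.coeff x) * s ^ (x + 1) +
      eval c0 (∑ k ∈ Finset.range (Q.natDegree + 1), C (-(-1) ^ (k + 1) / ((k:ℝ) + 1)) * Q.coeff k)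
  rw [eval_finset_sum, ← Finset.sum_add_distrib]
  apply Finset.sum_congr rfl
  intro k _
  simp only [eval_mul, eval_C]
  ring

open Polynomial in
theorem cap_gen (j ε : ℕ) (hε : ε = 0 ∨ ε = 1) : ∃ (n : ℕ) (α : ℕ → Polynomial ℝ),
    (∀ k, α (k+1) = C (1 / ((k:ℝ)+1)) * (QQ j ε).coeff k) ∧
    ∀ w v : E, ‖w‖ = 1 → ‖v‖ = 1 → ∀ s ∈ Icc (-1 : ℝ) 1,
      ∫ y in Metric.closedBall (0 : E) 1 ∩ {y | inner ℝ y w ≤ s * ‖y‖}, (inner ℝ y v) ^ (2 * j + ε) =
        ∑ i ∈ Finset.range n, (α i).eval (inner ℝ w v) * s ^ i := by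
  obtain ⟨n, α, hα, h⟩ := int_poly (QQ j ε)
  refine ⟨n, α, hα, fun w v hw hv s hs => ?_⟩
  rw [core w v hw hv _ s hs, ← h, ← intervalIntegral.integral_const_mul]
  apply intervalIntegral.integral_congr
  intro c hc
  rw [Set.uIcc_of_le hs.1] at hc
  have hc1 : c ^ 2 ≤ 1 := by nlinarith [hc.1, hc.2, hs.2]
  have hc01 : |(inner ℝ w v : ℝ)| ≤ 1 := by
    have := abs_real_inner_le_norm w v
    rw [hw, hv] at this; simpa using this
  have hc02 : (inner ℝ w v : ℝ) ^ 2 ≤ 1 := by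
    rw [← sq_abs]; nlinarith [abs_nonneg (inner ℝ w v : ℝ)]
  simp only
  rw [QQ_eval j ε _ c hc1 hc02 hε]

open Polynomial in
theorem S0 (j ε : ℕ) : (∑ l ∈ Finset.range (j+1), (C (al j ε l) * (X ^ (2*j-2*l) * (1 - X ^ 2) ^ l) :
    Polynomial (Polynomial ℝ))).coeff 0 = al j ε j := by
  rw [coeff_zero_eq_eval_zero, eval_finset_sum, Finset.sum_range_succ]
  have h0 : ∑ l ∈ Finset.range j, eval 0 (C (al j ε l) * (X ^ (2*j-2*l) * (1 - X ^ 2) ^ l) :
    Polynomial (Polynomial ℝ)) = 0 := by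
    apply Finset.sum_eq_zero
    intro l hl
    have hl' : l < j := Finset.mem_range.1 hl
    have h2 : 2*j-2*l ≠ 0 := by omega
    simp [h2]
  rw [h0]
  simp

/-- TARGET 1: even powers. `Nat.centralBinom j / 4^j` is the mean of `cos^(2j)`. -/
theorem cap_even (j : ℕ) : ∃ (n : ℕ) (α : ℕ → Polynomial ℝ),
    α 1 = Polynomial.C (2 * Real.pi / (2 * j + 3) * (Nat.centralBinom j / 4 ^ j)) *
      (1 - Polynomial.X ^ 2) ^ j ∧
    ∀ w v : E, ‖w‖ = 1 → ‖v‖ = 1 → ∀ s ∈ Icc (-1 : ℝ) 1,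
      ∫ y in Metric.closedBall (0 : E) 1 ∩ {y | inner ℝ y w ≤ s * ‖y‖}, (inner ℝ y v) ^ (2 * j) =
        ∑ i ∈ Finset.range n, (α i).eval (inner ℝ w v) * s ^ i := by
  obtain ⟨n, α, hα, h⟩ := cap_gen j 0 (Or.inl rfl)
  refine ⟨n, α, ?_, h⟩
  have h1 := hα 0
  rw [zero_add] at h1
  rw [h1]
  have h2 : (QQ j 0).coeff 0 = al j 0 j := by
    unfold QQ
    rw [pow_zero, one_mul, S0]
  rw [h2]
  unfold al
  rw [← mul_assoc, ← Polynomial.C_mul]
  simp only [add_zero, Nat.sub_self, pow_zero, one_mul, Nat.choose_self]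
  congr 2
  push_cast
  ring

/-- TARGET 2: odd powers. -/
theorem cap_odd (j : ℕ) : ∃ (n : ℕ) (α : ℕ → Polynomial ℝ),
    α 2 = Polynomial.C ((2 * j + 1) * Real.pi / (2 * j + 4) * (Nat.centralBinom j / 4 ^ j)) *
      (Polynomial.X * (1 - Polynomial.X ^ 2) ^ j) ∧
    ∀ w v : E, ‖w‖ = 1 → ‖v‖ = 1 → ∀ s ∈ Icc (-1 : ℝ) 1,
      ∫ y in Metric.closedBall (0 : E) 1 ∩ {y | inner ℝ y w ≤ s * ‖y‖}, (inner ℝ y v) ^ (2 * j + 1) =
        ∑ i ∈ Finset.range n, (α i).eval (inner ℝ w v) * s ^ i := by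
  obtain ⟨n, α, hα, h⟩ := cap_gen j 1 (Or.inr rfl)
  refine ⟨n, α, ?_, h⟩
  have h1 := hα 1
  rw [show (1:ℕ) + 1 = 2 from rfl] at h1
  rw [h1]
  have h2 : (QQ j 1).coeff 1 = al j 1 j := by
    unfold QQ
    rw [pow_one, Polynomial.coeff_X_mul, S0]
  rw [h2]
  unfold al
  rw [← mul_assoc, ← Polynomial.C_mul]
  have h3 : 2 * j + 1 - 2 * j = 1 := by omega
  have h4 : (2 * j + 1).choose (2 * j) = 2 * j + 1 := Nat.choose_succ_self_right (2*j)
  rw [h3, h4, pow_one]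
  congr 2
  push_cast
  have h5 : (2 * (j:ℝ) + 1 + 3) = 2 * j + 4 := by ring
  rw [h5]
  ring

/-- TARGET 3 -/
theorem ball_moment (j : ℕ) (v : E) (hv : ‖v‖ = 1) :
    ∫ y in Metric.closedBall (0 : E) 1, (inner ℝ y v) ^ (2 * j) =
      4 * Real.pi / ((2 * j + 1) * (2 * j + 3)) ∧
    ∫ y in Metric.closedBall (0 : E) 1, (inner ℝ y v) ^ (2 * j + 1) = 0 := by
  have hset : Metric.closedBall (0 : E) 1 = Metric.closedBall (0 : E) 1 ∩ {y | inner ℝ y v ≤ 1 * ‖y‖} := by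
    symm
    apply Set.inter_eq_left.2
    intro y _
    show inner ℝ y v ≤ 1 * ‖y‖
    have := real_inner_le_norm y v
    rw [hv] at this
    linarith
  have hvv : inner ℝ v v = (1:ℝ) := by rw [real_inner_self_eq_norm_sq, hv]; norm_num
  have hm : ∀ m : ℕ, ∫ y in Metric.closedBall (0 : E) 1, (inner ℝ y v) ^ m =
      1 / ((m:ℝ) + 3) * ((2 * Real.pi) * ((1 ^ (m+1) - (-1) ^ (m+1)) / ((m:ℝ)+1))) := by
    intro m
    rw [hset, core v v hv hv m 1 ⟨by norm_num, le_refl _⟩, hvv]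
    congr 1
    have h0 : ∀ c : ℝ, ∫ φ in (-Real.pi)..Real.pi, (c * 1 + √(1 - c ^ 2) * √(1 - (1:ℝ) ^ 2) * Real.cos φ) ^ m
        = (2 * Real.pi) * c ^ m := by
      intro c
      simp
      left; ring
    simp_rw [h0]
    rw [intervalIntegral.integral_const_mul, integral_pow]
  constructor
  · rw [hm]
    have : (-1:ℝ) ^ (2*j+1) = -1 := by rw [pow_succ, pow_mul]; norm_num
    rw [this]
    push_cast
    have h1 : (2:ℝ) * j + 1 ≠ 0 := by positivity
    have h2 : (2:ℝ) * j + 3 ≠ 0 := by positivity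
    field_simp
    ring
  · rw [hm]
    have : (-1:ℝ) ^ (2*j+1+1) = 1 := by
      rw [show 2*j+1+1 = 2*(j+1) by ring, pow_mul]; norm_num
    rw [this]
    simp


end FB.J_j6

alias FB.cap_even := FB.J_j6.cap_even
alias FB.cap_odd := FB.J_j6.cap_odd
alias FB.ball_moment := FB.J_j6.ball_moment
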