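import Pool.Agent.Helper240.FB.Defs
import Pool.Agent.Helper240.FB.J6

open Filter Topology Set MeasureTheory

namespace FB.J_j8













theorem FB8_int (C : Set E) (hC : MeasurableSet C) (hCb : Bornology.IsBounded C) (R : ℝ)
    (hR : 0 < R) (hCR : ∀ x ∈ C, R < ‖x‖) (q : Polynomial ℝ) (i : ℕ) (v : E) (hv : ‖v‖ = 1) :
    Integrable (fun x => q.eval (inner ℝ x v / ‖x‖) * (‖x‖⁻¹) ^ i) (volume.restrict C) := by
  haveI : IsFiniteMeasure (volume.restrict C) :=
    ⟨by rw [Measure.restrict_apply_univ]; exact hCb.measure_lt_top⟩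
  obtain ⟨B, hB⟩ : ∃ B : ℝ, ∀ c ∈ Icc (-1 : ℝ) 1, ‖q.eval c‖ ≤ B :=
    isCompact_Icc.exists_bound_of_continuousOn q.continuous.continuousOn
  have hm : Measurable (fun x : E => q.eval (inner ℝ x v / ‖x‖) * (‖x‖⁻¹) ^ i) := by
    have h1 : Measurable (fun x : E => inner ℝ x v) :=
      (continuous_id.inner continuous_const).measurable
    exact (q.continuous.measurable.comp (h1.div measurable_norm)).mul
      ((measurable_norm.inv).pow_const i)
  refine Integrable.of_bound hm.aestronglyMeasurable (B * (R⁻¹) ^ i) ?_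
  refine (ae_restrict_iff' hC).mpr (Filter.Eventually.of_forall fun x hx => ?_)
  have hxR := hCR x hx
  have hx0 : 0 < ‖x‖ := hR.trans hxR
  have hc : inner ℝ x v / ‖x‖ ∈ Icc (-1 : ℝ) 1 := by
    have h2 : |inner ℝ x v| ≤ ‖x‖ * ‖v‖ := abs_real_inner_le_norm x v
    rw [hv, mul_one] at h2
    rw [Set.mem_Icc, ← abs_le, abs_div, abs_of_pos hx0]
    exact (div_le_one hx0).mpr h2
  have h3 := hB _ hc
  rw [norm_mul]
  have h4 : ‖(‖x‖⁻¹) ^ i‖ ≤ (R⁻¹) ^ i := by
    rw [norm_pow, norm_inv, norm_norm]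
    exact pow_le_pow_left₀ (by positivity) (inv_anti₀ hR hxR.le) i
  exact mul_le_mul h3 h4 (norm_nonneg _) ((norm_nonneg _).trans h3)

theorem FB8_key (C : Set E) (hC : MeasurableSet C) (hCb : Bornology.IsBounded C) (R : ℝ)
    (hR : 0 < R) (hCR : ∀ x ∈ C, R < ‖x‖) (k n : ℕ) (α : ℕ → Polynomial ℝ)
    (hα : ∀ w v : E, ‖w‖ = 1 → ‖v‖ = 1 → ∀ s ∈ Icc (-1 : ℝ) 1,
      ∫ y in Metric.closedBall (0 : E) 1 ∩ {y | inner ℝ y w ≤ s * ‖y‖}, (inner ℝ y v) ^ k =
        ∑ i ∈ Finset.range n, (α i).eval (inner ℝ w v) * s ^ i)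
    (v : E) (hv : ‖v‖ = 1) (τ : ℝ) (hτ : |τ| < R) (a : ℝ)
    (ha : ∀ u : E, ‖u‖ = 1 → (volume (cut C u τ)).toReal = a) :
    ∑ i ∈ Finset.range n, (∫ x in C, (α i).eval (inner ℝ x v / ‖x‖) * (‖x‖⁻¹) ^ i) * τ ^ i =
      a * ∫ y in Metric.closedBall (0 : E) 1, (inner ℝ y v) ^ k := by
  haveI : IsFiniteMeasure (volume.restrict C) :=
    ⟨by rw [Measure.restrict_apply_univ]; exact hCb.measure_lt_top⟩
  haveI : IsFiniteMeasure (volume.restrict (Metric.closedBall (0 : E) 1)) :=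
    ⟨by rw [Measure.restrict_apply_univ]; exact measure_closedBall_lt_top⟩
  -- step 1: interchange sum and integral
  have h1 : ∑ i ∈ Finset.range n,
      (∫ x in C, (α i).eval (inner ℝ x v / ‖x‖) * (‖x‖⁻¹) ^ i) * τ ^ i =
      ∫ x in C, ∑ i ∈ Finset.range n,
        ((α i).eval (inner ℝ x v / ‖x‖) * (‖x‖⁻¹) ^ i) * τ ^ i := by
    rw [integral_finset_sum _ (fun i _ =>
      (FB8_int C hC hCb R hR hCR (α i) i v hv).mul_const (τ ^ i))]
    refine Finset.sum_congr rfl fun i _ => ?_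
    rw [integral_mul_const]
  rw [h1]
  -- step 2: pointwise identity
  let F : E → E → ℝ := fun x y => if inner ℝ y x ≤ τ * ‖y‖ then (inner ℝ y v) ^ k else 0
  have h2 : ∫ x in C, ∑ i ∈ Finset.range n,
        ((α i).eval (inner ℝ x v / ‖x‖) * (‖x‖⁻¹) ^ i) * τ ^ i =
      ∫ x in C, ∫ y in Metric.closedBall (0 : E) 1, F x y := by
    refine setIntegral_congr_fun hC fun x hx => ?_
    have hxR := hCR x hx
    have hx0 : 0 < ‖x‖ := hR.trans hxR
    have hw : ‖(‖x‖⁻¹) • x‖ = 1 := by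
      rw [norm_smul, norm_inv, norm_norm, inv_mul_cancel₀ hx0.ne']
    have hs : τ / ‖x‖ ∈ Icc (-1 : ℝ) 1 := by
      rw [Set.mem_Icc, ← abs_le, abs_div, abs_of_pos hx0]
      exact (div_le_one hx0).mpr (hτ.trans hxR).le
    have h3 := hα ((‖x‖⁻¹) • x) v hw hv (τ / ‖x‖) hs
    have hset : {y : E | inner ℝ y ((‖x‖⁻¹) • x) ≤ τ / ‖x‖ * ‖y‖} =
        {y : E | inner ℝ y x ≤ τ * ‖y‖} := by
      ext y
      simp only [Set.mem_setOf_eq, inner_smul_right]
      rw [show τ / ‖x‖ * ‖y‖ = ‖x‖⁻¹ * (τ * ‖y‖) by ring]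
      exact mul_le_mul_iff_right₀ (inv_pos.mpr hx0)
    rw [hset] at h3
    have hms : MeasurableSet {y : E | inner ℝ y x ≤ τ * ‖y‖} :=
      measurableSet_le (continuous_id.inner continuous_const).measurable
        (measurable_norm.const_mul τ)
    have h4 : ∫ y in Metric.closedBall (0 : E) 1, F x y =
        ∫ y in Metric.closedBall (0 : E) 1 ∩ {y : E | inner ℝ y x ≤ τ * ‖y‖},
          (inner ℝ y v) ^ k := by
      rw [← setIntegral_indicator hms]
      refine integral_congr_ae (Filter.Eventually.of_forall fun y => ?_)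
      simp only [F, Set.indicator_apply, Set.mem_setOf_eq]
    change ∑ i ∈ Finset.range n, ((α i).eval (inner ℝ x v / ‖x‖) * (‖x‖⁻¹) ^ i) * τ ^ i = 
      ∫ y in Metric.closedBall (0 : E) 1, F x y
    rw [h4, h3]
    refine Finset.sum_congr rfl fun i _ => ?_
    rw [inner_smul_left]
    simp only [conj_trivial]
    rw [show inner ℝ x v / ‖x‖ = ‖x‖⁻¹ * inner ℝ x v by ring, div_eq_mul_inv, mul_pow]
    ring
  rw [h2]
  -- step 3: Fubini
  have hmeas : Measurable (Function.uncurry F) := by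
    have hA : Measurable (fun q : E × E => inner ℝ q.2 q.1) :=
      (continuous_snd.inner continuous_fst).measurable
    have hB : Measurable (fun q : E × E => inner ℝ q.2 v) :=
      (continuous_snd.inner continuous_const).measurable
    have hN : Measurable (fun q : E × E => τ * ‖q.2‖) :=
      (measurable_snd.norm).const_mul τ
    exact Measurable.ite (measurableSet_le hA hN) (hB.pow_const k) measurable_const
  have hint : Integrable (Function.uncurry F)
      ((volume.restrict C).prod (volume.restrict (Metric.closedBall (0 : E) 1))) := by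
    refine Integrable.of_bound hmeas.aestronglyMeasurable 1 ?_
    rw [Measure.prod_restrict]
    refine (ae_restrict_iff' (hC.prod measurableSet_closedBall)).mpr
      (Filter.Eventually.of_forall fun q hq => ?_)
    have hq2 : ‖q.2‖ ≤ 1 := by
      have := hq.2
      rwa [mem_closedBall_zero_iff] at this
    simp only [Function.uncurry, F]
    split_ifs
    · rw [norm_pow]
      refine pow_le_one₀ (norm_nonneg _) ?_
      have := abs_real_inner_le_norm q.2 v
      rw [hv, mul_one] at this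
      rw [Real.norm_eq_abs]
      exact this.trans hq2
    · simp
  rw [integral_integral_swap hint]
  -- step 4
  rw [← integral_const_mul]
  refine integral_congr_ae ?_
  have hne : ∀ᵐ y ∂(volume.restrict (Metric.closedBall (0 : E) 1)), y ≠ 0 := by
    refine ae_restrict_of_ae ?_
    exact compl_mem_ae_iff.mpr (measure_singleton (0 : E))
  filter_upwards [hne] with y hy
  have hy0 : 0 < ‖y‖ := norm_pos_iff.mpr hy
  have hms : MeasurableSet {x : E | inner ℝ y x ≤ τ * ‖y‖} :=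
    measurableSet_le (continuous_const.inner continuous_id).measurable measurable_const
  have hset : {x : E | inner ℝ y x ≤ τ * ‖y‖} = {x : E | inner ℝ x ((‖y‖⁻¹) • y) ≤ τ} := by
    ext x
    simp only [Set.mem_setOf_eq, inner_smul_right]
    rw [real_inner_comm, inv_mul_le_iff₀ hy0, mul_comm ‖y‖ τ]
  have hu : ‖(‖y‖⁻¹) • y‖ = 1 := by
    rw [norm_smul, norm_inv, norm_norm, inv_mul_cancel₀ hy0.ne']
  have h5 : ∫ x in C, F x y = ∫ x in C ∩ {x : E | inner ℝ y x ≤ τ * ‖y‖}, (inner ℝ y v) ^ k := by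
    rw [← setIntegral_indicator hms]
    refine integral_congr_ae (Filter.Eventually.of_forall fun x => ?_)
    simp only [F, Set.indicator_apply, Set.mem_setOf_eq]
  rw [h5, setIntegral_const, hset]
  have h6 := ha _ hu
  unfold cut at h6
  rw [Measure.real, h6, smul_eq_mul]

theorem FB8_coeff (n : ℕ) (A : ℕ → ℝ) (i : ℕ) :
    (∑ m ∈ Finset.range n, Polynomial.C (A m) * Polynomial.X ^ m : Polynomial ℝ).coeff i =
      if i < n then A i else 0 := by
  rw [Polynomial.finset_sum_coeff]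
  simp only [Polynomial.coeff_C_mul_X_pow]
  by_cases h : i < n
  · rw [Finset.sum_eq_single i]
    · simp [h]
    · intro b _ hb
      rw [if_neg (Ne.symm hb)]
    · intro hi
      exact absurd (Finset.mem_range.mpr h) hi
  · rw [if_neg h]
    refine Finset.sum_eq_zero fun m hm => ?_
    rw [if_neg]
    intro him
    exact h (him ▸ Finset.mem_range.mp hm)

theorem FB8_cmp (C : Set E) (hC : MeasurableSet C) (hCb : Bornology.IsBounded C) (R : ℝ)
    (hR : 0 < R) (hCR : ∀ x ∈ C, R < ‖x‖) (T : Set ℝ) (hT : T.Infinite) (hTR : ∀ τ ∈ T, |τ| < R)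
    (ha : ∀ τ ∈ T, ∃ a : ℝ, ∀ u : E, ‖u‖ = 1 → (volume (cut C u τ)).toReal = a)
    (v : E) (hv : ‖v‖ = 1) (k n : ℕ) (α : ℕ → Polynomial ℝ)
    (hα : ∀ w v : E, ‖w‖ = 1 → ‖v‖ = 1 → ∀ s ∈ Icc (-1 : ℝ) 1,
      ∫ y in Metric.closedBall (0 : E) 1 ∩ {y | inner ℝ y w ≤ s * ‖y‖}, (inner ℝ y v) ^ k =
        ∑ i ∈ Finset.range n, (α i).eval (inner ℝ w v) * s ^ i)
    (k' n' : ℕ) (α' : ℕ → Polynomial ℝ)
    (hα' : ∀ w v : E, ‖w‖ = 1 → ‖v‖ = 1 → ∀ s ∈ Icc (-1 : ℝ) 1,
      ∫ y in Metric.closedBall (0 : E) 1 ∩ {y | inner ℝ y w ≤ s * ‖y‖}, (inner ℝ y v) ^ k' =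
        ∑ i ∈ Finset.range n', (α' i).eval (inner ℝ w v) * s ^ i) (i : ℕ) :
    (∫ y in Metric.closedBall (0 : E) 1, (inner ℝ y v) ^ k') *
      (if i < n then (∫ x in C, (α i).eval (inner ℝ x v / ‖x‖) * (‖x‖⁻¹) ^ i) else 0) =
    (∫ y in Metric.closedBall (0 : E) 1, (inner ℝ y v) ^ k) *
      (if i < n' then (∫ x in C, (α' i).eval (inner ℝ x v / ‖x‖) * (‖x‖⁻¹) ^ i) else 0) := by
  rw [← FB8_coeff n (fun i => ∫ x in C, (α i).eval (inner ℝ x v / ‖x‖) * (‖x‖⁻¹) ^ i) i,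
    ← FB8_coeff n' (fun i => ∫ x in C, (α' i).eval (inner ℝ x v / ‖x‖) * (‖x‖⁻¹) ^ i) i,
    ← Polynomial.coeff_C_mul, ← Polynomial.coeff_C_mul]
  congr 1
  refine Polynomial.eq_of_infinite_eval_eq _ _ (hT.mono fun τ hτ => ?_)
  obtain ⟨a, hau⟩ := ha τ hτ
  have e1 := FB8_key C hC hCb R hR hCR k n α hα v hv τ (hTR τ hτ) a hau
  have e2 := FB8_key C hC hCb R hR hCR k' n' α' hα' v hv τ (hTR τ hτ) a hau
  simp only [Set.mem_setOf_eq, Polynomial.eval_mul, Polynomial.eval_C,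
    Polynomial.eval_finset_sum, Polynomial.eval_pow, Polynomial.eval_X]
  rw [e1, e2]
  ring

theorem FB8_ray (v : E) (hv : ‖v‖ = 1) : volume {y : E | inner ℝ y v ≤ (-1) * ‖y‖} = 0 := by
  have hv0 : v ≠ 0 := by
    intro h
    rw [h, norm_zero] at hv
    exact zero_ne_one hv
  have hne : (Submodule.span ℝ {v} : Submodule ℝ E) ≠ ⊤ := by
    intro h
    have h1 : Module.finrank ℝ (Submodule.span ℝ {v} : Submodule ℝ E) = 1 :=
      finrank_span_singleton hv0
    rw [h, finrank_top, finrank_euclideanSpace_fin] at h1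
    norm_num at h1
  refine measure_mono_null ?_ (Measure.addHaar_submodule volume _ hne)
  intro y hy
  rw [Set.mem_setOf_eq] at hy
  have h2 := abs_le.mp (abs_real_inner_le_norm y v)
  rw [hv, mul_one] at h2
  have h3 : inner ℝ y v = -‖y‖ := by linarith [h2.1]
  have h4 : ‖y + ‖y‖ • v‖ ^ 2 = 0 := by
    rw [norm_add_sq_real, inner_smul_right, norm_smul, norm_norm, hv, h3]
    ring
  have h5 : y + ‖y‖ • v = 0 := by
    rw [← norm_eq_zero]
    exact pow_eq_zero_iff (two_ne_zero) |>.mp h4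
  have h6 : y = (-‖y‖) • v := by
    rw [neg_smul]
    exact eq_neg_of_add_eq_zero_left h5
  rw [SetLike.mem_coe, h6]
  exact Submodule.smul_mem _ _ (Submodule.mem_span_singleton_self v)

theorem FB8_s1 (k : ℕ) (v : E) (hv : ‖v‖ = 1) :
    ∫ y in Metric.closedBall (0 : E) 1 ∩ {y | inner ℝ y v ≤ 1 * ‖y‖}, (inner ℝ y v) ^ k =
      ∫ y in Metric.closedBall (0 : E) 1, (inner ℝ y v) ^ k := by
  have : Metric.closedBall (0 : E) 1 ∩ {y : E | inner ℝ y v ≤ 1 * ‖y‖} =
      Metric.closedBall (0 : E) 1 := by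
    refine Set.inter_eq_left.mpr fun y _ => ?_
    have h2 := abs_le.mp (abs_real_inner_le_norm y v)
    rw [hv, mul_one] at h2
    rw [Set.mem_setOf_eq, one_mul]
    exact h2.2
  rw [this]

theorem FB8_sm1 (k : ℕ) (v : E) (hv : ‖v‖ = 1) :
    ∫ y in Metric.closedBall (0 : E) 1 ∩ {y | inner ℝ y v ≤ (-1) * ‖y‖}, (inner ℝ y v) ^ k = 0 := by
  have h : volume (Metric.closedBall (0 : E) 1 ∩ {y | inner ℝ y v ≤ (-1) * ‖y‖}) = 0 :=
    measure_mono_null Set.inter_subset_right (FB8_ray v hv)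
  rw [Measure.restrict_eq_zero.mpr h, integral_zero_measure]

theorem FB8_neg (j : ℕ) (v : E) (hv : ‖v‖ = 1) :
    ∫ y in Metric.closedBall (0 : E) 1 ∩ {y | inner ℝ y v ≤ 0 * ‖y‖},
      (inner ℝ y v) ^ (2 * j + 1) ≠ 0 := by
  have hms : MeasurableSet (Metric.closedBall (0 : E) 1 ∩ {y | inner ℝ y v ≤ 0 * ‖y‖}) :=
    measurableSet_closedBall.inter
      (measurableSet_le (continuous_id.inner continuous_const).measurable
        (measurable_norm.const_mul 0))
  have hcont : Continuous (fun y : E => -(inner ℝ y v) ^ (2 * j + 1)) :=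
    ((continuous_id.inner continuous_const).pow _).neg
  have hpos : 0 < ∫ y in Metric.closedBall (0 : E) 1 ∩ {y | inner ℝ y v ≤ 0 * ‖y‖},
      (-(inner ℝ y v) ^ (2 * j + 1)) := by
    rw [setIntegral_pos_iff_support_of_nonneg_ae]
    · refine lt_of_lt_of_le
        (Metric.measure_ball_pos volume (-(1 / 2 : ℝ) • v) (show (0 : ℝ) < 1 / 4 by norm_num))
        (measure_mono ?_)
      intro y hy
      rw [mem_ball_iff_norm] at hy
      have e1 : inner ℝ y v = inner ℝ (y - -(1 / 2 : ℝ) • v) v + -(1 / 2 : ℝ) := by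
        rw [inner_sub_left, inner_smul_left, real_inner_self_eq_norm_sq, hv]
        simp
      have e2 := abs_le.mp (abs_real_inner_le_norm (y - -(1 / 2 : ℝ) • v) v)
      rw [hv, mul_one] at e2
      have e3 : inner ℝ y v < 0 := by linarith [e2.2]
      have e4 : ‖y‖ ≤ 1 := by
        have h7 : y = (y - -(1 / 2 : ℝ) • v) + -(1 / 2 : ℝ) • v := by abel
        have h8 : ‖y‖ ≤ ‖y - -(1 / 2 : ℝ) • v‖ + ‖-(1 / 2 : ℝ) • v‖ := by
          conv_lhs => rw [h7]
          exact norm_add_le _ _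
        have h9 : ‖-(1 / 2 : ℝ) • v‖ = 1 / 2 := by
          rw [norm_smul, hv]
          norm_num
        linarith
      refine ⟨?_, ?_, ?_⟩
      · rw [Function.mem_support]
        exact neg_ne_zero.mpr (pow_ne_zero _ e3.ne)
      · rw [mem_closedBall_zero_iff]
        exact e4
      · rw [Set.mem_setOf_eq, zero_mul]
        exact e3.le
    · refine (ae_restrict_iff' hms).mpr (Filter.Eventually.of_forall fun y hy => ?_)
      have h1 : inner ℝ y v ≤ 0 := by
        have := hy.2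
        rwa [Set.mem_setOf_eq, zero_mul] at this
      have h2 : (inner ℝ y v) ^ (2 * j + 1) ≤ 0 := Odd.pow_nonpos ⟨j, rfl⟩ h1
      simpa using h2
    · exact (hcont.continuousOn.integrableOn_compact (isCompact_closedBall (0 : E) 1)).mono_set
        Set.inter_subset_left
  rw [integral_neg] at hpos
  intro h0
  rw [h0] at hpos
  simp at hpos

/-- TARGET (`C` is `K` minus the ball) -/
theorem moments (C : Set E) (hC : MeasurableSet C) (hCb : Bornology.IsBounded C) (R : ℝ)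
    (hR : 0 < R) (hCR : ∀ x ∈ C, R < ‖x‖) (T : Set ℝ) (hT : T.Infinite) (hTR : ∀ τ ∈ T, |τ| < R)
    (ha : ∀ τ ∈ T, ∃ a : ℝ, ∀ u : E, ‖u‖ = 1 → (volume (cut C u τ)).toReal = a)
    (v : E) (hv : ‖v‖ = 1) (j : ℕ) :
    ∫ x in C, ‖x‖⁻¹ * (1 - (inner ℝ x v / ‖x‖) ^ 2) ^ j =
      (∫ x in C, ‖x‖⁻¹) / ((2 * j + 1) * (Nat.centralBinom j / 4 ^ j)) ∧
    ∫ x in C, (‖x‖⁻¹) ^ 2 * ((inner ℝ x v / ‖x‖) * (1 - (inner ℝ x v / ‖x‖) ^ 2) ^ j) = 0 := by
  obtain ⟨n, α, hα1, hα⟩ := cap_even j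
  obtain ⟨n0, β, hβ1, hβ⟩ := cap_even 0
  obtain ⟨m, γ, hγ2, hγ⟩ := cap_odd j
  have hN := (ball_moment j v hv).1
  have hNo := (ball_moment j v hv).2
  have hN0 := (ball_moment 0 v hv).1
  have hvv : (1 : ℝ) ∈ Icc (-1 : ℝ) 1 := ⟨by norm_num, le_refl _⟩
  have hvm : (-1 : ℝ) ∈ Icc (-1 : ℝ) 1 := ⟨le_refl _, by norm_num⟩
  have hv0 : (0 : ℝ) ∈ Icc (-1 : ℝ) 1 := ⟨by norm_num, by norm_num⟩
  have hge : ∀ (j : ℕ) (n : ℕ) (α : ℕ → Polynomial ℝ), (∀ w v : E, ‖w‖ = 1 → ‖v‖ = 1 →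
      ∀ s ∈ Icc (-1 : ℝ) 1,
      ∫ y in Metric.closedBall (0 : E) 1 ∩ {y | inner ℝ y w ≤ s * ‖y‖}, (inner ℝ y v) ^ (2 * j) =
        ∑ i ∈ Finset.range n, (α i).eval (inner ℝ w v) * s ^ i) → 1 < n := by
    intro j n α hα
    by_contra hcon
    have h1 := hα v v hv hv 1 hvv
    have h2 := hα v v hv hv (-1) hvm
    rw [FB8_s1 _ v hv, (ball_moment j v hv).1] at h1
    rw [FB8_sm1 _ v hv] at h2
    have hpos : (0 : ℝ) < 4 * Real.pi / ((2 * j + 1) * (2 * j + 3)) := by
      have := Real.pi_pos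
      positivity
    have hn : n = 0 ∨ n = 1 := by omega
    rcases hn with rfl | rfl
    · simp only [Finset.range_zero, Finset.sum_empty] at h1
      linarith
    · simp only [Finset.sum_range_one, pow_zero, mul_one] at h1 h2
      linarith
  have hn1 := hge j n α hα
  have hn01 := hge 0 n0 β hβ
  have hm2 : 2 < m := by
    by_contra hcon
    have h1 := hγ v v hv hv 1 hvv
    have h2 := hγ v v hv hv (-1) hvm
    have h3 := hγ v v hv hv 0 hv0
    rw [FB8_s1 _ v hv, hNo] at h1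
    rw [FB8_sm1 _ v hv] at h2
    have h4 := FB8_neg j v hv
    rw [h3] at h4
    have hn : m = 0 ∨ m = 1 ∨ m = 2 := by omega
    rcases hn with rfl | rfl | rfl
    · simp at h4
    · simp only [Finset.sum_range_one, pow_zero, mul_one] at h1 h4
      exact h4 h1.symm
    · simp only [Finset.sum_range_succ, Finset.sum_range_zero, pow_zero, mul_one, pow_one,
        zero_add, mul_zero, add_zero, mul_neg] at h1 h2 h4
      apply h4
      linarith
  have hpi := Real.pi_pos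
  have hcb : (0 : ℝ) < (Nat.centralBinom j : ℝ) / 4 ^ j := by
    have : 0 < Nat.centralBinom j := Nat.centralBinom_pos j
    positivity
  constructor
  · have h := FB8_cmp C hC hCb R hR hCR T hT hTR ha v hv (2 * j) n α hα (2 * 0) n0 β hβ 1
    rw [if_pos hn1, if_pos hn01, hN, hN0] at h
    have hA : (∫ x in C, (α 1).eval (inner ℝ x v / ‖x‖) * (‖x‖⁻¹) ^ 1) =
        (2 * Real.pi / (2 * j + 3) * (Nat.centralBinom j / 4 ^ j)) *
        ∫ x in C, ‖x‖⁻¹ * (1 - (inner ℝ x v / ‖x‖) ^ 2) ^ j := by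
      rw [← integral_const_mul]
      refine integral_congr_ae (Filter.Eventually.of_forall fun x => ?_)
      simp only [hα1, Polynomial.eval_mul, Polynomial.eval_C, Polynomial.eval_pow,
        Polynomial.eval_sub, Polynomial.eval_one, Polynomial.eval_X, pow_one]
      ring
    have hB : (∫ x in C, (β 1).eval (inner ℝ x v / ‖x‖) * (‖x‖⁻¹) ^ 1) =
        (2 * Real.pi / 3) * ∫ x in C, ‖x‖⁻¹ := by
      rw [← integral_const_mul]
      refine integral_congr_ae (Filter.Eventually.of_forall fun x => ?_)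
      simp only [hβ1, Polynomial.eval_mul, Polynomial.eval_C, Polynomial.eval_pow,
        Polynomial.eval_sub, Polynomial.eval_one, Polynomial.eval_X, pow_one, pow_zero,
        Nat.centralBinom_zero]
      norm_num
    rw [hA, hB] at h
    have hj1 : (0 : ℝ) < 2 * j + 1 := by positivity
    have hj3 : (0 : ℝ) < 2 * j + 3 := by positivity
    rw [eq_div_iff (by positivity)]
    generalize (∫ x in C, ‖x‖⁻¹ * (1 - (inner ℝ x v / ‖x‖) ^ 2) ^ j) = I at h ⊢
    generalize (∫ x in C, ‖x‖⁻¹) = M at h ⊢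
    generalize (Nat.centralBinom j : ℝ) / 4 ^ j = c at h hcb ⊢
    simp only [Nat.cast_zero, mul_zero, zero_add, one_mul] at h
    field_simp at h
    have hpp : (Real.pi ^ 2 : ℝ) ≠ 0 := by positivity
    linarith
  · have h := FB8_cmp C hC hCb R hR hCR T hT hTR ha v hv (2 * j + 1) m γ hγ (2 * 0) n0 β hβ 2
    rw [if_pos hm2, hNo, hN0, zero_mul] at h
    have hA : (∫ x in C, (γ 2).eval (inner ℝ x v / ‖x‖) * (‖x‖⁻¹) ^ 2) =
        ((2 * j + 1) * Real.pi / (2 * j + 4) * (Nat.centralBinom j / 4 ^ j)) *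
        ∫ x in C, (‖x‖⁻¹) ^ 2 * ((inner ℝ x v / ‖x‖) * (1 - (inner ℝ x v / ‖x‖) ^ 2) ^ j) := by
      rw [← integral_const_mul]
      refine integral_congr_ae (Filter.Eventually.of_forall fun x => ?_)
      simp only [hγ2, Polynomial.eval_mul, Polynomial.eval_C, Polynomial.eval_pow,
        Polynomial.eval_sub, Polynomial.eval_one, Polynomial.eval_X]
      ring
    rw [hA] at h
    have hc1 : (4 * Real.pi / ((2 * ((0 : ℕ) : ℝ) + 1) * (2 * ((0 : ℕ) : ℝ) + 3))) ≠ 0 := by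
      have : (0 : ℝ) < 4 * Real.pi / ((2 * ((0 : ℕ) : ℝ) + 1) * (2 * ((0 : ℕ) : ℝ) + 3)) := by
        positivity
      exact this.ne'
    have hc2 : ((2 * (j : ℝ) + 1) * Real.pi / (2 * j + 4) * (Nat.centralBinom j / 4 ^ j)) ≠ 0 := by
      have : (0 : ℝ) < ((2 * (j : ℝ) + 1) * Real.pi / (2 * j + 4) *
          (Nat.centralBinom j / 4 ^ j)) := by
        have h1 : (0 : ℝ) < (2 * (j : ℝ) + 1) * Real.pi / (2 * j + 4) := by positivity
        exact mul_pos h1 hcb
      exact this.ne'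
    rcases mul_eq_zero.mp h with h | h
    · exact absurd h hc1
    · rcases mul_eq_zero.mp h with h | h
      · exact absurd h hc2
      · exact h

end FB.J_j8

alias FB.moments := FB.J_j8.moments
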