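import Pool.Agent.Helper240.FB.Defs
import Pool.Agent.Helper240.FB.J5

open Filter Topology Set MeasureTheory

namespace FB.J_j9











theorem nom_int_pow (k : ℕ) : (∫ s in (-1:ℝ)..1, (1 - s ^ 2) ^ k : ℝ) =
    2 / ((2 * (k:ℝ) + 1) * ((Nat.centralBinom k : ℝ) / 4 ^ k)) := by
  induction k with
  | zero =>
    simp
    norm_num
  | succ k ih =>
    have hder : ∀ s ∈ Set.uIcc (-1:ℝ) 1, HasDerivAt (fun s : ℝ => s * (1 - s ^ 2) ^ (k + 1))
        ((2 * k + 3) * (1 - s ^ 2) ^ (k + 1) - (2 * k + 2) * (1 - s ^ 2) ^ k) s := by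
      intro s _
      have h1 : HasDerivAt (fun s : ℝ => 1 - s ^ 2) (-(2 * s)) s := by
        simpa using ((hasDerivAt_pow 2 s).const_sub 1)
      have h2 := (hasDerivAt_id s).mul (h1.pow (k + 1))
      refine h2.congr_deriv ?_
      simp only [id, Nat.add_sub_cancel, Pi.pow_apply]
      push_cast
      ring
    have hint := intervalIntegral.integral_eq_sub_of_hasDerivAt hder
      (by apply Continuous.intervalIntegrable; fun_prop)
    rw [intervalIntegral.integral_sub (by apply Continuous.intervalIntegrable; fun_prop)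
      (by apply Continuous.intervalIntegrable; fun_prop), intervalIntegral.integral_const_mul,
      intervalIntegral.integral_const_mul, ih] at hint
    have hcb := Nat.succ_mul_centralBinom_succ k
    have hcb' : ((k:ℝ) + 1) * (Nat.centralBinom (k + 1) : ℝ) =
        2 * (2 * k + 1) * (Nat.centralBinom k : ℝ) := by exact_mod_cast hcb
    have hB : (0:ℝ) < (Nat.centralBinom k : ℝ) := by exact_mod_cast Nat.centralBinom_pos k
    have hB' : (Nat.centralBinom (k + 1) : ℝ) = 2 * (2 * k + 1) * (Nat.centralBinom k : ℝ) / (k + 1) := by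
      rw [eq_div_iff (by positivity), ← hcb']
      ring
    have hzero : (1 - (1:ℝ) ^ 2) ^ (k + 1) = 0 := by simp
    have hzero' : (1 - (-1:ℝ) ^ 2) ^ (k + 1) = 0 := by simp
    rw [hzero, hzero', mul_zero, mul_zero, sub_zero] at hint
    have hI : (∫ s in (-1:ℝ)..1, (1 - s ^ 2) ^ (k + 1) : ℝ) =
        (2 * (k:ℝ) + 2) / (2 * k + 3) * (2 / ((2 * k + 1) * ((Nat.centralBinom k : ℝ) / 4 ^ k))) := by
      have h3 : (2 * (k:ℝ) + 3) ≠ 0 := by positivity
      rw [div_mul_eq_mul_div, eq_div_iff h3]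
      linarith
    rw [hI, hB']
    push_cast
    field_simp
    ring

theorem nom_binom (t : ℝ) (j : ℕ) : (t ^ 2) ^ j = ∑ k ∈ Finset.range (j + 1),
    ((-1) ^ k * (j.choose k : ℝ)) * (1 - t ^ 2) ^ k := by
  have h1 : t ^ 2 = -(1 - t ^ 2) + 1 := by ring
  conv_lhs => rw [h1, add_pow]
  apply Finset.sum_congr rfl
  intro k _
  rw [one_pow, neg_pow]
  ring

theorem nom_frame (v : E) (hv : ‖v‖ = 1) : ∃ e1 e2 : E, ‖e1‖ = 1 ∧ ‖e2‖ = 1 ∧
    inner ℝ v e1 = (0:ℝ) ∧ inner ℝ v e2 = (0:ℝ) ∧ inner ℝ e1 e2 = (0:ℝ) := by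
  have hv0 : v ≠ 0 := by
    intro h
    rw [h, norm_zero] at hv
    norm_num at hv
  have hfact : Fact (Module.finrank ℝ E = 2 + 1) := ⟨by simp⟩
  have hfr : Module.finrank ℝ (ℝ ∙ v)ᗮ = 2 := Submodule.finrank_orthogonal_span_singleton hv0
  obtain ⟨b, -⟩ : ∃ b : OrthonormalBasis (Fin 2) ℝ (ℝ ∙ v)ᗮ, True :=
    ⟨(stdOrthonormalBasis ℝ (ℝ ∙ v)ᗮ).reindex (finCongr hfr), trivial⟩
  refine ⟨b 0, b 1, ?_, ?_, ?_, ?_, ?_⟩
  · exact b.orthonormal.1 0
  · exact b.orthonormal.1 1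
  · exact Submodule.mem_orthogonal_singleton_iff_inner_right.mp (b 0).2
  · exact Submodule.mem_orthogonal_singleton_iff_inner_right.mp (b 1).2
  · exact b.orthonormal.2 (by decide)

theorem nom_pt (v e1 e2 : E) (hv : ‖v‖ = 1) (h1 : ‖e1‖ = 1) (h2 : ‖e2‖ = 1)
    (hw1 : inner ℝ v e1 = (0:ℝ)) (hw2 : inner ℝ v e2 = (0:ℝ)) (h12 : inner ℝ e1 e2 = (0:ℝ))
    (r c φ : ℝ) (hr : 0 < r) (hc : c ∈ Ioo (-1:ℝ) 1) :
    inner ℝ (r • (c • v + √(1 - c ^ 2) • (Real.cos φ • e1 + Real.sin φ • e2))) v = r * c ∧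
    ‖r • (c • v + √(1 - c ^ 2) • (Real.cos φ • e1 + Real.sin φ • e2))‖ = r := by
  have hvv : inner ℝ v v = (1:ℝ) := by rw [real_inner_self_eq_norm_sq, hv]; norm_num
  have h11 : inner ℝ e1 e1 = (1:ℝ) := by rw [real_inner_self_eq_norm_sq, h1]; norm_num
  have h22 : inner ℝ e2 e2 = (1:ℝ) := by rw [real_inner_self_eq_norm_sq, h2]; norm_num
  have hw1' : inner ℝ e1 v = (0:ℝ) := by rw [real_inner_comm]; exact hw1
  have hw2' : inner ℝ e2 v = (0:ℝ) := by rw [real_inner_comm]; exact hw2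
  have h21 : inner ℝ e2 e1 = (0:ℝ) := by rw [real_inner_comm]; exact h12
  have hsq : √(1 - c ^ 2) ^ 2 = 1 - c ^ 2 := Real.sq_sqrt (by nlinarith [hc.1, hc.2])
  constructor
  · simp only [real_inner_smul_left, inner_add_left, hvv, hw1', hw2']
    ring
  · have h3 : ‖r • (c • v + √(1 - c ^ 2) • (Real.cos φ • e1 + Real.sin φ • e2))‖ ^ 2 = r ^ 2 := by
      rw [← real_inner_self_eq_norm_sq]
      simp only [real_inner_smul_left, real_inner_smul_right, inner_add_left, inner_add_right,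
        hvv, hw1', hw2', hw1, hw2, h11, h22, h12, h21]
      linear_combination r ^ 2 * √(1 - c ^ 2) ^ 2 * (Real.cos_sq_add_sin_sq φ) + r ^ 2 * hsq
    exact (sq_eq_sq₀ (norm_nonneg _) hr.le).mp h3


theorem nom_c (R : ℝ) (hR : 0 < R) (j : ℕ) (r : ℝ) (hr : R < r) :
    ∫⁻ c in Ioc (0:ℝ) (R / r), ENNReal.ofReal (r * c ^ (2 * j)) =
      ENNReal.ofReal (r * ((R / r) ^ (2 * j + 1) / (2 * j + 1))) := by
  have hr0 : 0 < r := hR.trans hr
  have hq : 0 ≤ R / r := by positivity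
  rw [← ofReal_integral_eq_lintegral_ofReal]
  · rw [← intervalIntegral.integral_of_le hq, intervalIntegral.integral_const_mul, integral_pow]
    congr 2
    simp
  · apply Continuous.integrableOn_Ioc
    fun_prop
  · refine (ae_restrict_mem measurableSet_Ioc).mono ?_
    intro c hc
    have := hc.1
    show 0 ≤ r * c ^ (2 * j)
    positivity

theorem nom_r (R : ℝ) (hR : 0 < R) (j : ℕ) (hj : 1 ≤ j) :
    ∫⁻ r in Ioi R, ENNReal.ofReal (r * ((R / r) ^ (2 * j + 1) / (2 * j + 1))) =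
      ENNReal.ofReal (R ^ 2 / ((2 * j - 1) * (2 * j + 1))) := by
  have hj' : (1:ℝ) ≤ j := by exact_mod_cast hj
  have h1 : ∀ r ∈ Ioi R, r * ((R / r) ^ (2 * j + 1) / (2 * j + 1)) =
      (R ^ (2 * j + 1) / (2 * j + 1)) * r ^ (-(((2 * j : ℕ)) : ℝ)) := by
    intro r hr
    have hr0 : 0 < r := hR.trans hr
    rw [Real.rpow_neg hr0.le, Real.rpow_natCast, div_pow, pow_succ r (2 * j)]
    field_simp
  have h2 : ∫⁻ r in Ioi R, ENNReal.ofReal (r * ((R / r) ^ (2 * j + 1) / (2 * j + 1))) =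
      ∫⁻ r in Ioi R, ENNReal.ofReal ((R ^ (2 * j + 1) / (2 * j + 1)) *
        r ^ (-(((2 * j : ℕ)) : ℝ))) := by
    apply setLIntegral_congr_fun measurableSet_Ioi
    intro r hr
    show ENNReal.ofReal _ = ENNReal.ofReal _
    rw [h1 r hr]
  have hlt : -(((2 * j : ℕ)) : ℝ) < -1 := by
    push_cast
    linarith
  rw [h2, ← ofReal_integral_eq_lintegral_ofReal]
  · rw [integral_const_mul, integral_Ioi_rpow_of_lt hlt hR]
    congr 1
    have h3 : R ^ (-(((2 * j : ℕ)) : ℝ) + 1) = R / R ^ (2 * j) := by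
      rw [Real.rpow_add hR, Real.rpow_neg hR.le, Real.rpow_natCast, Real.rpow_one]
      field_simp
    rw [h3]
    push_cast
    have h4 : (2 * (j:ℝ) - 1) ≠ 0 := by linarith
    have h5 : (-(2 * (j:ℝ)) + 1) ≠ 0 := by linarith
    have h6 : (-(2 * (j:ℝ)) + 1) = -(2 * (j:ℝ) - 1) := by ring
    rw [h6]
    field_simp
    ring
  · exact ((integrableOn_Ioi_rpow_of_lt hlt hR).const_mul _)
  · refine (ae_restrict_mem measurableSet_Ioi).mono ?_
    intro r hr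
    have hr0 : 0 < r := hR.trans hr
    show 0 ≤ (R ^ (2 * j + 1) / (2 * j + 1)) * r ^ (-(((2 * j : ℕ)) : ℝ))
    positivity

theorem nom_T (C : Set E) (R : ℝ) (hR : 0 < R) (hCR : ∀ x ∈ C, R < ‖x‖) (v : E) (hv : ‖v‖ = 1)
    (hCv : ∀ x ∈ C, inner ℝ x v ≤ R) (j : ℕ) (hj : 1 ≤ j) :
    ∫⁻ x in C ∩ {x | 0 < inner ℝ x v}, ENNReal.ofReal (‖x‖⁻¹ * ((inner ℝ x v / ‖x‖) ^ 2) ^ j) ≤
      ENNReal.ofReal (2 * Real.pi * (R ^ 2 / ((2 * j - 1) * (2 * j + 1)))) := by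
  obtain ⟨e1, e2, he1, he2, hw1, hw2, h12⟩ := nom_frame v hv
  set f : E → ENNReal := fun x => ENNReal.ofReal (‖x‖⁻¹ * ((inner ℝ x v / ‖x‖) ^ 2) ^ j) with hf
  have hfm : Measurable f := by
    rw [hf]
    fun_prop
  set S : Set E := {x | R < ‖x‖ ∧ 0 < inner ℝ x v ∧ inner ℝ x v ≤ R} with hS
  have hinm : Measurable (fun x : E => (inner ℝ x v : ℝ)) := by fun_prop
  have hSm : MeasurableSet S := by
    apply MeasurableSet.inter
    · exact measurableSet_lt measurable_const measurable_norm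
    · apply MeasurableSet.inter
      · exact measurableSet_lt measurable_const hinm
      · exact measurableSet_le hinm measurable_const
  have hsub : C ∩ {x | 0 < inner ℝ x v} ⊆ S := fun x hx => ⟨hCR x hx.1, hx.2, hCv x hx.1⟩
  set V : ENNReal := ENNReal.ofReal (2 * Real.pi) with hV
  have hVol : volume (Ioo (-Real.pi) Real.pi) = V := by
    rw [Real.volume_Ioo, hV]
    congr 1
    ring
  let G : ℝ → ℝ → ENNReal := fun r c =>
    if R < r then (Ioc (0:ℝ) (R / r)).indicator (fun c => ENNReal.ofReal (r * c ^ (2 * j))) c else 0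
  have hG : ∀ r ∈ Ioi (0:ℝ), ∀ c ∈ Ioo (-1:ℝ) 1, ∀ φ : ℝ,
      S.indicator f (r • (c • v + √(1 - c ^ 2) • (Real.cos φ • e1 + Real.sin φ • e2))) *
        ENNReal.ofReal (r ^ 2) ≤ G r c := by
    intro r hr c hc φ
    have hr0 : 0 < r := hr
    obtain ⟨p1, p2⟩ := nom_pt v e1 e2 hv he1 he2 hw1 hw2 h12 r c φ hr hc
    by_cases hx : (r • (c • v + √(1 - c ^ 2) • (Real.cos φ • e1 + Real.sin φ • e2))) ∈ S
    · rw [indicator_of_mem hx]
      obtain ⟨q1, q2, q3⟩ := hx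
      rw [p2] at q1
      rw [p1] at q2 q3
      have hc0 : 0 < c := (mul_pos_iff_of_pos_left hr0).mp q2
      have hcm : c ∈ Ioc (0:ℝ) (R / r) := ⟨hc0, by rw [le_div_iff₀ hr0]; linarith⟩
      show f _ * _ ≤ (if R < r then (Ioc (0:ℝ) (R / r)).indicator
        (fun c => ENNReal.ofReal (r * c ^ (2 * j))) c else 0)
      rw [if_pos q1, indicator_of_mem hcm, hf]
      show ENNReal.ofReal _ * _ ≤ _
      rw [p1, p2, ← ENNReal.ofReal_mul (by positivity)]
      apply le_of_eq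
      congr 1
      rw [mul_div_cancel_left₀ c hr0.ne', ← pow_mul]
      field_simp
    · rw [indicator_of_notMem hx, zero_mul]
      exact zero_le
  calc ∫⁻ x in C ∩ {x | 0 < inner ℝ x v}, f x ≤ ∫⁻ x in S, f x := lintegral_mono_set hsub
    _ = ∫⁻ x, S.indicator f x := (lintegral_indicator hSm f).symm
    _ = ∫⁻ r in Ioi (0 : ℝ), ∫⁻ c in Ioo (-1 : ℝ) 1, ∫⁻ φ in Ioo (-Real.pi) Real.pi,
        S.indicator f (r • (c • v + √(1 - c ^ 2) • (Real.cos φ • e1 + Real.sin φ • e2))) *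
        ENNReal.ofReal (r ^ 2) := spherical v e1 e2 hv he1 he2 hw1 hw2 h12 _ (hfm.indicator hSm)
    _ ≤ ∫⁻ r in Ioi (0 : ℝ), (Ioi R).indicator (fun r =>
          ENNReal.ofReal (r * ((R / r) ^ (2 * j + 1) / (2 * j + 1))) * V) r := by
        apply setLIntegral_mono' measurableSet_Ioi
        intro r hr
        calc ∫⁻ c in Ioo (-1 : ℝ) 1, ∫⁻ φ in Ioo (-Real.pi) Real.pi,
              S.indicator f (r • (c • v + √(1 - c ^ 2) • (Real.cos φ • e1 + Real.sin φ • e2))) *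
              ENNReal.ofReal (r ^ 2)
            ≤ ∫⁻ c in Ioo (-1 : ℝ) 1, G r c * V := by
              apply setLIntegral_mono' measurableSet_Ioo
              intro c hc
              calc ∫⁻ φ in Ioo (-Real.pi) Real.pi,
                  S.indicator f (r • (c • v + √(1 - c ^ 2) •
                    (Real.cos φ • e1 + Real.sin φ • e2))) * ENNReal.ofReal (r ^ 2)
                  ≤ ∫⁻ φ in Ioo (-Real.pi) Real.pi, G r c :=
                    setLIntegral_mono' measurableSet_Ioo (fun φ _ => hG r hr c hc φ)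
                _ = G r c * V := by rw [setLIntegral_const, hVol]
          _ ≤ (Ioi R).indicator (fun r =>
                ENNReal.ofReal (r * ((R / r) ^ (2 * j + 1) / (2 * j + 1))) * V) r := by
              by_cases hRr : R < r
              · rw [indicator_of_mem (show r ∈ Ioi R from hRr), ← nom_c R hR j r hRr,
                  lintegral_mul_const' _ _ (by rw [hV]; exact ENNReal.ofReal_ne_top)]
                apply mul_le_mul_left
                calc ∫⁻ c in Ioo (-1 : ℝ) 1, G r c ≤ ∫⁻ c, G r c := setLIntegral_le_lintegral _ _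
                  _ = ∫⁻ c, (Ioc (0:ℝ) (R / r)).indicator
                      (fun c => ENNReal.ofReal (r * c ^ (2 * j))) c := by
                      apply lintegral_congr
                      intro c
                      show (if R < r then _ else _) = _
                      rw [if_pos hRr]
                  _ = ∫⁻ c in Ioc (0:ℝ) (R / r), ENNReal.ofReal (r * c ^ (2 * j)) :=
                      lintegral_indicator measurableSet_Ioc _
              · have h0 : ∀ c : ℝ, G r c * V = 0 := by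
                  intro c
                  show (if R < r then _ else _) * V = 0
                  rw [if_neg hRr, zero_mul]
                simp only [h0, lintegral_zero]
                exact zero_le
    _ ≤ ∫⁻ r, (Ioi R).indicator (fun r =>
          ENNReal.ofReal (r * ((R / r) ^ (2 * j + 1) / (2 * j + 1))) * V) r :=
        setLIntegral_le_lintegral _ _
    _ = ∫⁻ r in Ioi R, ENNReal.ofReal (r * ((R / r) ^ (2 * j + 1) / (2 * j + 1))) * V :=
        lintegral_indicator measurableSet_Ioi _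
    _ = ENNReal.ofReal (R ^ 2 / ((2 * j - 1) * (2 * j + 1))) * V := by
        rw [lintegral_mul_const' _ _ (by rw [hV]; exact ENNReal.ofReal_ne_top), nom_r R hR j hj]
    _ = ENNReal.ofReal (2 * Real.pi * (R ^ 2 / ((2 * j - 1) * (2 * j + 1)))) := by
        rw [hV, mul_comm, ← ENNReal.ofReal_mul (by positivity)]


theorem nom_comb (C : Set E) (c g : E → ℝ)
    (hint : ∀ k : ℕ, IntegrableOn (fun x => g x * (1 - c x ^ 2) ^ k) C) (j : ℕ) :
    ∫ x in C, g x * (c x ^ 2) ^ j = ∑ k ∈ Finset.range (j + 1),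
      ((-1) ^ k * (j.choose k : ℝ)) * ∫ x in C, g x * (1 - c x ^ 2) ^ k := by
  have h1 : (fun x => g x * (c x ^ 2) ^ j) = fun x => ∑ k ∈ Finset.range (j + 1),
      ((-1) ^ k * (j.choose k : ℝ)) * (g x * (1 - c x ^ 2) ^ k) := by
    funext x
    rw [nom_binom, Finset.mul_sum]
    apply Finset.sum_congr rfl
    intro k _
    ring
  rw [h1, integral_finsetSum]
  · apply Finset.sum_congr rfl
    intro k _
    rw [integral_const_mul]
  · intro k _
    exact (hint k).const_mul _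

theorem nom_even (j : ℕ) : ∑ k ∈ Finset.range (j + 1), ((-1) ^ k * (j.choose k : ℝ)) *
    (2 / ((2 * (k:ℝ) + 1) * ((Nat.centralBinom k : ℝ) / 4 ^ k))) = 2 / (2 * j + 1) := by
  have h1 : ∫ s in (-1:ℝ)..1, (s ^ 2) ^ j = 2 / (2 * (j:ℝ) + 1) := by
    simp_rw [← pow_mul]
    rw [integral_pow]
    have h2 : (-1:ℝ) ^ (2 * j + 1) = -1 := Odd.neg_one_pow ⟨j, rfl⟩
    rw [h2, one_pow]
    push_cast
    norm_num
  rw [← h1]
  have h3 : (fun s : ℝ => (s ^ 2) ^ j) = fun s => ∑ k ∈ Finset.range (j + 1),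
      ((-1) ^ k * (j.choose k : ℝ)) * (1 - s ^ 2) ^ k := by
    funext s
    rw [nom_binom]
  rw [h3, intervalIntegral.integral_finsetSum]
  · apply Finset.sum_congr rfl
    intro k _
    rw [intervalIntegral.integral_const_mul, nom_int_pow]
  · intro k _
    apply Continuous.intervalIntegrable
    fun_prop

/-- TARGET -/
theorem null_of_moments (C : Set E) (hC : MeasurableSet C) (hCb : Bornology.IsBounded C) (R : ℝ)
    (hR : 0 < R) (hCR : ∀ x ∈ C, R < ‖x‖) (v : E) (hv : ‖v‖ = 1) (hCv : ∀ x ∈ C, inner ℝ x v ≤ R)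
    (h1 : ∀ j : ℕ, ∫ x in C, ‖x‖⁻¹ * (1 - (inner ℝ x v / ‖x‖) ^ 2) ^ j =
      (∫ x in C, ‖x‖⁻¹) / ((2 * j + 1) * (Nat.centralBinom j / 4 ^ j)))
    (h2 : ∀ j : ℕ, ∫ x in C, (‖x‖⁻¹) ^ 2 *
      ((inner ℝ x v / ‖x‖) * (1 - (inner ℝ x v / ‖x‖) ^ 2) ^ j) = 0) :
    volume C = 0 := by
  have hCfin : volume C ≠ ⊤ := hCb.measure_lt_top.ne
  obtain ⟨D0, hD0⟩ := hCb.exists_norm_le
  obtain ⟨D, hDpos, hD⟩ : ∃ D : ℝ, 0 < D ∧ ∀ x ∈ C, ‖x‖ ≤ D :=
    ⟨max D0 1, lt_of_lt_of_le one_pos (le_max_right _ _), fun x hx => (hD0 x hx).trans (le_max_left _ _)⟩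
  obtain ⟨c, hcdef⟩ : ∃ c : E → ℝ, c = fun x => inner ℝ x v / ‖x‖ := ⟨_, rfl⟩
  have hcx : ∀ x, inner ℝ x v / ‖x‖ = c x := fun x => by rw [hcdef]
  have hcm : Measurable c := by
    rw [hcdef]
    fun_prop
  have hc1 : ∀ x, |c x| ≤ 1 := by
    intro x
    rw [hcdef]
    show |inner ℝ x v / ‖x‖| ≤ 1
    rw [abs_div, abs_norm]
    apply div_le_one_of_le₀ _ (norm_nonneg _)
    have := abs_real_inner_le_norm x v
    rwa [hv, mul_one] at this
  have hcsq : ∀ x, 0 ≤ c x ^ 2 ∧ c x ^ 2 ≤ 1 := by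
    intro x
    refine ⟨sq_nonneg _, ?_⟩
    rw [← sq_abs]
    nlinarith [hc1 x, abs_nonneg (c x)]
  have hni : ∀ x ∈ C, 0 < ‖x‖⁻¹ ∧ ‖x‖⁻¹ ≤ R⁻¹ := by
    intro x hx
    have := hCR x hx
    have h0 : 0 < ‖x‖ := hR.trans this
    exact ⟨by positivity, by gcongr⟩
  have hintg : ∀ g : E → ℝ, Measurable g → ∀ B : ℝ, (∀ x ∈ C, |g x| ≤ B) → IntegrableOn g C := by
    intro g hg B hB
    refine Measure.integrableOn_of_bounded hCfin hg.aestronglyMeasurable (M := B) ?_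
    refine (ae_restrict_mem hC).mono ?_
    intro x hx
    exact hB x hx
  have hg1 : ∀ k : ℕ, IntegrableOn (fun x => ‖x‖⁻¹ * (1 - c x ^ 2) ^ k) C := by
    intro k
    refine hintg _ (by fun_prop) R⁻¹ ?_
    intro x hx
    have h3 : 0 ≤ 1 - c x ^ 2 := by linarith [(hcsq x).2]
    have h4 : 1 - c x ^ 2 ≤ 1 := by linarith [(hcsq x).1]
    have h5 : (1 - c x ^ 2) ^ k ≤ 1 := pow_le_one₀ h3 h4
    have h6 : 0 ≤ (1 - c x ^ 2) ^ k := pow_nonneg h3 k
    rw [abs_of_nonneg (mul_nonneg (hni x hx).1.le h6)]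
    calc ‖x‖⁻¹ * (1 - c x ^ 2) ^ k ≤ R⁻¹ * 1 :=
          mul_le_mul (hni x hx).2 h5 h6 (inv_nonneg.mpr hR.le)
      _ = R⁻¹ := mul_one _
  have hg2 : ∀ k : ℕ, IntegrableOn (fun x => ((‖x‖⁻¹) ^ 2 * c x) * (1 - c x ^ 2) ^ k) C := by
    intro k
    refine hintg _ (by fun_prop) ((R⁻¹) ^ 2) ?_
    intro x hx
    have h3 : 0 ≤ 1 - c x ^ 2 := by linarith [(hcsq x).2]
    have h4 : 1 - c x ^ 2 ≤ 1 := by linarith [(hcsq x).1]
    have h5 : (1 - c x ^ 2) ^ k ≤ 1 := pow_le_one₀ h3 h4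
    have h6 : 0 ≤ (1 - c x ^ 2) ^ k := pow_nonneg h3 k
    have h7 : (‖x‖⁻¹) ^ 2 ≤ (R⁻¹) ^ 2 := pow_le_pow_left₀ (hni x hx).1.le (hni x hx).2 2
    rw [abs_mul, abs_mul, abs_of_nonneg h6, abs_of_nonneg (sq_nonneg (‖x‖⁻¹))]
    calc (‖x‖⁻¹) ^ 2 * |c x| * (1 - c x ^ 2) ^ k ≤ (R⁻¹) ^ 2 * 1 * 1 := by
          apply mul_le_mul _ h5 h6 (by positivity)
          exact mul_le_mul h7 (hc1 x) (abs_nonneg _) (by positivity)
      _ = (R⁻¹) ^ 2 := by ring
  obtain ⟨M, hM⟩ : ∃ M : ℝ, M = ∫ x in C, ‖x‖⁻¹ := ⟨_, rfl⟩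
  have hA : ∀ j : ℕ, ∫ x in C, ‖x‖⁻¹ * (c x ^ 2) ^ j = M / (2 * j + 1) := by
    intro j
    rw [nom_comb C c (fun x => ‖x‖⁻¹) hg1 j]
    have h3 : ∀ k : ℕ, ∫ x in C, ‖x‖⁻¹ * (1 - c x ^ 2) ^ k =
        M / 2 * (2 / ((2 * (k:ℝ) + 1) * ((Nat.centralBinom k : ℝ) / 4 ^ k))) := by
      intro k
      have h4 := h1 k
      simp only [hcx] at h4
      rw [h4, ← hM]
      have hB : (0:ℝ) < (Nat.centralBinom k : ℝ) := by exact_mod_cast Nat.centralBinom_pos k
      field_simp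
    simp only [h3]
    have h5 : ∀ k ∈ Finset.range (j + 1), ((-1) ^ k * (j.choose k : ℝ)) *
        (M / 2 * (2 / ((2 * (k:ℝ) + 1) * ((Nat.centralBinom k : ℝ) / 4 ^ k)))) =
        M / 2 * (((-1) ^ k * (j.choose k : ℝ)) *
        (2 / ((2 * (k:ℝ) + 1) * ((Nat.centralBinom k : ℝ) / 4 ^ k)))) := by
      intro k _
      ring
    rw [Finset.sum_congr rfl h5, ← Finset.mul_sum, nom_even]
    have h6 : (2 * (j:ℝ) + 1) ≠ 0 := by positivity
    field_simp
  have hB : ∀ j : ℕ, ∫ x in C, ((‖x‖⁻¹) ^ 2 * c x) * (c x ^ 2) ^ j = 0 := by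
    intro j
    rw [nom_comb C c (fun x => (‖x‖⁻¹) ^ 2 * c x) hg2 j]
    apply Finset.sum_eq_zero
    intro k _
    have h4 := h2 k
    simp only [hcx] at h4
    have h5 : (fun x => (‖x‖⁻¹) ^ 2 * c x * (1 - c x ^ 2) ^ k) =
        fun x => (‖x‖⁻¹) ^ 2 * (c x * (1 - c x ^ 2) ^ k) := by
      funext x
      ring
    rw [h5, h4, mul_zero]
  obtain ⟨P, hP⟩ : ∃ P : Set E, P = {x | 0 < inner ℝ x v} := ⟨_, rfl⟩
  have hinm : Measurable (fun x : E => (inner ℝ x v : ℝ)) := by fun_prop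
  have hPm : MeasurableSet P := by
    rw [hP]
    exact measurableSet_lt measurable_const hinm
  have hPc : ∀ x ∈ C, x ∈ P → 0 < c x := by
    intro x hx hxP
    rw [hP] at hxP
    rw [hcdef]
    have : 0 < ‖x‖ := hR.trans (hCR x hx)
    exact div_pos hxP this
  have hPc' : ∀ x ∈ C, x ∉ P → c x ≤ 0 := by
    intro x hx hxP
    rw [hP] at hxP
    have h3 : inner ℝ x v ≤ 0 := not_lt.mp hxP
    rw [hcdef]
    exact div_nonpos_of_nonpos_of_nonneg h3 (norm_nonneg _)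
  have hi1 : ∀ j : ℕ, IntegrableOn (fun x => ‖x‖⁻¹ * (c x ^ 2) ^ j) C := by
    intro k
    refine hintg _ (by fun_prop) R⁻¹ ?_
    intro x hx
    have h5 : (c x ^ 2) ^ k ≤ 1 := pow_le_one₀ (hcsq x).1 (hcsq x).2
    have h6 : 0 ≤ (c x ^ 2) ^ k := pow_nonneg (hcsq x).1 k
    rw [abs_of_nonneg (mul_nonneg (hni x hx).1.le h6)]
    calc ‖x‖⁻¹ * (c x ^ 2) ^ k ≤ R⁻¹ * 1 :=
          mul_le_mul (hni x hx).2 h5 h6 (inv_nonneg.mpr hR.le)
      _ = R⁻¹ := mul_one _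
  have hi2 : ∀ j : ℕ, IntegrableOn (fun x => ((‖x‖⁻¹) ^ 2 * c x) * (c x ^ 2) ^ j) C := by
    intro k
    refine hintg _ (by fun_prop) ((R⁻¹) ^ 2) ?_
    intro x hx
    have h5 : (c x ^ 2) ^ k ≤ 1 := pow_le_one₀ (hcsq x).1 (hcsq x).2
    have h6 : 0 ≤ (c x ^ 2) ^ k := pow_nonneg (hcsq x).1 k
    have h7 : (‖x‖⁻¹) ^ 2 ≤ (R⁻¹) ^ 2 := pow_le_pow_left₀ (hni x hx).1.le (hni x hx).2 2
    rw [abs_mul, abs_mul, abs_of_nonneg h6, abs_of_nonneg (sq_nonneg (‖x‖⁻¹))]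
    calc (‖x‖⁻¹) ^ 2 * |c x| * (c x ^ 2) ^ k ≤ (R⁻¹) ^ 2 * 1 * 1 := by
          apply mul_le_mul _ h5 h6 (by positivity)
          exact mul_le_mul h7 (hc1 x) (abs_nonneg _) (by positivity)
      _ = (R⁻¹) ^ 2 := by ring
  have hT : ∀ j : ℕ, 1 ≤ j → ∫ x in C ∩ P, ‖x‖⁻¹ * (c x ^ 2) ^ j ≤
      2 * Real.pi * (R ^ 2 / ((2 * j - 1) * (2 * j + 1))) := by
    intro j hj
    have hj' : (1:ℝ) ≤ j := by exact_mod_cast hj
    have h3 := nom_T C R hR hCR v hv hCv j hj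
    rw [← hP] at h3
    simp only [hcx] at h3
    rw [← ofReal_integral_eq_lintegral_ofReal ((hi1 j).mono_set inter_subset_left)] at h3
    · refine (ENNReal.ofReal_le_ofReal_iff ?_).mp h3
      have h4 : (0:ℝ) < 2 * j - 1 := by linarith
      positivity
    · refine Filter.Eventually.of_forall ?_
      intro x
      have h6 : 0 ≤ (c x ^ 2) ^ j := pow_nonneg (hcsq x).1 j
      show 0 ≤ ‖x‖⁻¹ * (c x ^ 2) ^ j
      positivity
  have hmain : ∀ j : ℕ, 1 ≤ j → M / (2 * (j + 1 : ℕ) + 1) ≤ (1 + D * R⁻¹) *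
      (2 * Real.pi * (R ^ 2 / ((2 * j - 1) * (2 * j + 1)))) := by
    intro j hj
    have hTj := hT j hj
    have e1 := integral_inter_add_sdiff hPm (hi1 (j + 1))
    have e2 := integral_inter_add_sdiff hPm (hi2 j)
    rw [hA (j + 1)] at e1
    rw [hB j] at e2
    have e3 : ∫ x in C ∩ P, ‖x‖⁻¹ * (c x ^ 2) ^ (j + 1) ≤ ∫ x in C ∩ P, ‖x‖⁻¹ * (c x ^ 2) ^ j := by
      apply setIntegral_mono_on ((hi1 (j + 1)).mono_set inter_subset_left)
        ((hi1 j).mono_set inter_subset_left) (hC.inter hPm)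
      intro x hx
      have h6 : 0 ≤ (c x ^ 2) ^ j := pow_nonneg (hcsq x).1 j
      have h7 := (hni x hx.1).1.le
      apply mul_le_mul_of_nonneg_left _ h7
      rw [pow_succ]
      nlinarith [(hcsq x).2]
    have e4 : ∫ x in C \ P, ‖x‖⁻¹ * (c x ^ 2) ^ (j + 1) ≤
        ∫ x in C \ P, (-D) * (((‖x‖⁻¹) ^ 2 * c x) * (c x ^ 2) ^ j) := by
      apply setIntegral_mono_on ((hi1 (j + 1)).mono_set sdiff_subset)
        (((hi2 j).mono_set sdiff_subset).const_mul _) (hC.diff hPm)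
      intro x hx
      have h6 : 0 ≤ (c x ^ 2) ^ j := pow_nonneg (hcsq x).1 j
      have h7 := (hni x hx.1).1
      have h8 := hPc' x hx.1 hx.2
      have h9 : -1 ≤ c x := (abs_le.mp (hc1 x)).1
      have hx0 : 0 < ‖x‖ := hR.trans (hCR x hx.1)
      have h10 : 1 ≤ D * ‖x‖⁻¹ := by
        rw [← div_eq_mul_inv, le_div_iff₀ hx0, one_mul]
        exact hD x hx.1
      have h11 : c x ^ 2 ≤ -(c x) := by nlinarith
      calc ‖x‖⁻¹ * (c x ^ 2) ^ (j + 1) = ‖x‖⁻¹ * (c x ^ 2) ^ j * c x ^ 2 := by ring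
        _ ≤ ‖x‖⁻¹ * (c x ^ 2) ^ j * (-(c x)) := by
            apply mul_le_mul_of_nonneg_left h11 (by positivity)
        _ = (‖x‖⁻¹ * (c x ^ 2) ^ j * (-(c x))) * 1 := by ring
        _ ≤ (‖x‖⁻¹ * (c x ^ 2) ^ j * (-(c x))) * (D * ‖x‖⁻¹) := by
            apply mul_le_mul_of_nonneg_left h10
            have : 0 ≤ -(c x) := by linarith
            positivity
        _ = (-D) * (((‖x‖⁻¹) ^ 2 * c x) * (c x ^ 2) ^ j) := by ring
    rw [integral_const_mul] at e4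
    have e5 : ∫ x in C ∩ P, ((‖x‖⁻¹) ^ 2 * c x) * (c x ^ 2) ^ j ≤
        ∫ x in C ∩ P, R⁻¹ * (‖x‖⁻¹ * (c x ^ 2) ^ j) := by
      apply setIntegral_mono_on ((hi2 j).mono_set inter_subset_left)
        (((hi1 j).mono_set inter_subset_left).const_mul _) (hC.inter hPm)
      intro x hx
      have h6 : 0 ≤ (c x ^ 2) ^ j := pow_nonneg (hcsq x).1 j
      have h7 := (hni x hx.1).1
      have h7' := (hni x hx.1).2
      have h8 := hPc x hx.1 hx.2
      have h9 : c x ≤ 1 := (abs_le.mp (hc1 x)).2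
      calc ((‖x‖⁻¹) ^ 2 * c x) * (c x ^ 2) ^ j = (‖x‖⁻¹ * c x) * (‖x‖⁻¹ * (c x ^ 2) ^ j) := by ring
        _ ≤ R⁻¹ * (‖x‖⁻¹ * (c x ^ 2) ^ j) := by
            apply mul_le_mul_of_nonneg_right _ (by positivity)
            calc ‖x‖⁻¹ * c x ≤ R⁻¹ * 1 := mul_le_mul h7' h9 h8.le (inv_nonneg.mpr hR.le)
              _ = R⁻¹ := mul_one _
    rw [integral_const_mul] at e5
    have hRi : 0 < R⁻¹ := inv_pos.mpr hR
    have e6 : (-D) * ∫ x in C \ P, ((‖x‖⁻¹) ^ 2 * c x) * (c x ^ 2) ^ j =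
        D * ∫ x in C ∩ P, ((‖x‖⁻¹) ^ 2 * c x) * (c x ^ 2) ^ j := by
      have : ∫ x in C \ P, ((‖x‖⁻¹) ^ 2 * c x) * (c x ^ 2) ^ j =
          -∫ x in C ∩ P, ((‖x‖⁻¹) ^ 2 * c x) * (c x ^ 2) ^ j := by linarith
      rw [this]
      ring
    have e7 : D * ∫ x in C ∩ P, ((‖x‖⁻¹) ^ 2 * c x) * (c x ^ 2) ^ j ≤
        D * (R⁻¹ * ∫ x in C ∩ P, ‖x‖⁻¹ * (c x ^ 2) ^ j) :=
      mul_le_mul_of_nonneg_left e5 hDpos.le
    have e8 : D * (R⁻¹ * ∫ x in C ∩ P, ‖x‖⁻¹ * (c x ^ 2) ^ j) ≤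
        D * (R⁻¹ * (2 * Real.pi * (R ^ 2 / ((2 * j - 1) * (2 * j + 1))))) := by
      apply mul_le_mul_of_nonneg_left _ hDpos.le
      exact mul_le_mul_of_nonneg_left hTj hRi.le
    rw [← e1]
    have e9 : (1 + D * R⁻¹) * (2 * Real.pi * (R ^ 2 / ((2 * j - 1) * (2 * j + 1)))) =
        (2 * Real.pi * (R ^ 2 / ((2 * j - 1) * (2 * j + 1)))) +
        D * (R⁻¹ * (2 * Real.pi * (R ^ 2 / ((2 * j - 1) * (2 * j + 1))))) := by ring
    rw [e9]
    linarith
  have hM0 : 0 ≤ M := by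
    rw [hM]
    exact integral_nonneg (fun x => by positivity)
  have hMle : M ≤ 0 := by
    by_contra hpos
    have hpos' : 0 < M := not_le.mp hpos
    obtain ⟨K, hK⟩ : ∃ K : ℝ, K = (1 + D * R⁻¹) * (2 * Real.pi * R ^ 2) := ⟨_, rfl⟩
    have hKpos : 0 < K := by
      rw [hK]
      positivity
    obtain ⟨j0, hj0⟩ := exists_nat_gt (3 * K / M)
    have hj2 : (2:ℝ) ≤ ((j0 + 2 : ℕ) : ℝ) := by
      push_cast
      linarith [(Nat.cast_nonneg j0 : (0:ℝ) ≤ j0)]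
    have h3 := hmain (j0 + 2) (by omega)
    obtain ⟨t, ht⟩ : ∃ t : ℝ, t = ((j0 + 2 : ℕ) : ℝ) := ⟨_, rfl⟩
    have h4 : 3 * K / M < t := by
      rw [ht]
      push_cast
      linarith
    rw [Nat.cast_add (j0 + 2) 1, ← ht] at h3
    rw [← ht] at hj2
    rw [div_lt_iff₀ hpos'] at h4
    have h5 : (1 + D * R⁻¹) * (2 * Real.pi * (R ^ 2 / ((2 * t - 1) * (2 * t + 1)))) =
        K / ((2 * t - 1) * (2 * t + 1)) := by
      rw [hK]
      ring
    have h6 : (0:ℝ) < 2 * t - 1 := by linarith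
    have h7 : (0:ℝ) < 2 * t + 1 := by linarith
    rw [h5, Nat.cast_one, div_le_div_iff₀ (by linarith) (by positivity)] at h3
    have h8 : 2 * (t + 1) + 1 ≤ 3 * (2 * t - 1) := by linarith
    have h9 : K * (2 * (t + 1) + 1) ≤ K * (3 * (2 * t - 1)) :=
      mul_le_mul_of_nonneg_left h8 hKpos.le
    have h10 : (M * (2 * t + 1)) * (2 * t - 1) ≤ (3 * K) * (2 * t - 1) := by linarith
    have h11 := le_of_mul_le_mul_right h10 h6
    nlinarith
  have hMz : M = 0 := le_antisymm hMle hM0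
  have hint0 : IntegrableOn (fun x : E => ‖x‖⁻¹) C := by
    have := hi1 0
    simpa using this
  rw [hM] at hMz
  have h3 := (setIntegral_eq_zero_iff_of_nonneg_ae
    (Filter.Eventually.of_forall (fun x => by positivity)) hint0).mp hMz
  have h4 : ∀ᵐ x ∂(volume.restrict C), False := by
    filter_upwards [h3, ae_restrict_mem hC] with x hx hxC
    exact (hni x hxC).1.ne' hx
  rw [Filter.eventually_false_iff_eq_bot, ae_eq_bot, Measure.restrict_eq_zero] at h4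
  exact h4


end FB.J_j9

alias FB.null_of_moments := FB.J_j9.null_of_moments
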