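import Pool.Agent.Helper240.FB.Defs
import Pool.Agent.Helper240.FB.J10
import Pool.Agent.Helper240.FB.J7
import Pool.Agent.Helper240.FB.J8
import Pool.Agent.Helper240.FB.J9

open Filter Topology Set MeasureTheory

namespace FB.J_j11















/-- TARGET -/
theorem ball_of_levels (K : Set E) (hK : IsCompact K) (hc : Convex ℝ K)
    (hi : (interior K).Nonempty) (T : Set ℝ) (hT : T.Infinite)
    (h : ∀ τ ∈ T, ∃ a : ℝ, 0 < a ∧ a < (volume K).toReal ∧
      ∀ u : E, ‖u‖ = 1 → (volume (cut K u τ)).toReal = a) :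
    ∃ R : ℝ, 0 < R ∧ K = Metric.closedBall 0 R := by
  obtain ⟨R, v, hR, hv, hball, hKv, hTR⟩ := inball K hK hc hi T hT.nonempty (fun τ hτ u hu => by
    obtain ⟨a, ha0, ha1, ha2⟩ := h τ hτ
    rw [ha2 u hu]
    exact ⟨ha0, ha1⟩)
  refine ⟨R, hR, Subset.antisymm ?_ hball⟩
  have hC : MeasurableSet (K \ Metric.closedBall 0 R) :=
    hK.measurableSet.diff Metric.isClosed_closedBall.measurableSet
  have hCb : Bornology.IsBounded (K \ Metric.closedBall 0 R) := hK.isBounded.subset sdiff_subset
  have hCR : ∀ x ∈ K \ Metric.closedBall (0 : E) R, R < ‖x‖ := by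
    rintro x ⟨_, hx⟩
    rw [Metric.mem_closedBall, dist_zero_right, not_le] at hx
    exact hx
  have hmom := fun j => moments (K \ Metric.closedBall 0 R) hC hCb R hR hCR T hT hTR (fun τ hτ => by
    obtain ⟨a, _, _, ha⟩ := h τ hτ
    exact diff_cap K hK R τ hball a ha) v hv j
  have hnull := null_of_moments (K \ Metric.closedBall 0 R) hC hCb R hR hCR v hv
    (fun x hx => hKv x hx.1) (fun j => (hmom j).1) (fun j => (hmom j).2)
  intro x hx
  by_contra hxR
  rw [Metric.mem_closedBall, dist_zero_right, not_le] at hxR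
  have hx0 : 0 < ‖x‖ := hR.trans hxR
  have hint0 : (0 : E) ∈ interior K := interior_mono hball (by
    rw [interior_closedBall _ hR.ne']
    exact Metric.mem_ball_self hR)
  have hr1 : R / ‖x‖ < 1 := (div_lt_one hx0).2 hxR
  have hr0 : 0 < R / ‖x‖ := div_pos hR hx0
  have hy : ((R / ‖x‖ + 1) / 2) • x ∈ interior K := by
    apply hc.openSegment_self_interior_subset_interior hx hint0
    refine ⟨(R / ‖x‖ + 1) / 2, 1 - (R / ‖x‖ + 1) / 2, by linarith, by linarith, by ring, ?_⟩
    rw [smul_zero, add_zero]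
  have hyn : ((R / ‖x‖ + 1) / 2) • x ∉ Metric.closedBall (0 : E) R := by
    rw [Metric.mem_closedBall, dist_zero_right, not_le, norm_smul, Real.norm_eq_abs,
      abs_of_pos (by linarith)]
    have : (R / ‖x‖ + 1) / 2 * ‖x‖ = (R + ‖x‖) / 2 := by
      field_simp
    rw [this]
    linarith
  have hopen : IsOpen (interior K ∩ (Metric.closedBall (0 : E) R)ᶜ) :=
    isOpen_interior.inter Metric.isClosed_closedBall.isOpen_compl
  have hpos := hopen.measure_pos volume ⟨_, hy, hyn⟩
  have hsub : interior K ∩ (Metric.closedBall (0 : E) R)ᶜ ⊆ K \ Metric.closedBall (0 : E) R :=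
    fun z hz => ⟨interior_subset hz.1, hz.2⟩
  exact hpos.ne' (measure_mono_null hsub hnull)


end FB.J_j11

alias FB.ball_of_levels := FB.J_j11.ball_of_levels
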