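import Pool.Agent.Helper240.FB.Defs

open Filter Topology Set MeasureTheory

namespace FB.J_j3a










/-- TARGET -/
theorem level (K : Set E) (hK : IsCompact K) (hc : Convex ℝ K) (hi : (interior K).Nonempty)
    (u : E) (hu : ‖u‖ = 1) (d : ℝ) (hd : d ∈ Ioo (0 : ℝ) 1) :
    ∃! t : ℝ, volume (cut K u t) = ENNReal.ofReal d * volume K := by
  have hVfin : volume K ≠ ⊤ := hK.measure_lt_top.ne
  have hVpos : 0 < volume K :=
    lt_of_lt_of_le (isOpen_interior.measure_pos volume hi) (measure_mono interior_subset)
  obtain ⟨v, hvd⟩ : ∃ v, v = (volume K).toReal := ⟨_, rfl⟩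
  have hv : 0 < v := by rw [hvd]; exact ENNReal.toReal_pos hVpos.ne' hVfin
  have hKm : MeasurableSet K := hK.measurableSet
  have huu : inner ℝ u u = (1:ℝ) := by rw [real_inner_self_eq_norm_sq, hu]; norm_num
  have hcont : Continuous (fun x : E => inner ℝ x u) := by fun_prop
  have hSm : ∀ t : ℝ, MeasurableSet {x : E | inner ℝ x u ≤ t} := fun t =>
    (isClosed_le hcont continuous_const).measurableSet
  have hcf : ∀ t, volume (cut K u t) ≠ ⊤ := fun t =>
    ne_top_of_le_ne_top hVfin (measure_mono inter_subset_left)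
  have hnull0 : volume {x : E | inner ℝ x u = 0} = 0 := by
    have h1 := Measure.addHaar_submodule (volume : Measure E) (LinearMap.ker (innerₛₗ ℝ u)) (by
      intro h
      have h2 : u ∈ LinearMap.ker (innerₛₗ ℝ u) := by rw [h]; trivial
      rw [LinearMap.mem_ker] at h2
      simp only [innerₛₗ_apply_apply] at h2
      rw [huu] at h2
      exact one_ne_zero h2)
    refine measure_mono_null ?_ h1
    intro x hx
    simp only [SetLike.mem_coe, LinearMap.mem_ker, innerₛₗ_apply_apply]
    rw [real_inner_comm]
    exact hx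
  have hnull : ∀ t : ℝ, volume {x : E | inner ℝ x u = t} = 0 := by
    intro t
    rw [← measure_preimage_add volume (t • u) {x : E | inner ℝ x u = t}]
    convert hnull0 using 2
    ext x
    simp only [mem_preimage, mem_ofPred_eq, inner_add_left, inner_smul_left, huu]
    simp
  obtain ⟨g, hgd⟩ : ∃ g : ℝ → ℝ, ∀ t, g t = (volume (cut K u t)).toReal := ⟨_, fun _ => rfl⟩
  have hg : Continuous g := by
    have hge : g = fun t => ∫ x in K, ({x : E | inner ℝ x u ≤ t}).indicator (1 : E → ℝ) x := by
      funext t
      rw [integral_indicator_one (hSm t), measureReal_def, Measure.restrict_apply (hSm t),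
        inter_comm, hgd]
      rfl
    rw [hge, continuous_iff_continuousAt]
    intro t
    refine continuousAt_of_dominated (bound := fun _ => (1:ℝ)) ?_ ?_ ?_ ?_
    · exact Eventually.of_forall fun s =>
        (measurable_one.indicator (hSm s)).aestronglyMeasurable
    · refine Eventually.of_forall fun s => Eventually.of_forall fun x => ?_
      by_cases h : x ∈ {x : E | inner ℝ x u ≤ s}
      · rw [indicator_of_mem h]; simp
      · rw [indicator_of_notMem h]; simp
    · exact integrableOn_const hVfin
    · have h1 : ∀ᵐ x ∂(volume : Measure E), x ∉ {x : E | inner ℝ x u = t} :=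
        measure_eq_zero_iff_ae_notMem.1 (hnull t)
      refine (ae_restrict_of_ae h1).mono fun x hx => ?_
      have hx' : inner ℝ x u ≠ t := hx
      rcases lt_or_gt_of_ne hx' with h | h
      · have h2 : (fun _ : ℝ => (1:ℝ)) =ᶠ[𝓝 t]
            fun s => ({x : E | inner ℝ x u ≤ s}).indicator (1 : E → ℝ) x := by
          filter_upwards [Ioi_mem_nhds h] with s hs
          have hm : x ∈ {x : E | inner ℝ x u ≤ s} := by
            rw [mem_ofPred_eq]
            exact le_of_lt (mem_Ioi.1 hs)
          rw [indicator_of_mem hm]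
          rfl
        exact continuousAt_const.congr h2
      · have h2 : (fun _ : ℝ => (0:ℝ)) =ᶠ[𝓝 t]
            fun s => ({x : E | inner ℝ x u ≤ s}).indicator (1 : E → ℝ) x := by
          filter_upwards [Iio_mem_nhds h] with s hs
          have hm : x ∉ {x : E | inner ℝ x u ≤ s} := by
            rw [mem_ofPred_eq]
            exact not_le.2 (mem_Iio.1 hs)
          rw [indicator_of_notMem hm]
        exact continuousAt_const.congr h2
  obtain ⟨R, hR⟩ := hK.isBounded.exists_norm_le
  have hRx : ∀ x ∈ K, |inner ℝ x u| ≤ R := by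
    intro x hx
    have h1 := abs_real_inner_le_norm x u
    rw [hu, mul_one] at h1
    exact h1.trans (hR x hx)
  have hR0 : 0 ≤ R := by
    obtain ⟨x, hx⟩ := hi
    exact (norm_nonneg x).trans (hR x (interior_subset hx))
  have hg1 : g (-R - 1) = 0 := by
    have : cut K u (-R - 1) = ∅ := by
      ext x
      simp only [cut, mem_inter_iff, mem_ofPred_eq, mem_empty_iff_false, iff_false, not_and, not_le]
      intro hx
      have := (abs_le.1 (hRx x hx)).1
      linarith
    rw [hgd, this]; simp
  have hg2 : g (R + 1) = v := by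
    have : cut K u (R + 1) = K := by
      ext x
      simp only [cut, mem_inter_iff, mem_ofPred_eq, and_iff_left_iff_imp]
      intro hx
      have := (abs_le.1 (hRx x hx)).2
      linarith
    rw [hgd, this, hvd]
  have hex : ∃ t, g t = d * v := by
    have h1 := intermediate_value_Icc (f := g) (by linarith : -R - 1 ≤ R + 1) hg.continuousOn
    rw [hg1, hg2] at h1
    have h2 : d * v ∈ Icc 0 v := ⟨mul_nonneg hd.1.le hv.le, by nlinarith [hd.2]⟩
    obtain ⟨t, _, ht⟩ := h1 h2
    exact ⟨t, ht⟩
  have hiff : ∀ t, volume (cut K u t) = ENNReal.ofReal d * volume K ↔ g t = d * v := by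
    intro t
    have h1 : ENNReal.ofReal d * volume K = ENNReal.ofReal (d * v) := by
      rw [ENNReal.ofReal_mul hd.1.le, hvd, ENNReal.ofReal_toReal hVfin]
    rw [h1, hgd]
    constructor
    · intro h
      rw [h, ENNReal.toReal_ofReal (mul_nonneg hd.1.le hv.le)]
    · intro h
      rw [← h, ENNReal.ofReal_toReal (hcf t)]
  have hlt : ∀ s t, s < t → g s = d * v → g t = d * v → False := by
    intro s t hst hs ht
    -- points
    have ha : ∃ a ∈ K, inner ℝ a u ≤ s := by
      by_contra hcon
      push Not at hcon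
      have : cut K u s = ∅ := by
        ext x
        simp only [cut, mem_inter_iff, mem_ofPred_eq, mem_empty_iff_false, iff_false, not_and,
          not_le]
        exact fun hx => hcon x hx
      rw [hgd, this] at hs
      simp only [measure_empty, ENNReal.toReal_zero] at hs
      have := mul_pos hd.1 hv
      linarith
    have hb : ∃ b ∈ K, t < inner ℝ b u := by
      by_contra hcon
      push Not at hcon
      have : cut K u t = K := by
        ext x
        simp only [cut, mem_inter_iff, mem_ofPred_eq, and_iff_left_iff_imp]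
        exact fun hx => hcon x hx
      rw [hgd, this, ← hvd] at ht
      nlinarith [hd.2]
    obtain ⟨a, haK, has⟩ := ha
    obtain ⟨b, hbK, hbt⟩ := hb
    have hcl : K ⊆ closure (interior K) := by
      rw [hc.closure_interior_eq_closure_of_nonempty_interior hi]
      exact subset_closure
    obtain ⟨a', ha'1, ha'2⟩ : ∃ a', inner ℝ a' u < (s + t) / 2 ∧ a' ∈ interior K := by
      have h1 := mem_closure_iff.1 (hcl haK) {x : E | inner ℝ x u < (s + t) / 2}
        (isOpen_lt hcont continuous_const) (by
          change inner ℝ a u < (s + t) / 2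
          linarith)
      obtain ⟨y, hy1, hy2⟩ := h1
      exact ⟨y, hy1, hy2⟩
    obtain ⟨b', hb'1, hb'2⟩ : ∃ b', t < inner ℝ b' u ∧ b' ∈ interior K := by
      have h1 := mem_closure_iff.1 (hcl hbK) {x : E | t < inner ℝ x u}
        (isOpen_lt continuous_const hcont) hbt
      obtain ⟨y, hy1, hy2⟩ := h1
      exact ⟨y, hy1, hy2⟩
    obtain ⟨α, hα⟩ : ∃ α : ℝ, α = inner ℝ a' u := ⟨_, rfl⟩
    obtain ⟨β, hβ⟩ : ∃ β : ℝ, β = inner ℝ b' u := ⟨_, rfl⟩
    rw [← hα] at ha'1
    rw [← hβ] at hb'1
    have hβα : 0 < β - α := by linarith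
    obtain ⟨l, hl⟩ : ∃ l, l = ((s + 3 * t) / 4 - α) / (β - α) := ⟨_, rfl⟩
    have hl0 : 0 ≤ l := by rw [hl]; exact div_nonneg (by linarith) hβα.le
    have hl1 : l ≤ 1 := by rw [hl, div_le_one hβα]; linarith
    have hlm : l * (β - α) = (s + 3 * t) / 4 - α := by
      rw [hl]; field_simp
    obtain ⟨c, hcd⟩ : ∃ c : E, c = (1 - l) • a' + l • b' := ⟨_, rfl⟩
    have hcint : c ∈ interior K := by
      rw [hcd]
      exact hc.interior ha'2 hb'2 (by linarith) hl0 (by ring)
    have hcu : inner ℝ c u = (s + 3 * t) / 4 := by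
      rw [hcd, inner_add_left, real_inner_smul_left, real_inner_smul_left, ← hα, ← hβ]
      linarith
    have hU : IsOpen (interior K ∩ {x : E | s < inner ℝ x u} ∩ {x : E | inner ℝ x u < t}) :=
      (isOpen_interior.inter (isOpen_lt continuous_const hcont)).inter
        (isOpen_lt hcont continuous_const)
    have hUne : (interior K ∩ {x : E | s < inner ℝ x u} ∩ {x : E | inner ℝ x u < t}).Nonempty := by
      refine ⟨c, ⟨hcint, ?_⟩, ?_⟩
      · change s < inner ℝ c u
        rw [hcu]; linarith
      · change inner ℝ c u < t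
        rw [hcu]; linarith
    have hUpos := hU.measure_pos volume hUne
    have hdisj : Disjoint (cut K u s)
        (interior K ∩ {x : E | s < inner ℝ x u} ∩ {x : E | inner ℝ x u < t}) := by
      rw [Set.disjoint_left]
      rintro x ⟨_, hx1⟩ ⟨⟨_, hx2⟩, _⟩
      rw [mem_ofPred_eq] at hx1 hx2
      linarith
    have hsubs : cut K u s ∪
        (interior K ∩ {x : E | s < inner ℝ x u} ∩ {x : E | inner ℝ x u < t}) ⊆ cut K u t := by
      rintro x (⟨hx1, hx2⟩ | ⟨⟨hx1, _⟩, hx2⟩)
      · refine ⟨hx1, ?_⟩
        rw [mem_ofPred_eq] at hx2 ⊢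
        linarith
      · refine ⟨interior_subset hx1, ?_⟩
        rw [mem_ofPred_eq] at hx2 ⊢
        linarith
    have h1 := measure_mono (μ := volume) hsubs
    rw [measure_union hdisj hU.measurableSet] at h1
    have h2 : volume (cut K u s) = volume (cut K u t) := by
      rw [(hiff s).2 hs, (hiff t).2 ht]
    rw [← h2] at h1
    have h3 : volume (cut K u s) < volume (cut K u s) +
        volume (interior K ∩ {x : E | s < inner ℝ x u} ∩ {x : E | inner ℝ x u < t}) :=
      ENNReal.lt_add_right (hcf s) hUpos.ne'
    exact absurd h1 (not_le.2 h3)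
  obtain ⟨t, ht⟩ := hex
  refine ⟨t, (hiff t).2 ht, fun s hs => ?_⟩
  have hs' := (hiff s).1 hs
  rcases lt_trichotomy s t with h | h | h
  · exact (hlt s t h hs' ht).elim
  · exact h
  · exact (hlt t s h ht hs').elim


end FB.J_j3a

alias FB.level := FB.J_j3a.level
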