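import Pool.Agent.Helper240.FB.Defs

open Filter Topology Set MeasureTheory

namespace FB.J_j2










/-- TARGET -/
theorem bathtub (K : Set E) (hK : IsCompact K) (u : E) (t : ℝ) (A : Set E)
    (hA : MeasurableSet A) (hAK : A ⊆ K) (hv : volume A = volume (cut K u t)) :
    ∫ x in cut K u t, inner ℝ x u ≤ ∫ x in A, inner ℝ x u := by
  have hg : Continuous (fun x : E => inner ℝ x u) := by fun_prop
  have hCc : IsClosed {x : E | inner ℝ x u ≤ t} := isClosed_le hg continuous_const
  have hCm : MeasurableSet (cut K u t) := hK.measurableSet.inter hCc.measurableSet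
  have hCK : cut K u t ⊆ K := Set.inter_subset_left
  have hKfin : volume K < ⊤ := hK.measure_lt_top
  have hgK : IntegrableOn (fun x : E => inner ℝ x u) K volume :=
    hg.continuousOn.integrableOn_compact hK
  have hgC : IntegrableOn (fun x : E => inner ℝ x u) (cut K u t) volume := hgK.mono_set hCK
  have hgA : IntegrableOn (fun x : E => inner ℝ x u) A volume := hgK.mono_set hAK
  have hcC : IntegrableOn (fun _ : E => t) (cut K u t) volume :=
    integrableOn_const ((measure_mono hCK).trans_lt hKfin).ne
  have hcA : IntegrableOn (fun _ : E => t) A volume :=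
    integrableOn_const ((measure_mono hAK).trans_lt hKfin).ne
  have key : ∫ x in cut K u t, (inner ℝ x u - t) ≤ ∫ x in A, (inner ℝ x u - t) := by
    rw [← integral_indicator hCm, ← integral_indicator hA]
    apply integral_mono
    · exact (integrable_indicator_iff hCm).2 (hgC.sub hcC)
    · exact (integrable_indicator_iff hA).2 (hgA.sub hcA)
    · intro x
      by_cases hxC : x ∈ cut K u t
      · have hle : inner ℝ x u ≤ t := hxC.2
        by_cases hxA : x ∈ A
        · simp only [Set.indicator_of_mem hxC, Set.indicator_of_mem hxA]; exact le_refl _
        · simp only [Set.indicator_of_mem hxC, Set.indicator_of_notMem hxA]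
          linarith
      · by_cases hxA : x ∈ A
        · have hnot : ¬ (inner ℝ x u ≤ t) := fun h => hxC ⟨hAK hxA, h⟩
          simp only [Set.indicator_of_notMem hxC, Set.indicator_of_mem hxA]
          linarith [lt_of_not_ge hnot]
        · simp only [Set.indicator_of_notMem hxC, Set.indicator_of_notMem hxA]; exact le_refl _
  rw [integral_sub hgC hcC, integral_sub hgA hcA, setIntegral_const, setIntegral_const] at key
  have hr : volume.real (cut K u t) = volume.real A := by
    simp only [Measure.real, hv]
  rw [hr] at key
  linarith


end FB.J_j2

alias FB.bathtub := FB.J_j2.bathtub
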