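import Pool.Agent.Helper240.FB.Defs
import Pool.Agent.Helper240.FB.J3a

open Filter Topology Set MeasureTheory

namespace FB.J_j3b











/-- TARGET -/
theorem level_cont (K : Set E) (hK : IsCompact K) (hc : Convex ℝ K) (hi : (interior K).Nonempty)
    (u : E) (hu : ‖u‖ = 1) (d : ℝ) (hd : d ∈ Ioo (0 : ℝ) 1) (ε : ℝ) (hε : 0 < ε) :
    ∃ δ : ℝ, 0 < δ ∧ ∀ d' ∈ Ioo (0 : ℝ) 1, |d' - d| < δ → ∀ t t' : ℝ,
      volume (cut K u t) = ENNReal.ofReal d * volume K →
      volume (cut K u t') = ENNReal.ofReal d' * volume K → |t' - t| < ε := by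
  have hKfin : volume K ≠ ⊤ := hK.measure_lt_top.ne
  have hKpos : 0 < (volume K).toReal := by
    apply ENNReal.toReal_pos _ hKfin
    have h1 : 0 < volume (interior K) := isOpen_interior.measure_pos volume hi
    exact (lt_of_lt_of_le h1 (measure_mono interior_subset)).ne'
  have hcutle : ∀ s, volume (cut K u s) ≤ volume K := fun s => measure_mono inter_subset_left
  have hcutfin : ∀ s, volume (cut K u s) ≠ ⊤ := fun s => ne_top_of_le_ne_top hKfin (hcutle s)
  have hmono : ∀ s s', s ≤ s' → (volume (cut K u s)).toReal ≤ (volume (cut K u s')).toReal := by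
    intro s s' hss
    apply ENNReal.toReal_mono (hcutfin s')
    apply measure_mono
    intro x hx
    exact ⟨hx.1, le_trans hx.2 hss⟩
  have hreal : ∀ (s d' : ℝ), 0 ≤ d' → volume (cut K u s) = ENNReal.ofReal d' * volume K →
      (volume (cut K u s)).toReal = d' * (volume K).toReal := by
    intro s d' hd' h
    rw [h, ENNReal.toReal_mul, ENNReal.toReal_ofReal hd']
  have hreal' : ∀ (s d' : ℝ), 0 ≤ d' → (volume (cut K u s)).toReal = d' * (volume K).toReal →
      volume (cut K u s) = ENNReal.ofReal d' * volume K := by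
    intro s d' hd' h
    rw [← ENNReal.toReal_eq_toReal_iff' (hcutfin s) (ENNReal.mul_ne_top ENNReal.ofReal_ne_top hKfin),
      ENNReal.toReal_mul, ENNReal.toReal_ofReal hd', h]
  obtain ⟨t0, ht0, huniq⟩ := level K hK hc hi u hu d hd
  have ht0r := hreal t0 d hd.1.le ht0
  have hg1 : d * (volume K).toReal < (volume (cut K u (t0 + ε))).toReal := by
    apply lt_of_le_of_ne
    · rw [← ht0r]
      exact hmono _ _ (by linarith)
    · intro h
      have h1 := huniq (t0 + ε) (hreal' _ d hd.1.le h.symm)
      linarith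
  have hg2 : (volume (cut K u (t0 - ε))).toReal < d * (volume K).toReal := by
    apply lt_of_le_of_ne
    · rw [← ht0r]
      exact hmono _ _ (by linarith)
    · intro h
      have h1 := huniq (t0 - ε) (hreal' _ d hd.1.le h)
      linarith
  refine ⟨min (((volume (cut K u (t0 + ε))).toReal - d * (volume K).toReal) / (volume K).toReal)
    ((d * (volume K).toReal - (volume (cut K u (t0 - ε))).toReal) / (volume K).toReal),
    lt_min (div_pos (by linarith) hKpos) (div_pos (by linarith) hKpos), ?_⟩
  intro d' hd' hdd t t' ht ht'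
  have htt : t = t0 := huniq t ht
  subst htt
  have h1 := lt_of_lt_of_le hdd (min_le_left _ _)
  have h2 := lt_of_lt_of_le hdd (min_le_right _ _)
  rw [lt_div_iff₀ hKpos] at h1 h2
  have ht'r := hreal t' d' hd'.1.le ht'
  have ha1 : (d' - d) * (volume K).toReal ≤ |d' - d| * (volume K).toReal :=
    mul_le_mul_of_nonneg_right (le_abs_self _) hKpos.le
  have ha2 : -(d' - d) * (volume K).toReal ≤ |d' - d| * (volume K).toReal :=
    mul_le_mul_of_nonneg_right (neg_le_abs _) hKpos.le
  rw [abs_lt]
  constructor
  · by_contra hcon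
    have h3 := hmono t' (t - ε) (by linarith)
    rw [ht'r] at h3
    linarith
  · by_contra hcon
    have h3 := hmono (t + ε) t' (by linarith)
    rw [ht'r] at h3
    linarith


end FB.J_j3b

alias FB.level_cont := FB.J_j3b.level_cont
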