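import Pool.Agent.Helper240.FB.Defs

open Filter Topology Set MeasureTheory

namespace FB.J_j3c










theorem slab_meas (K : Set E) (hK : IsCompact K) (u : E) (t : ℝ) : MeasurableSet (cut K u t) := by
  unfold cut
  apply hK.isClosed.measurableSet.inter
  apply IsClosed.measurableSet
  exact isClosed_le (by fun_prop) continuous_const

theorem slab_aux (K : Set E) (hK : IsCompact K) (u : E) (s s' t : ℝ) (h1 : s ≤ t) (h2 : t ≤ s') :
    |(∫ x in cut K u s', inner ℝ x u) - (∫ x in cut K u s, inner ℝ x u) -
        t * ((volume (cut K u s')).toReal - (volume (cut K u s)).toReal)| ≤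
      (s' - s) * ((volume (cut K u s')).toReal - (volume (cut K u s)).toReal) := by
  have hf : Continuous (fun x : E => (inner ℝ x u : ℝ)) := by fun_prop
  have hKfin : volume K < ⊤ := hK.measure_lt_top
  have hfin : ∀ r, volume (cut K u r) ≠ ⊤ := fun r =>
    ((measure_mono inter_subset_left).trans_lt hKfin).ne
  have hint : ∀ r, IntegrableOn (fun x : E => (inner ℝ x u : ℝ)) (cut K u r) := fun r =>
    (hf.continuousOn.integrableOn_compact hK).mono_set inter_subset_left
  have hsub : cut K u s ⊆ cut K u s' := by
    intro x hx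
    exact ⟨hx.1, (hx.2 : inner ℝ x u ≤ s).trans (h1.trans h2)⟩
  have hD : (volume (cut K u s' \ cut K u s)).toReal =
      (volume (cut K u s')).toReal - (volume (cut K u s)).toReal := by
    rw [measure_diff hsub (slab_meas K hK u s).nullMeasurableSet (hfin s),
      ENNReal.toReal_sub_of_le (measure_mono hsub) (hfin s')]
  have hDfin : volume (cut K u s' \ cut K u s) < ⊤ :=
    (measure_mono diff_subset).trans_lt (lt_top_iff_ne_top.2 (hfin s'))
  have hI : (∫ x in cut K u s' \ cut K u s, (inner ℝ x u : ℝ)) =
      (∫ x in cut K u s', inner ℝ x u) - (∫ x in cut K u s, inner ℝ x u) :=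
    setIntegral_diff (slab_meas K hK u s) (hint s') hsub
  have hc : (∫ _x in cut K u s' \ cut K u s, t) =
      t * ((volume (cut K u s')).toReal - (volume (cut K u s)).toReal) := by
    rw [setIntegral_const, ← hD, smul_eq_mul, mul_comm]
    rfl
  have hsubI : (∫ x in cut K u s' \ cut K u s, ((inner ℝ x u : ℝ) - t)) =
      (∫ x in cut K u s', inner ℝ x u) - (∫ x in cut K u s, inner ℝ x u) -
        t * ((volume (cut K u s')).toReal - (volume (cut K u s)).toReal) := by
    rw [integral_sub, hI, hc]
    · exact (hint s').mono_set diff_subset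
    · exact integrableOn_const hDfin.ne
  rw [← hsubI, ← Real.norm_eq_abs, ← hD]
  apply norm_setIntegral_le_of_norm_le_const hDfin
  rintro x ⟨hx1, hx2⟩
  have h3 : (inner ℝ x u : ℝ) ≤ s' := hx1.2
  have h4 : s < (inner ℝ x u : ℝ) := by
    by_contra h
    exact hx2 ⟨hx1.1, not_lt.1 h⟩
  rw [Real.norm_eq_abs, abs_le]
  constructor <;> linarith

/-- TARGET -/
theorem slab (K : Set E) (hK : IsCompact K) (u : E) (t t' : ℝ) :
    |(∫ x in cut K u t', inner ℝ x u) - (∫ x in cut K u t, inner ℝ x u) -
        t * ((volume (cut K u t')).toReal - (volume (cut K u t)).toReal)| ≤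
      |t' - t| * |(volume (cut K u t')).toReal - (volume (cut K u t)).toReal| := by
  rcases le_total t t' with h | h
  · have h1 := slab_aux K hK u t t' t le_rfl h
    rw [abs_of_nonneg (sub_nonneg.2 h)]
    exact h1.trans (mul_le_mul_of_nonneg_left (le_abs_self _) (sub_nonneg.2 h))
  · have h1 := slab_aux K hK u t' t t h le_rfl
    rw [abs_sub_comm t' t, abs_of_nonneg (sub_nonneg.2 h),
      abs_sub_comm (volume (cut K u t')).toReal]
    have e : (∫ x in cut K u t', inner ℝ x u) - (∫ x in cut K u t, inner ℝ x u) -
        t * ((volume (cut K u t')).toReal - (volume (cut K u t)).toReal) =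
        -((∫ x in cut K u t, inner ℝ x u) - (∫ x in cut K u t', inner ℝ x u) -
        t * ((volume (cut K u t)).toReal - (volume (cut K u t')).toReal)) := by ring
    rw [e, abs_neg]
    exact h1.trans (mul_le_mul_of_nonneg_left (le_abs_self _) (sub_nonneg.2 h))


end FB.J_j3c

alias FB.slab := FB.J_j3c.slab
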