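import Pool.Agent.Helper240.FB.Defs
import Pool.Agent.Helper240.FB.J1
import Pool.Agent.Helper240.FB.J2
import Pool.Agent.Helper240.FB.J3a
import Pool.Agent.Helper240.FB.J3b
import Pool.Agent.Helper240.FB.J3c

open Filter Topology Set MeasureTheory

namespace FB.J_j4















theorem acc_cut_meas (K : Set E) (hK : IsCompact K) (u : E) (t : ℝ) : MeasurableSet (cut K u t) := by
  refine (hK.isClosed.inter ?_).measurableSet
  exact isClosed_le (by fun_prop) continuous_const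

theorem acc_cut_sub (K : Set E) (u : E) (t : ℝ) : cut K u t ⊆ K := Set.inter_subset_left

theorem acc_int (K : Set E) (hK : IsCompact K) (A : Set E) (hA : A ⊆ K) (u : E) :
    ∫ x in A, inner ℝ x u = inner ℝ (∫ x in A, x) u := by
  have h1 : IntegrableOn (fun x : E => x) A :=
    (continuous_id.continuousOn.integrableOn_compact hK).mono_set hA
  have h2 := integral_inner (𝕜 := ℝ) h1 u
  rw [real_inner_comm, ← h2]
  refine integral_congr_ae (Filter.Eventually.of_forall (fun x => ?_))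
  exact real_inner_comm _ _

theorem acc_const (K : Set E) (hK : IsCompact K) (hc : Convex ℝ K) (hi : (interior K).Nonempty)
    (h0 : ∫ x in K, x = 0) (d : ℝ) (hd : d ∈ Ioo (0 : ℝ) 1) (hF : Floats K d) :
    ∃ m : ℝ, ∀ u : E, ‖u‖ = 1 → ∀ t : ℝ, volume (cut K u t) = ENNReal.ofReal d * volume K →
      ∫ x in cut K u t, inner ℝ x u = m := by
  have hVt : volume K ≠ ⊤ := hK.measure_lt_top.ne
  have hV0 : volume K ≠ 0 := (Measure.measure_pos_of_nonempty_interior volume hi).ne'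
  have hV : 0 < (volume K).toReal := ENNReal.toReal_pos hV0 hVt
  have hF' : ∀ u : E, ∃ t : ℝ, ‖u‖ = 1 → volume (cut K u t) = ENNReal.ofReal d * volume K ∧
      ∃ c : ℝ, cen K - cen (cut K u t) = c • u := by
    intro u
    by_cases hu : ‖u‖ = 1
    · obtain ⟨t, ht⟩ := hF u hu
      exact ⟨t, fun _ => ht⟩
    · exact ⟨0, fun h => absurd h hu⟩
  choose T hT using hF'
  have hcen : cen K = 0 := by
    unfold cen
    rw [h0, smul_zero]
  set p : E → ℝ := fun u => -∫ x in cut K u (T u), inner ℝ x u with hp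
  have hI : ∀ u : E, ‖u‖ = 1 → ∫ x in cut K u (T u), x = (-p u) • u := by
    intro u hu
    obtain ⟨h1, c, h2⟩ := hT u hu
    have hvol : (volume (cut K u (T u))).toReal = d * (volume K).toReal := by
      rw [h1, ENNReal.toReal_mul, ENNReal.toReal_ofReal hd.1.le]
    have hvpos : (volume (cut K u (T u))).toReal ≠ 0 := by
      rw [hvol]
      exact (mul_pos hd.1 hV).ne'
    rw [hcen, zero_sub] at h2
    unfold cen at h2
    have h3 : ∫ x in cut K u (T u), x = (-(volume (cut K u (T u))).toReal * c) • u := by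
      rw [neg_mul, neg_smul, mul_smul, ← h2, smul_neg, neg_neg, smul_smul,
        mul_inv_cancel₀ hvpos, one_smul]
    have h4 : -p u = -(volume (cut K u (T u))).toReal * c := by
      rw [hp]
      simp only [neg_neg]
      rw [acc_int K hK _ (acc_cut_sub K u (T u)) u, h3, inner_smul_left, real_inner_self_eq_norm_sq,
        hu]
      simp
    rw [h4]
    exact h3
  have hp0 : ∀ u : E, ‖u‖ = 1 → 0 ≤ p u := by
    intro u hu
    rw [hp]
    simp only [Left.nonneg_neg_iff]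
    rcases le_or_gt (T u) 0 with hTu | hTu
    · exact setIntegral_nonpos (acc_cut_meas K hK u (T u)) (fun x hx => hx.2.trans hTu)
    · have hint : IntegrableOn (fun x : E => inner ℝ x u) K := by
        exact ContinuousOn.integrableOn_compact hK (by fun_prop)
      have h1 := setIntegral_sdiff (acc_cut_meas K hK u (T u)) hint (acc_cut_sub K u (T u))
      have h2 : ∫ x in K, inner ℝ x u = 0 := by
        rw [acc_int K hK K subset_rfl u, h0, inner_zero_left]
      have h3 : 0 ≤ ∫ x in K \ cut K u (T u), inner ℝ x u := by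
        refine setIntegral_nonneg (hK.measurableSet.diff (acc_cut_meas K hK u (T u))) ?_
        intro x hx
        have h4 : ¬ inner ℝ x u ≤ T u := fun h => hx.2 ⟨hx.1, h⟩
        push Not at h4
        linarith
      rw [h1, h2] at h3
      linarith
  have hpp : ∀ u u' : E, ‖u‖ = 1 → ‖u'‖ = 1 → p u * inner ℝ u u' ≤ p u' := by
    intro u u' hu hu'
    have h1 := bathtub K hK u' (T u') (cut K u (T u)) (acc_cut_meas K hK u (T u))
      (acc_cut_sub K u (T u)) (by rw [(hT u hu).1, (hT u' hu').1])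
    rw [acc_int K hK (cut K u (T u)) (acc_cut_sub K u (T u)) u', hI u hu, inner_smul_left] at h1
    simp only [conj_trivial] at h1
    have h2 : -p u' = ∫ x in cut K u' (T u'), inner ℝ x u' := by
      rw [hp]
      simp
    linarith
  obtain ⟨u0, hu0⟩ : ∃ u0 : E, ‖u0‖ = 1 := ⟨EuclideanSpace.single 0 1, by simp⟩
  refine ⟨-p u0, ?_⟩
  intro u hu t ht
  have h1 : t = T u := (level K hK hc hi u hu d hd).unique ht (hT u hu).1
  have h2 := p_const p hp0 hpp u u0 hu hu0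
  rw [← h2, h1, hp]
  simp

/-- TARGET -/
theorem acc_level (K : Set E) (hK : IsCompact K) (hc : Convex ℝ K) (hi : (interior K).Nonempty)
    (h0 : ∫ x in K, x = 0) (S : Set ℝ) (hS : ∀ d ∈ S, d ∈ Ioo (0 : ℝ) 1 ∧ Floats K d)
    (d : ℝ) (hd : d ∈ Ioo (0 : ℝ) 1) (hacc : AccPt d (𝓟 S)) :
    ∃ τ : ℝ, ∀ u : E, ‖u‖ = 1 → volume (cut K u τ) = ENNReal.ofReal d * volume K := by
  classical
  have hVt : volume K ≠ ⊤ := hK.measure_lt_top.ne
  have hV0 : volume K ≠ 0 := (Measure.measure_pos_of_nonempty_interior volume hi).ne'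
  set V : ℝ := (volume K).toReal with hVdef
  have hV : 0 < V := ENNReal.toReal_pos hV0 hVt
  obtain ⟨u0, hu0⟩ : ∃ u0 : E, ‖u0‖ = 1 := ⟨EuclideanSpace.single 0 1, by simp⟩
  -- key estimate
  have key : ∀ (u₁ u₂ : E) (t₁ t₂ : ℝ), ‖u₁‖ = 1 → ‖u₂‖ = 1 →
      volume (cut K u₁ t₁) = ENNReal.ofReal d * volume K →
      volume (cut K u₂ t₂) = ENNReal.ofReal d * volume K → ∀ ε η : ℝ, 0 < ε → 0 < η →
      ∃ Δ : ℝ, 0 < |Δ| ∧ |Δ| < η ∧
        |((∫ x in cut K u₂ t₂, inner ℝ x u₂) - (∫ x in cut K u₁ t₁, inner ℝ x u₁)) +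
          (t₂ - t₁) * (V * Δ)| ≤ 2 * ε * (V * |Δ|) := by
    intro u₁ u₂ t₁ t₂ hu₁ hu₂ ht₁ ht₂ ε η hε hη
    obtain ⟨δ₁, hδ₁, hl₁⟩ := level_cont K hK hc hi u₁ hu₁ d hd ε hε
    obtain ⟨δ₂, hδ₂, hl₂⟩ := level_cont K hK hc hi u₂ hu₂ d hd ε hε
    obtain ⟨d', ⟨hd'1, hd'S⟩, hd'ne⟩ := accPt_iff_nhds.1 hacc
      (Metric.ball d (min (min δ₁ δ₂) η)) (Metric.ball_mem_nhds d (by positivity))
    rw [Metric.mem_ball, Real.dist_eq] at hd'1
    have hΔ₁ : |d' - d| < δ₁ := lt_of_lt_of_le hd'1 ((min_le_left _ _).trans (min_le_left _ _))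
    have hΔ₂ : |d' - d| < δ₂ := lt_of_lt_of_le hd'1 ((min_le_left _ _).trans (min_le_right _ _))
    have hΔη : |d' - d| < η := lt_of_lt_of_le hd'1 (min_le_right _ _)
    obtain ⟨hd'I, hd'F⟩ := hS d' hd'S
    obtain ⟨m, hm⟩ := acc_const K hK hc hi h0 d' hd'I hd'F
    obtain ⟨t₁', ht₁', -⟩ := level K hK hc hi u₁ hu₁ d' hd'I
    obtain ⟨t₂', ht₂', -⟩ := level K hK hc hi u₂ hu₂ d' hd'I
    have hvd : ∀ (u : E) (t e : ℝ), 0 < e → volume (cut K u t) = ENNReal.ofReal e * volume K →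
        (volume (cut K u t)).toReal = e * V := by
      intro u t e he h
      rw [h, ENNReal.toReal_mul, ENNReal.toReal_ofReal he.le]
    have hs₁ := slab K hK u₁ t₁ t₁'
    have hs₂ := slab K hK u₂ t₂ t₂'
    rw [hm u₁ hu₁ t₁' ht₁', hvd u₁ t₁' d' hd'I.1 ht₁', hvd u₁ t₁ d hd.1 ht₁] at hs₁
    rw [hm u₂ hu₂ t₂' ht₂', hvd u₂ t₂' d' hd'I.1 ht₂', hvd u₂ t₂ d hd.1 ht₂] at hs₂
    have e1 : d' * V - d * V = V * (d' - d) := by ring
    rw [e1] at hs₁ hs₂
    have hl₁' := hl₁ d' hd'I hΔ₁ t₁ t₁' ht₁ ht₁'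
    have hl₂' := hl₂ d' hd'I hΔ₂ t₂ t₂' ht₂ ht₂'
    have hVΔ : |V * (d' - d)| = V * |d' - d| := by rw [abs_mul, abs_of_pos hV]
    rw [hVΔ] at hs₁ hs₂
    have hΔpos : 0 < |d' - d| := abs_pos.2 (sub_ne_zero.2 hd'ne)
    refine ⟨d' - d, hΔpos, hΔη, ?_⟩
    have hnn : 0 ≤ V * |d' - d| := by positivity
    have g1 : |t₁' - t₁| * (V * |d' - d|) ≤ ε * (V * |d' - d|) :=
      mul_le_mul_of_nonneg_right hl₁'.le hnn
    have g2 : |t₂' - t₂| * (V * |d' - d|) ≤ ε * (V * |d' - d|) :=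
      mul_le_mul_of_nonneg_right hl₂'.le hnn
    have g3 := hs₁.trans g1
    have g4 := hs₂.trans g2
    rw [abs_le] at g3 g4 ⊢
    constructor <;> nlinarith [g3.1, g3.2, g4.1, g4.2]
  obtain ⟨τ, hτ, -⟩ := level K hK hc hi u0 hu0 d hd
  refine ⟨τ, ?_⟩
  intro u hu
  obtain ⟨t, ht, -⟩ := level K hK hc hi u hu d hd
  have hM : (∫ x in cut K u t, inner ℝ x u) = ∫ x in cut K u0 τ, inner ℝ x u0 := by
    by_contra hne
    set g : ℝ := |(∫ x in cut K u t, inner ℝ x u) - ∫ x in cut K u0 τ, inner ℝ x u0| with hg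
    have hgpos : 0 < g := abs_pos.2 (sub_ne_zero.2 hne)
    obtain ⟨Δ, hΔ0, hΔη, hΔ⟩ := key u0 u τ t hu0 hu hτ ht 1 (g / ((|t - τ| + 2) * V + 1))
      one_pos (by positivity)
    have h1 : g ≤ (|t - τ| + 2) * V * |Δ| := by
      have h2 : (∫ x in cut K u t, inner ℝ x u) - ∫ x in cut K u0 τ, inner ℝ x u0 =
          (((∫ x in cut K u t, inner ℝ x u) - ∫ x in cut K u0 τ, inner ℝ x u0) +
            (t - τ) * (V * Δ)) - (t - τ) * (V * Δ) := by ring
      have h3 : g ≤ |((∫ x in cut K u t, inner ℝ x u) - ∫ x in cut K u0 τ, inner ℝ x u0) +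
            (t - τ) * (V * Δ)| + |(t - τ) * (V * Δ)| := by
        rw [hg]
        conv_lhs => rw [h2]
        exact abs_sub _ _
      have h4 : |(t - τ) * (V * Δ)| = |t - τ| * (V * |Δ|) := by
        rw [abs_mul, abs_mul, abs_of_pos hV]
      rw [h4] at h3
      linarith
    have h5 : (|t - τ| + 2) * V * |Δ| < g := by
      rw [lt_div_iff₀ (by positivity)] at hΔη
      nlinarith
    linarith
  by_cases hne : t = τ
  · rw [← hne]
    exact ht
  · exfalso
    have hpos : 0 < |t - τ| := abs_pos.2 (sub_ne_zero.2 hne)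
    obtain ⟨Δ, hΔ0, -, hΔ⟩ := key u0 u τ t hu0 hu hτ ht (|t - τ| / 4) 1 (by positivity) one_pos
    rw [hM, sub_self, zero_add, abs_mul, abs_mul, abs_of_pos hV] at hΔ
    have : 0 < |t - τ| * (V * |Δ|) := by positivity
    linarith


end FB.J_j4

alias FB.acc_level := FB.J_j4.acc_level
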