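import Pool.Agent.Helper240.FB.Defs
import Pool.Agent.Helper240.FB.J11
import Pool.Agent.Helper240.FB.J3a
import Pool.Agent.Helper240.FB.J4

open Filter Topology Set MeasureTheory

namespace FB.J_j12













private theorem main_acc_cut (K : Set E) (g u : E) (t : ℝ) :
    cut ((fun x => x + g) ⁻¹' K) u t = (fun x => x + g) ⁻¹' (cut K u (t + inner ℝ g u)) := by
  ext x
  simp only [cut, mem_inter_iff, mem_preimage, mem_setOf_eq, inner_add_left]
  constructor
  · rintro ⟨h1, h2⟩; exact ⟨h1, by linarith⟩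
  · rintro ⟨h1, h2⟩; exact ⟨h1, by linarith⟩

private theorem main_acc_vol (A : Set E) (g : E) :
    volume ((fun x => x + g) ⁻¹' A) = volume A :=
  measure_preimage_add_right volume g A

private theorem main_acc_int (A : Set E) (g : E) (f : E → E) :
    ∫ x in (fun x => x + g) ⁻¹' A, f (x + g) = ∫ x in A, f x :=
  (measurePreserving_add_right volume g).setIntegral_preimage_emb
    (measurableEmbedding_addRight g) f A

private theorem main_acc_cen (A : Set E) (g : E) (hA : volume A ≠ 0) (hA' : volume A ≠ ⊤)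
    (hi : IntegrableOn (fun x : E => x) A) :
    cen ((fun x => x + g) ⁻¹' A) = cen A - g := by
  unfold cen
  rw [main_acc_vol]
  have h1 : ∫ x in (fun x => x + g) ⁻¹' A, x = ∫ x in A, (x - g) := by
    rw [← main_acc_int A g (fun x => x - g)]
    simp
  have h2 : ∫ x in A, (x - g) = (∫ x in A, x) - (volume A).toReal • g := by
    rw [integral_sub hi (integrableOn_const hA'), setIntegral_const]
    rfl
  rw [h1, h2, smul_sub, smul_smul, inv_mul_cancel₀ (ENNReal.toReal_ne_zero.2 ⟨hA, hA'⟩), one_smul]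

private theorem main_acc_intble (K A : Set E) (hK : IsCompact K) (hA : A ⊆ K) :
    IntegrableOn (fun x : E => x) A :=
  (continuous_id.continuousOn.integrableOn_compact hK).mono_set hA

private theorem main_acc_floats (K : Set E) (hK : IsCompact K) (hv : volume K ≠ 0) (g : E) (d : ℝ)
    (hd : 0 < d) (h : Floats K d) : Floats ((fun x => x + g) ⁻¹' K) d := by
  intro u hu
  obtain ⟨t, ht1, c, hc⟩ := h u hu
  refine ⟨t - inner ℝ g u, ?_, c, ?_⟩
  · rw [main_acc_cut, main_acc_vol, main_acc_vol, sub_add_cancel, ht1]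
  · have hvt : volume K ≠ ⊤ := hK.measure_lt_top.ne
    have hc0 : volume (cut K u t) ≠ 0 := by
      rw [ht1]
      exact mul_ne_zero (by simpa using hd) hv
    have hct : volume (cut K u t) ≠ ⊤ :=
      ((measure_mono inter_subset_left).trans_lt hK.measure_lt_top).ne
    rw [main_acc_cut, sub_add_cancel, main_acc_cen K g hv hvt (main_acc_intble K K hK subset_rfl),
      main_acc_cen (cut K u t) g hc0 hct (main_acc_intble K _ hK inter_subset_left), ← hc]
    abel

/-- TARGET 1 -/
theorem main_acc (K : Set E) (hK : IsCompact K) (hc : Convex ℝ K) (hi : (interior K).Nonempty)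
    (h : {d : ℝ | d ∈ Ioo (0 : ℝ) 1 ∧
      AccPt d (𝓟 {e : ℝ | e ∈ Ioo (0 : ℝ) 1 ∧ Floats K e})}.Infinite) :
    ∃ (c : E) (r : ℝ), 0 < r ∧ K = Metric.closedBall c r := by
  have hvt : volume K ≠ ⊤ := hK.measure_lt_top.ne
  have hv : volume K ≠ 0 := by
    have h1 : 0 < volume (interior K) := isOpen_interior.measure_pos volume hi
    exact (h1.trans_le (measure_mono interior_subset)).ne'
  set g : E := cen K with hg
  set K' : Set E := (fun x => x + g) ⁻¹' K with hK'
  have hvK' : volume K' = volume K := main_acc_vol K g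
  have hhom : K' = (Homeomorph.addRight g) ⁻¹' K := rfl
  have hcK' : IsCompact K' := by
    rw [hhom]
    exact (Homeomorph.addRight g).isCompact_preimage.2 hK
  have hcvK' : Convex ℝ K' := by
    intro x hx y hy a b ha hb hab
    have := hc hx hy ha hb hab
    show a • x + b • y + g ∈ K
    have e : a • x + b • y + g = a • (x + g) + b • (y + g) := by
      rw [smul_add, smul_add]
      have : g = a • g + b • g := by rw [← add_smul, hab, one_smul]
      nth_rewrite 1 [this]
      abel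
    rw [e]
    exact this
  have hiK' : (interior K').Nonempty := by
    rw [hhom, ← (Homeomorph.addRight g).preimage_interior]
    obtain ⟨x, hx⟩ := hi
    exact ⟨x - g, by simpa using hx⟩
  have h0 : ∫ x in K', x = 0 := by
    have h1 := main_acc_cen K g hv hvt (main_acc_intble K K hK subset_rfl)
    rw [← hg, sub_self] at h1
    unfold cen at h1
    rw [smul_eq_zero] at h1
    rcases h1 with h1 | h1
    · exfalso
      rw [inv_eq_zero, main_acc_vol] at h1
      exact ENNReal.toReal_ne_zero.2 ⟨hv, hvt⟩ h1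
    · exact h1
  have hS : ∀ d ∈ {e : ℝ | e ∈ Ioo (0 : ℝ) 1 ∧ Floats K e}, d ∈ Ioo (0 : ℝ) 1 ∧ Floats K' d :=
    fun d hd => ⟨hd.1, main_acc_floats K hK hv g d hd.1.1 hd.2⟩
  have hτ : ∀ d ∈ {d : ℝ | d ∈ Ioo (0 : ℝ) 1 ∧
      AccPt d (𝓟 {e : ℝ | e ∈ Ioo (0 : ℝ) 1 ∧ Floats K e})}, ∃ τ : ℝ, ∀ u : E, ‖u‖ = 1 →
      volume (cut K' u τ) = ENNReal.ofReal d * volume K' := fun d hd =>
    acc_level K' hcK' hcvK' hiK' h0 _ hS d hd.1 hd.2
  choose! τ hτ using hτ
  obtain ⟨u0, hu0⟩ : ∃ u : E, ‖u‖ = 1 := ⟨EuclideanSpace.single 0 1, by simp⟩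
  have hreal : ∀ d : ℝ, 0 < d → (ENNReal.ofReal d * volume K').toReal = d * (volume K).toReal := by
    intro d hd
    rw [ENNReal.toReal_mul, ENNReal.toReal_ofReal hd.le, hvK']
  have hvpos : 0 < (volume K).toReal := ENNReal.toReal_pos hv hvt
  have hinj : InjOn τ {d : ℝ | d ∈ Ioo (0 : ℝ) 1 ∧
      AccPt d (𝓟 {e : ℝ | e ∈ Ioo (0 : ℝ) 1 ∧ Floats K e})} := by
    intro d hd d' hd' hdd
    have h1 := hτ d hd u0 hu0
    have h2 := hτ d' hd' u0 hu0
    rw [hdd, h2] at h1
    have h3 := congrArg ENNReal.toReal h1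
    rw [hreal d hd.1.1, hreal d' hd'.1.1] at h3
    exact (mul_right_cancel₀ hvpos.ne' h3).symm
  obtain ⟨R, hR, hKR⟩ := ball_of_levels K' hcK' hcvK' hiK' _ (h.image hinj) (by
    rintro _ ⟨d, hd, rfl⟩
    refine ⟨d * (volume K).toReal, mul_pos hd.1.1 hvpos, ?_, ?_⟩
    · rw [hvK']
      have := mul_lt_mul_of_pos_right hd.1.2 hvpos
      linarith
    · intro u hu
      rw [hτ d hd u hu, hreal d hd.1.1])
  refine ⟨g, R, hR, ?_⟩
  ext x
  have h1 : x ∈ K ↔ x - g ∈ K' := by
    rw [hK', mem_preimage, sub_add_cancel]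
  rw [h1, hKR, Metric.mem_closedBall, Metric.mem_closedBall, dist_zero_right, dist_eq_norm]

/-- TARGET 2 -/
theorem main_countable (K : Set E) (hK : IsCompact K) (hc : Convex ℝ K)
    (hi : (interior K).Nonempty) (h : ¬ ∃ (c : E) (r : ℝ), 0 < r ∧ K = Metric.closedBall c r) :
    {d : ℝ | d ∈ Ioo (0 : ℝ) 1 ∧ Floats K d}.Countable := by
  set S : Set ℝ := {d : ℝ | d ∈ Ioo (0 : ℝ) 1 ∧ Floats K d} with hS
  have hfin : {d : ℝ | d ∈ Ioo (0 : ℝ) 1 ∧ AccPt d (𝓟 S)}.Finite := by
    by_contra hinf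
    exact h (main_acc K hK hc hi hinf)
  set I : Set ℝ := {d : ℝ | d ∈ S ∧ ¬ AccPt d (𝓟 S)} with hI
  have hdisc : DiscreteTopology I := by
    rw [discreteTopology_subtype_iff]
    intro x hx
    have h1 : 𝓝[≠] x ⊓ 𝓟 S = ⊥ := by
      by_contra h2
      exact hx.2 ⟨h2⟩
    refine le_bot_iff.1 (le_trans ?_ h1.le)
    exact inf_le_inf_left _ (principal_mono.2 fun y hy => hy.1)
  have hIc : I.Countable := by
    have : TopologicalSpace.SeparableSpace I := inferInstance
    exact (TopologicalSpace.separableSpace_iff_countable (α := I)).1 this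
  refine (hIc.union hfin.countable).mono fun d hd => ?_
  by_cases hacc : AccPt d (𝓟 S)
  · exact Or.inr ⟨hd.1, hacc⟩
  · exact Or.inl ⟨hd, hacc⟩


end FB.J_j12

alias FB.main_acc := FB.J_j12.main_acc
alias FB.main_countable := FB.J_j12.main_countable
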