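import Pool.Agent.Helper240.FB.Defs
import Pool.Agent.Helper240.FB.J1
import Pool.Agent.Helper240.FB.J2
import Pool.Agent.Helper240.FB.J3a

open Filter Topology Set MeasureTheory

namespace FB.J_j13













theorem ae_slab (K : Set E) (hc : Convex ℝ K) (hi : (interior K).Nonempty) (x0 : E)
    (hx0 : x0 ∈ K) (w : E) (r : ℝ) (hr : inner ℝ x0 w < r) :
    0 < volume (K ∩ {x : E | inner ℝ x w < r}) := by
  obtain ⟨y, hy⟩ := hi
  obtain ⟨D, hD⟩ : ∃ D : ℝ, D = inner ℝ (y - x0) w := ⟨_, rfl⟩
  obtain ⟨δ, hδ⟩ : ∃ δ : ℝ, δ = r - inner ℝ x0 w := ⟨_, rfl⟩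
  have hδpos : 0 < δ := by rw [hδ]; linarith
  obtain ⟨s, hs⟩ : ∃ s : ℝ, s = min 1 (δ / (2 * (|D| + 1))) := ⟨_, rfl⟩
  have hD0 : 0 < |D| + 1 := by positivity
  have hspos : 0 < s := by
    rw [hs]
    exact lt_min one_pos (by positivity)
  have hs1 : s ≤ 1 := by rw [hs]; exact min_le_left _ _
  have hs2 : s * (|D| + 1) ≤ δ / 2 := by
    have h1 : s ≤ δ / (2 * (|D| + 1)) := by rw [hs]; exact min_le_right _ _
    calc s * (|D| + 1) ≤ δ / (2 * (|D| + 1)) * (|D| + 1) := mul_le_mul_of_nonneg_right h1 hD0.le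
      _ = δ / 2 := by field_simp
  have hz : x0 + s • (y - x0) ∈ interior K := hc.add_smul_sub_mem_interior hx0 hy ⟨hspos, hs1⟩
  have hzw : inner ℝ (x0 + s • (y - x0)) w < r := by
    rw [inner_add_left, inner_smul_left, ← hD]
    simp only [RCLike.conj_to_real]
    have h1 : s * D ≤ s * (|D| + 1) := mul_le_mul_of_nonneg_left (by linarith [le_abs_self D]) hspos.le
    linarith
  have hopen : IsOpen (interior K ∩ {x : E | inner ℝ x w < r}) := by
    apply isOpen_interior.inter
    exact isOpen_lt (by fun_prop) continuous_const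
  have hpos := hopen.measure_pos volume ⟨_, hz, hzw⟩
  exact lt_of_lt_of_le hpos (measure_mono (Set.inter_subset_inter_left _ interior_subset))

theorem ae_ge (A : Set E) (hA : MeasurableSet A) (hfin : volume A ≠ ⊤) (f : E → ℝ)
    (hf : IntegrableOn f A) (c : ℝ) (h : ∀ x ∈ A, c ≤ f x) :
    c * (volume A).toReal ≤ ∫ x in A, f x := by
  have h1 := setIntegral_mono_on (μ := volume) (f := fun _ : E => c) (g := f)
    (integrableOn_const hfin) hf hA h
  rw [setIntegral_const, smul_eq_mul, mul_comm] at h1
  exact h1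

theorem ae_le (A : Set E) (hA : MeasurableSet A) (hfin : volume A ≠ ⊤) (f : E → ℝ)
    (hf : IntegrableOn f A) (c : ℝ) (h : ∀ x ∈ A, f x ≤ c) :
    ∫ x in A, f x ≤ c * (volume A).toReal := by
  have h1 := setIntegral_mono_on (μ := volume) (f := f) (g := fun _ : E => c)
    hf (integrableOn_const hfin) hA h
  rw [setIntegral_const, smul_eq_mul, mul_comm] at h1
  exact h1

theorem ae_sub (K : Set E) (u : E) (t : ℝ) : cut K u t ⊆ K := inter_subset_left

theorem ae_cut_meas (K : Set E) (hK : IsCompact K) (u : E) (t : ℝ) : MeasurableSet (cut K u t) := by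
  apply IsClosed.measurableSet
  apply hK.isClosed.inter
  exact isClosed_le (by fun_prop) continuous_const

theorem ae_int (K : Set E) (hK : IsCompact K) (u : E) (A : Set E) (hA : A ⊆ K) :
    IntegrableOn (fun x : E => inner ℝ x u) A := by
  have h1 : IntegrableOn (fun x : E => inner ℝ x u) K :=
    (by fun_prop : Continuous fun x : E => inner ℝ x u).continuousOn.integrableOn_compact hK
  exact h1.mono_set hA

theorem ae_intx (K : Set E) (hK : IsCompact K) (A : Set E) (hA : A ⊆ K) :
    IntegrableOn (fun x : E => x) A := by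
  have h1 : IntegrableOn (fun x : E => x) K := continuous_id.continuousOn.integrableOn_compact hK
  exact h1.mono_set hA

theorem ae_inner (K : Set E) (hK : IsCompact K) (A : Set E) (hA : A ⊆ K) (u : E) :
    ∫ x in A, inner ℝ x u = inner ℝ (∫ x in A, x) u := by
  have h1 := integral_inner (𝕜 := ℝ) (ae_intx K hK A hA) u
  rw [real_inner_comm, ← h1]
  congr 1
  funext x
  exact real_inner_comm _ _

/-- the constant for one density -/
theorem ae_B (K : Set E) (hK : IsCompact K) (hi : (interior K).Nonempty)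
    (h0 : ∫ x in K, x = 0) (d : ℝ) (hd : d ∈ Ioo (0 : ℝ) 1) (hF : Floats K d) :
    ∃ (m : ℝ) (t : E → ℝ), ∀ u : E, ‖u‖ = 1 → volume (cut K u (t u)) = ENNReal.ofReal d * volume K ∧
      ∫ x in cut K u (t u), inner ℝ x u = -m := by
  have hKfin : volume K ≠ ⊤ := hK.measure_lt_top.ne
  have hV : 0 < (volume K).toReal := by
    rw [ENNReal.toReal_pos_iff]
    exact ⟨lt_of_lt_of_le (isOpen_interior.measure_pos volume hi) (measure_mono interior_subset),
      hK.measure_lt_top⟩
  unfold Floats at hF
  choose! t ht using hF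
  have ht2 : ∀ u : E, ‖u‖ = 1 → ∃ c : ℝ, cen K - cen (cut K u (t u)) = c • u :=
    fun u hu => (ht u hu).2
  choose! c hc using ht2
  have hcen : cen K = 0 := by
    unfold cen
    rw [h0, smul_zero]
  have hvol : ∀ u : E, ‖u‖ = 1 → (volume (cut K u (t u))).toReal = d * (volume K).toReal := by
    intro u hu
    rw [(ht u hu).1, ENNReal.toReal_mul, ENNReal.toReal_ofReal hd.1.le]
  have hintx : ∀ u : E, ‖u‖ = 1 → ∫ x in cut K u (t u), x =
      (-(d * (volume K).toReal * c u)) • u := by
    intro u hu
    have h1 := hc u hu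
    rw [hcen, zero_sub] at h1
    have h2 : cen (cut K u (t u)) = (-(c u)) • u := by
      rw [neg_smul, ← h1, neg_neg]
    unfold cen at h2
    have h3 : (volume (cut K u (t u))).toReal ≠ 0 := by
      rw [hvol u hu]
      exact (mul_pos hd.1 hV).ne'
    have h4 := congrArg (fun y => (volume (cut K u (t u))).toReal • y) h2
    simp only [smul_smul, mul_inv_cancel₀ h3, one_smul] at h4
    rw [h4, hvol u hu]
    congr 1
    ring
  obtain ⟨p, hp⟩ : ∃ p : E → ℝ, ∀ u, p u = d * (volume K).toReal * c u := ⟨_, fun _ => rfl⟩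
  have hpin : ∀ u u' : E, ‖u'‖ = 1 → ∫ x in cut K u' (t u'), inner ℝ x u =
      -(p u') * inner ℝ u' u := by
    intro u u' hu'
    rw [ae_inner K hK (cut K u' (t u')) (ae_sub K u' _) u, hintx u' hu', inner_smul_left, hp]
    simp
  have hself : ∀ u : E, ‖u‖ = 1 → ∫ x in cut K u (t u), inner ℝ x u = -(p u) := by
    intro u hu
    rw [hpin u u hu, real_inner_self_eq_norm_sq, hu]
    ring
  have hp0 : ∀ u : E, ‖u‖ = 1 → 0 ≤ p u := by
    intro u hu
    have h1 : ∫ x in cut K u (t u), inner ℝ x u ≤ 0 := by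
      rcases le_total (t u) 0 with htn | htp
      · apply setIntegral_nonpos (ae_cut_meas K hK u _)
        intro x hx
        exact le_trans hx.2 htn
      · have h2 : ∫ x in K, inner ℝ x u = 0 := by
          rw [ae_inner K hK K subset_rfl u, h0, inner_zero_left]
        have h3 := integral_inter_add_sdiff (μ := volume) (s := K) (t := {x : E | inner ℝ x u ≤ t u})
          (f := fun x : E => inner ℝ x u)
          (isClosed_le (by fun_prop) continuous_const).measurableSet (ae_int K hK u K subset_rfl)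
        have h4 : 0 ≤ ∫ x in K \ {x : E | inner ℝ x u ≤ t u}, inner ℝ x u := by
          apply setIntegral_nonneg
          · exact hK.isClosed.measurableSet.diff
              (isClosed_le (by fun_prop) continuous_const).measurableSet
          · intro x hx
            have : ¬ (inner ℝ x u ≤ t u) := hx.2
            linarith
        have h5 : ∫ x in cut K u (t u), inner ℝ x u =
            ∫ x in K ∩ {x : E | inner ℝ x u ≤ t u}, inner ℝ x u := rfl
        rw [h5]
        linarith
    rw [hself u hu] at h1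
    linarith
  have hpc := p_const p hp0 (by
    intro u u' hu hu'
    have h1 := bathtub K hK u' (t u') (cut K u (t u)) (ae_cut_meas K hK u _) inter_subset_left
      ((ht u hu).1.trans (ht u' hu').1.symm)
    rw [hself u' hu', hpin u' u hu] at h1
    linarith)
  obtain ⟨e0, he0⟩ : ∃ e0 : E, ‖e0‖ = 1 := ⟨EuclideanSpace.single 0 1, by simp⟩
  refine ⟨p e0, t, fun u hu => ⟨(ht u hu).1, ?_⟩⟩
  rw [hself u hu, hpc u e0 hu he0]

/-- constant support function -/
theorem ae_A (K : Set E) (hK : IsCompact K) (hc : Convex ℝ K) (hi : (interior K).Nonempty)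
    (R : ℝ) (h : ∀ u : E, ‖u‖ = 1 → (∀ x ∈ K, inner ℝ x u ≤ R) ∧ ∃ x ∈ K, inner ℝ x u = R) :
    0 < R ∧ K = Metric.closedBall 0 R := by
  have hsub : K ⊆ Metric.closedBall 0 R := by
    intro x hx
    rw [mem_closedBall_zero_iff]
    by_cases hx0 : x = 0
    · obtain ⟨e0, he0⟩ : ∃ e0 : E, ‖e0‖ = 1 := ⟨EuclideanSpace.single 0 1, by simp⟩
      have := (h e0 he0).1 x hx
      rw [hx0, inner_zero_left] at this
      rw [hx0, norm_zero]
      exact this
    · have hn : 0 < ‖x‖ := norm_pos_iff.2 hx0
      have h1 := (h (‖x‖⁻¹ • x) (by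
        rw [norm_smul, norm_inv, norm_norm, inv_mul_cancel₀ hn.ne'])).1 x hx
      rw [inner_smul_right, real_inner_self_eq_norm_sq] at h1
      have : ‖x‖⁻¹ * ‖x‖ ^ 2 = ‖x‖ := by field_simp
      linarith
  have hR : 0 < R := by
    by_contra hneg
    push Not at hneg
    have h1 : K ⊆ {0} := by
      intro x hx
      have := hsub hx
      rw [mem_closedBall_zero_iff] at this
      have h2 : ‖x‖ = 0 := le_antisymm (this.trans hneg) (norm_nonneg _)
      exact norm_eq_zero.1 h2
    have h2 := interior_mono h1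
    rw [interior_singleton] at h2
    exact hi.not_subset_empty h2
  refine ⟨hR, Subset.antisymm hsub ?_⟩
  intro x hx
  rw [mem_closedBall_zero_iff] at hx
  by_contra hxK
  obtain ⟨f, s, hf1, hf2⟩ := geometric_hahn_banach_closed_point hc hK.isClosed hxK
  obtain ⟨w, hw⟩ : ∃ w : E, ∀ y, f y = inner ℝ w y :=
    ⟨(InnerProductSpace.toDual ℝ E).symm f, fun y => by
      rw [InnerProductSpace.toDual_symm_apply]⟩
  have hw0 : w ≠ 0 := by
    intro hw0
    obtain ⟨y, hy⟩ := hi
    have h1 := hf1 y (interior_subset hy)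
    rw [hw, hw0, inner_zero_left] at h1
    rw [hw, hw0, inner_zero_left] at hf2
    linarith
  have hn : 0 < ‖w‖ := norm_pos_iff.2 hw0
  obtain ⟨z, hz, hzR⟩ := (h (‖w‖⁻¹ • w) (by
    rw [norm_smul, norm_inv, norm_norm, inv_mul_cancel₀ hn.ne'])).2
  rw [inner_smul_right] at hzR
  have h1 := hf1 z hz
  rw [hw] at h1 hf2
  have h2 : inner ℝ z w = ‖w‖ * R := by
    rw [← hzR]
    field_simp
  rw [real_inner_comm, h2] at h1
  have h3 := real_inner_le_norm w x
  nlinarith

/-- TARGET: densities accumulating at `0` or `1` force a ball -/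
theorem acc_end (K : Set E) (hK : IsCompact K) (hc : Convex ℝ K) (hi : (interior K).Nonempty)
    (h0 : ∫ x in K, x = 0) (S : Set ℝ) (hS : ∀ d ∈ S, d ∈ Ioo (0 : ℝ) 1 ∧ Floats K d)
    (hacc : AccPt 0 (𝓟 S) ∨ AccPt 1 (𝓟 S)) :
    ∃ R : ℝ, 0 < R ∧ K = Metric.closedBall 0 R := by
  classical
  have hKfin : volume K ≠ ⊤ := hK.measure_lt_top.ne
  have hV : 0 < (volume K).toReal := by
    rw [ENNReal.toReal_pos_iff]
    exact ⟨lt_of_lt_of_le (isOpen_interior.measure_pos volume hi) (measure_mono interior_subset),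
      hK.measure_lt_top⟩
  have hKne : K.Nonempty := hi.mono interior_subset
  have hmax : ∀ u : E, ∃ x0 ∈ K, ∀ x ∈ K, inner ℝ x u ≤ inner ℝ x0 u := by
    intro u
    obtain ⟨x0, hx0, hx1⟩ := hK.exists_isMaxOn hKne
      (by fun_prop : Continuous fun x : E => inner ℝ x u).continuousOn
    exact ⟨x0, hx0, fun x hx => hx1 hx⟩
  choose X hXK hXmax using hmax
  have hcutfin : ∀ u t, volume (cut K u t) ≠ ⊤ := fun u t =>
    ((measure_mono inter_subset_left).trans_lt hK.measure_lt_top).ne
  -- support function is constant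
  have hconst : ∀ u u' : E, ‖u‖ = 1 → ‖u'‖ = 1 → inner ℝ (X u') u' ≤ inner ℝ (X u) u := by
    rcases hacc with hacc | hacc
    · -- accumulation at 0; use the minimum in directions -u
      intro u' u hu' hu
      apply le_of_forall_pos_le_add
      intro ε hε
      -- minimum of <x,-u> over K is -(h u)
      have hslab := ae_slab K hc hi (X u) (hXK u) (-u) (-(inner ℝ (X u) u) + ε) (by
        rw [inner_neg_right]; linarith)
      have hsub : K ∩ {x : E | inner ℝ x (-u) < -(inner ℝ (X u) u) + ε} ⊆
          cut K (-u) (-(inner ℝ (X u) u) + ε) := by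
        intro x hx
        have h3 : inner ℝ x (-u) < -(inner ℝ (X u) u) + ε := hx.2
        have h4 : inner ℝ x (-u) ≤ -(inner ℝ (X u) u) + ε := h3.le
        exact ⟨hx.1, h4⟩
      have hv : 0 < (volume (cut K (-u) (-(inner ℝ (X u) u) + ε))).toReal := by
        rw [ENNReal.toReal_pos_iff]
        exact ⟨hslab.trans_le (measure_mono hsub), lt_top_iff_ne_top.2 (hcutfin _ _)⟩
      rw [accPt_iff_frequently] at hacc
      have hev : ∀ᶠ d in 𝓝 (0:ℝ), d * (volume K).toReal <
          (volume (cut K (-u) (-(inner ℝ (X u) u) + ε))).toReal := by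
        have hcont : ContinuousAt (fun d : ℝ => d * (volume K).toReal) 0 := by fun_prop
        exact hcont.tendsto.eventually_lt_const (by
          show (0:ℝ) * (volume K).toReal < _
          rw [zero_mul]; exact hv)
      obtain ⟨d, ⟨-, hdS⟩, hdlt⟩ := (hacc.and_eventually hev).exists
      obtain ⟨m, t, hmt⟩ := ae_B K hK hi h0 d (hS d hdS).1 (hS d hdS).2
      have hd := (hS d hdS).1
      have hvr : ∀ w : E, ‖w‖ = 1 → (volume (cut K w (t w))).toReal = d * (volume K).toReal := by
        intro w hw
        rw [(hmt w hw).1, ENNReal.toReal_mul, ENNReal.toReal_ofReal hd.1.le]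
      have hnu : ‖-u‖ = 1 := by rw [norm_neg, hu]
      have hnu' : ‖-u'‖ = 1 := by rw [norm_neg, hu']
      have ht : t (-u) < -(inner ℝ (X u) u) + ε := by
        by_contra hcon
        push Not at hcon
        have h1 : cut K (-u) (-(inner ℝ (X u) u) + ε) ⊆ cut K (-u) (t (-u)) := by
          intro x hx
          exact ⟨hx.1, le_trans hx.2 hcon⟩
        have h2 := ENNReal.toReal_mono (hcutfin _ _) (measure_mono (μ := volume) h1)
        rw [hvr _ hnu] at h2
        linarith
      have h1 := ae_ge _ (ae_cut_meas K hK (-u') (t (-u'))) (hcutfin _ _) _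
        (ae_int K hK (-u') _ inter_subset_left) (-(inner ℝ (X u') u')) (by
          intro x hx
          rw [inner_neg_right]
          have := hXmax u' x hx.1
          linarith)
      have h2 := ae_le _ (ae_cut_meas K hK (-u) (t (-u))) (hcutfin _ _) _
        (ae_int K hK (-u) _ inter_subset_left) (t (-u)) (fun x hx => hx.2)
      rw [(hmt _ hnu').2, hvr _ hnu'] at h1
      rw [(hmt _ hnu).2, hvr _ hnu] at h2
      have h3 : 0 < d * (volume K).toReal := mul_pos hd.1 hV
      have h4 : -(inner ℝ (X u') u') ≤ t (-u) := le_of_mul_le_mul_right (h1.trans h2) h3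
      linarith
    · -- accumulation at 1
      intro u u' hu hu'
      apply le_of_forall_pos_le_add
      intro ε hε
      have hslab := ae_slab K hc hi (X u') (hXK u') (-u') (-(inner ℝ (X u') u') + ε) (by
        rw [inner_neg_right]; linarith)
      obtain ⟨A, hA⟩ : ∃ A : Set E, A = K ∩ {x : E | inner ℝ x (-u') < -(inner ℝ (X u') u') + ε} :=
        ⟨_, rfl⟩
      rw [← hA] at hslab
      have hAK : A ⊆ K := by rw [hA]; exact inter_subset_left
      have hv : 0 < (volume A).toReal := by
        rw [ENNReal.toReal_pos_iff]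
        exact ⟨hslab, (measure_mono hAK).trans_lt hK.measure_lt_top⟩
      rw [accPt_iff_frequently] at hacc
      have hev : ∀ᶠ d in 𝓝 (1:ℝ), (1 - d) * (volume K).toReal < (volume A).toReal := by
        have hcont : ContinuousAt (fun d : ℝ => (1 - d) * (volume K).toReal) 1 := by fun_prop
        exact hcont.tendsto.eventually_lt_const (by
          show ((1:ℝ) - 1) * (volume K).toReal < _
          rw [sub_self, zero_mul]; exact hv)
      obtain ⟨d, ⟨-, hdS⟩, hdlt⟩ := (hacc.and_eventually hev).exists
      obtain ⟨m, t, hmt⟩ := ae_B K hK hi h0 d (hS d hdS).1 (hS d hdS).2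
      have hd := (hS d hdS).1
      have hvr : ∀ w : E, ‖w‖ = 1 → (volume (K \ cut K w (t w))).toReal =
          (1 - d) * (volume K).toReal := by
        intro w hw
        rw [measure_sdiff (ae_sub K w (t w)) (ae_cut_meas K hK w _).nullMeasurableSet (hcutfin _ _),
          ENNReal.toReal_sub_of_le (measure_mono (ae_sub K w (t w))) hKfin,
          (hmt w hw).1, ENNReal.toReal_mul, ENNReal.toReal_ofReal hd.1.le]
        ring
      have hdm : ∀ w : E, MeasurableSet (K \ cut K w (t w)) := fun w =>
        hK.isClosed.measurableSet.diff (ae_cut_meas K hK w _)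
      have hdf : ∀ w : E, volume (K \ cut K w (t w)) ≠ ⊤ := fun w =>
        ((measure_mono sdiff_subset).trans_lt hK.measure_lt_top).ne
      have hint : ∀ w : E, ‖w‖ = 1 → ∫ x in K \ cut K w (t w), inner ℝ x w = m := by
        intro w hw
        have h1 := integral_diff (μ := volume) (ae_cut_meas K hK w (t w))
          (ae_int K hK w K subset_rfl) inter_subset_left
        rw [h1, (hmt w hw).2, ae_inner K hK K subset_rfl w, h0, inner_zero_left]
        ring
      have ht : inner ℝ (X u') u' - ε ≤ t u' := by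
        by_contra hcon
        push Not at hcon
        have h1 : A ⊆ K \ cut K u' (t u') := by
          intro x hx
          refine ⟨hAK hx, ?_⟩
          intro hx2
          rw [hA] at hx
          have h3 : inner ℝ x (-u') < -(inner ℝ (X u') u') + ε := hx.2
          rw [inner_neg_right] at h3
          have h4 : inner ℝ x u' ≤ t u' := hx2.2
          linarith
        have h2 := ENNReal.toReal_mono (hdf u') (measure_mono (μ := volume) h1)
        rw [hvr _ hu'] at h2
        linarith
      have h1 := ae_le _ (hdm u) (hdf u) _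
        (ae_int K hK u _ sdiff_subset) (inner ℝ (X u) u) (fun x hx => hXmax u x hx.1)
      have h2 := ae_ge _ (hdm u') (hdf u') _
        (ae_int K hK u' _ sdiff_subset) (t u') (by
          intro x hx
          by_contra hcon
          push Not at hcon
          exact hx.2 ⟨hx.1, hcon.le⟩)
      rw [hint u hu, hvr u hu] at h1
      rw [hint u' hu', hvr u' hu'] at h2
      have h3 : 0 < (1 - d) * (volume K).toReal := mul_pos (by linarith [hd.2]) hV
      have h4 : t u' ≤ inner ℝ (X u) u := le_of_mul_le_mul_right (h2.trans h1) h3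
      linarith
  obtain ⟨e0, he0⟩ : ∃ e0 : E, ‖e0‖ = 1 := ⟨EuclideanSpace.single 0 1, by simp⟩
  refine ⟨inner ℝ (X e0) e0, ae_A K hK hc hi _ ?_⟩
  intro u hu
  have he : inner ℝ (X u) u = inner ℝ (X e0) e0 :=
    le_antisymm (hconst e0 u he0 hu) (hconst u e0 hu he0)
  exact ⟨fun x hx => (hXmax u x hx).trans he.le, X u, hXK u, he⟩


end FB.J_j13

alias FB.acc_end := FB.J_j13.acc_end
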