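import Pool.Agent.Helper240.FB.Defs
import Pool.Agent.Helper240.FB.J13

open Filter Topology Set MeasureTheory

namespace FB.J_j14












theorem vol_translate (a : E) (A : Set E) : volume ((fun x => -a + x) '' A) = volume A := by
  rw [Set.image_add_left]
  exact measure_preimage_add volume _ A

theorem int_translate (a : E) (A : Set E) (hA : IntegrableOn (fun x : E => x) A) (hfin : volume A ≠ ⊤) :
    ∫ x in (fun x => -a + x) '' A, x = -((volume A).toReal • a) + ∫ x in A, x := by
  have hmp : MeasurePreserving (fun x : E => -a + x) volume volume := measurePreserving_add_left volume (-a)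
  have hme : MeasurableEmbedding (fun x : E => -a + x) := measurableEmbedding_addLeft (-a)
  rw [hmp.setIntegral_image_emb hme]
  have hc : IntegrableOn (fun _ : E => -a) A := by
    apply integrableOn_const hfin
  rw [integral_add hc hA, setIntegral_const]
  simp [Measure.real]

theorem cen_translate (a : E) (A : Set E) (hA : IntegrableOn (fun x : E => x) A) (hfin : volume A ≠ ⊤)
    (h0 : volume A ≠ 0) : cen ((fun x => -a + x) '' A) = -a + cen A := by
  unfold cen
  rw [vol_translate, int_translate a A hA hfin, smul_add, smul_neg, smul_smul,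
    inv_mul_cancel₀ (ENNReal.toReal_ne_zero.mpr ⟨h0, hfin⟩), one_smul]

theorem cut_translate (a : E) (K : Set E) (u : E) (t : ℝ) :
    cut ((fun x => -a + x) '' K) u (t - inner ℝ a u) = (fun x => -a + x) '' (cut K u t) := by
  ext y
  constructor
  · rintro ⟨⟨x, hx, rfl⟩, hy⟩
    refine ⟨x, ⟨hx, ?_⟩, rfl⟩
    simp only [mem_setOf_eq, inner_add_left, inner_neg_left] at hy ⊢
    linarith
  · rintro ⟨x, ⟨hx, hy⟩, rfl⟩
    refine ⟨⟨x, hx, rfl⟩, ?_⟩
    simp only [mem_setOf_eq, inner_add_left, inner_neg_left] at hy ⊢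
    linarith

theorem floats_translate (a : E) (K : Set E) (hK : IsCompact K) (hpos : volume K ≠ 0) (d : ℝ) (hd : 0 < d)
    (h : Floats K d) : Floats ((fun x => -a + x) '' K) d := by
  intro u hu
  obtain ⟨t, ht, c, hcu⟩ := h u hu
  have hfinK : volume K ≠ ⊤ := hK.measure_lt_top.ne
  have hintK : IntegrableOn (fun x : E => x) K := continuous_id.continuousOn.integrableOn_compact hK
  have hsub : cut K u t ⊆ K := inter_subset_left
  have hfin : volume (cut K u t) ≠ ⊤ := (lt_of_le_of_lt (measure_mono hsub) hK.measure_lt_top).ne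
  have hne : volume (cut K u t) ≠ 0 := by
    rw [ht]
    exact mul_ne_zero (ENNReal.ofReal_pos.mpr hd).ne' hpos
  refine ⟨t - inner ℝ a u, ?_, c, ?_⟩
  · rw [cut_translate, vol_translate, vol_translate, ht]
  · rw [cut_translate, cen_translate a K hintK hfinK hpos,
      cen_translate a (cut K u t) (hintK.mono_set hsub) hfin hne, ← hcu]
    abel

/-- TARGET -/
theorem main_end (K : Set E) (hK : IsCompact K) (hc : Convex ℝ K) (hi : (interior K).Nonempty)
    (h : AccPt 0 (𝓟 {e : ℝ | e ∈ Ioo (0 : ℝ) 1 ∧ Floats K e}) ∨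
      AccPt 1 (𝓟 {e : ℝ | e ∈ Ioo (0 : ℝ) 1 ∧ Floats K e})) :
    ∃ (c : E) (r : ℝ), 0 < r ∧ K = Metric.closedBall c r := by
  set a : E := cen K with ha
  have hpos : volume K ≠ 0 := by
    obtain ⟨x, hx⟩ := hi
    have : 0 < volume (interior K) := isOpen_interior.measure_pos volume ⟨x, hx⟩
    exact (lt_of_lt_of_le this (measure_mono interior_subset)).ne'
  have hfinK : volume K ≠ ⊤ := hK.measure_lt_top.ne
  have hintK : IntegrableOn (fun x : E => x) K := continuous_id.continuousOn.integrableOn_compact hK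
  have hcK' : IsCompact ((fun x => -a + x) '' K) := hK.image (by fun_prop)
  have hcv : Convex ℝ ((fun x => -a + x) '' K) := hc.translate (-a)
  have hin : (interior ((fun x => -a + x) '' K)).Nonempty := by
    have := (Homeomorph.addLeft (-a)).image_interior K
    have e : (fun x => -a + x) '' K = (Homeomorph.addLeft (-a)) '' K := rfl
    rw [e, ← this]
    exact hi.image _
  have h0 : ∫ x in (fun x => -a + x) '' K, x = 0 := by
    rw [int_translate a K hintK hfinK, ha]
    unfold cen
    rw [smul_smul, mul_inv_cancel₀ (ENNReal.toReal_ne_zero.mpr ⟨hpos, hfinK⟩), one_smul]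
    simp
  obtain ⟨R, hR, hKR⟩ := acc_end _ hcK' hcv hin h0 {e : ℝ | e ∈ Ioo (0 : ℝ) 1 ∧ Floats K e}
    (fun d hd => ⟨hd.1, floats_translate a K hK hpos d hd.1.1 hd.2⟩) h
  refine ⟨a, R, hR, ?_⟩
  ext x
  have h1 : x ∈ K ↔ (-a + x) ∈ (fun x => -a + x) '' K := by
    constructor
    · intro hx; exact ⟨x, hx, rfl⟩
    · rintro ⟨z, hz, hzx⟩
      have : z = x := by simpa using hzx
      rwa [← this]
  rw [h1, hKR, Metric.mem_closedBall, Metric.mem_closedBall, dist_zero_right, dist_eq_norm]
  have : -a + x = x - a := by abel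
  rw [this]


end FB.J_j14

alias FB.main_end := FB.J_j14.main_end
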